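import Pool.Agent.H122R2.FdF.FlagKern

/-! Auxiliary lemmas for the flag certificates. -/

set_option autoImplicit false
set_option maxRecDepth 100000
open Finset
open scoped Classical

namespace Pool.Agent.H122R2.FdF

theorem nsum_eq (n : ℕ) (f : ℕ → ℕ) : nsum n f = ∑ k ∈ range n, f k := by
  induction n with
  | zero => rfl
  | succ n ih => rw [sum_range_succ, ← ih]; rfl

theorem nall_true {n : ℕ} {f : ℕ → Bool} (h : nall n f = true) : ∀ k < n, f k = true := by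
  induction n with
  | zero => intro k hk; omega
  | succ n ih =>
    have h' : (nall n f && f n) = true := h
    rw [Bool.and_eq_true] at h'
    intro k hk
    rcases Nat.lt_succ_iff_lt_or_eq.mp hk with hk | rfl
    · exact ih h'.1 k hk
    · exact h'.2

theorem A3_true {f : ℕ → ℕ → Bool} (h : A3 f = true) {d e : ℕ} (hd : Pr d e) : f d e = true := by
  have h' : (f 0 0 && (f 1 2 && f 2 1)) = true := h
  simp only [Bool.and_eq_true] at h'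
  rcases hd with ⟨rfl, rfl⟩ | ⟨rfl, rfl⟩ | ⟨rfl, rfl⟩
  exacts [h'.1, h'.2.1, h'.2.2]

theorem expand (s : Finset ℕ) (u v : ℕ → ℕ) (B : ℤ) :
    ∑ k ∈ s, ((u k : ℤ) - B) * ((v k : ℤ) - B) =
      ∑ k ∈ s, (u k : ℤ) * (v k : ℤ) - B * ∑ k ∈ s, ((u k : ℤ) + (v k : ℤ)) + s.card * B ^ 2 := by
  rw [mul_sum, ← sum_sub_distrib]
  have : (s.card : ℤ) * B ^ 2 = ∑ k ∈ s, B ^ 2 := by simp
  rw [this, ← sum_add_distrib]
  exact sum_congr rfl fun k _ => by ring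

/-- no induced oriented 4-cycle, in terms of codes -/
def NoC4 {V : Type} (rel : V → V → ℕ) : Prop := ∀ a b c d : V,
  cy4 (rel a b) (rel a c) (rel a d) (rel b c) (rel b d) (rel c d) = 0

theorem cyc_zero {V : Type} (rel : V → V → ℕ) (hz : NoC4 rel) (x : Fin 5 → V) :
    cyc (rel (x 0) (x 1)) (rel (x 0) (x 2)) (rel (x 0) (x 3)) (rel (x 0) (x 4))
      (rel (x 1) (x 2)) (rel (x 1) (x 3)) (rel (x 1) (x 4)) (rel (x 2) (x 3))
      (rel (x 2) (x 4)) (rel (x 3) (x 4)) = 0 := by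
  have z0 := hz (x 1) (x 2) (x 3) (x 4)
  have z1 := hz (x 0) (x 2) (x 3) (x 4)
  have z2 := hz (x 0) (x 1) (x 3) (x 4)
  have z3 := hz (x 0) (x 1) (x 2) (x 4)
  have z4 := hz (x 0) (x 1) (x 2) (x 3)
  unfold cyc
  rw [z0, z1, z2, z3, z4]

theorem rl0 {V : Type} {R : V → V → Prop} {x y : V} (h : rl R x y = 0) : ¬ R x y ∧ ¬ R y x := by
  unfold rl at h
  by_cases a : R x y <;> by_cases b : R y x <;> simp_all

theorem rl1 {V : Type} {R : V → V → Prop} {x y : V} (h : rl R x y = 1) : R x y := by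
  unfold rl at h
  by_cases a : R x y <;> by_cases b : R y x <;> simp_all

theorem rl2 {V : Type} {R : V → V → Prop} {x y : V} (h : rl R x y = 2) : R y x := by
  unfold rl at h
  by_cases a : R x y <;> by_cases b : R y x <;> simp_all

theorem rl_lt {V : Type} (R : V → V → Prop) (x y : V) : rl R x y < 3 := by
  unfold rl
  split_ifs <;> omega

def cyclesList : List (List ℕ) := [[1, 0, 2, 1, 0, 1], [2, 0, 1, 2, 0, 2],
      [1, 2, 0, 0, 1, 2], [2, 1, 0, 0, 2, 1], [0, 1, 2, 2, 1, 0], [0, 2, 1, 1, 2, 0]]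

theorem cy4_chk : (nall 3 fun x => nall 3 fun y => nall 3 fun z => nall 3 fun u => nall 3 fun v =>
    nall 3 fun w => (Nat.beq (cy4 x y z u v w) 0 || decide ([x, y, z, u, v, w] ∈ cyclesList)))
      = true := by decide +kernel

theorem cy4_aux (x : ℕ) (hx : x < 3) (y : ℕ) (hy : y < 3) (z : ℕ) (hz : z < 3) (u : ℕ) (hu : u < 3)
    (v : ℕ) (hv : v < 3) (w : ℕ) (hw : w < 3) :
    cy4 x y z u v w = 0 ∨ [x, y, z, u, v, w] ∈ cyclesList := by
  have h := nall_true (nall_true (nall_true (nall_true (nall_true (nall_true cy4_chk x hx) y hy)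
    z hz) u hu) v hv) w hw
  rw [Bool.or_eq_true, decide_eq_true_iff] at h
  rcases h with h | h
  · exact Or.inl (Nat.eq_of_beq_eq_true h)
  · exact Or.inr h

theorem cy4_table {x y z u v w : ℕ} (hx : x < 3) (hy : y < 3) (hz : z < 3) (hu : u < 3)
    (hv : v < 3) (hw : w < 3) :
    cy4 x y z u v w = 0 ∨
    (x = 1 ∧ y = 0 ∧ z = 2 ∧ u = 1 ∧ v = 0 ∧ w = 1) ∨
    (x = 2 ∧ y = 0 ∧ z = 1 ∧ u = 2 ∧ v = 0 ∧ w = 2) ∨
    (x = 1 ∧ y = 2 ∧ z = 0 ∧ u = 0 ∧ v = 1 ∧ w = 2) ∨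
    (x = 2 ∧ y = 1 ∧ z = 0 ∧ u = 0 ∧ v = 2 ∧ w = 1) ∨
    (x = 0 ∧ y = 1 ∧ z = 2 ∧ u = 2 ∧ v = 1 ∧ w = 0) ∨
    (x = 0 ∧ y = 2 ∧ z = 1 ∧ u = 1 ∧ v = 2 ∧ w = 0) := by
  have h := cy4_aux x hx y hy z hz u hu v hv w hw
  simpa only [cyclesList, List.mem_cons, List.cons.injEq, List.not_mem_nil, and_true, or_false] using h

theorem noC4_rl {V : Type} (R : V → V → Prop) (hC : C4Free R) : NoC4 (rl R) := by
  intro a b c d
  have key : ∀ a b c d, R a b → R b c → R c d → R d a → ¬ R a c → ¬ R c a → ¬ R b d → ¬ R d b →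
      False := fun a b c d h1 h2 h3 h4 h5 h6 h7 h8 => by
    rcases hC a b c d h1 h2 h3 h4 with h | h | h | h <;> contradiction
  rcases cy4_table (rl_lt R a b) (rl_lt R a c) (rl_lt R a d) (rl_lt R b c) (rl_lt R b d)
    (rl_lt R c d) with
    h0 | ⟨h1, h2, h3, h4, h5, h6⟩ | ⟨h1, h2, h3, h4, h5, h6⟩ | ⟨h1, h2, h3, h4, h5, h6⟩ |
      ⟨h1, h2, h3, h4, h5, h6⟩ | ⟨h1, h2, h3, h4, h5, h6⟩ | ⟨h1, h2, h3, h4, h5, h6⟩
  · exact h0
  · exact (key a b c d (rl1 h1) (rl1 h4) (rl1 h6) (rl2 h3) (rl0 h2).1 (rl0 h2).2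
      (rl0 h5).1 (rl0 h5).2).elim
  · exact (key a d c b (rl1 h3) (rl2 h6) (rl2 h4) (rl2 h1) (rl0 h2).1 (rl0 h2).2
      (rl0 h5).2 (rl0 h5).1).elim
  · exact (key a b d c (rl1 h1) (rl1 h5) (rl2 h6) (rl2 h2) (rl0 h3).1 (rl0 h3).2
      (rl0 h4).1 (rl0 h4).2).elim
  · exact (key a c d b (rl1 h2) (rl1 h6) (rl2 h5) (rl2 h1) (rl0 h3).1 (rl0 h3).2
      (rl0 h4).2 (rl0 h4).1).elim
  · exact (key a c b d (rl1 h2) (rl2 h4) (rl1 h5) (rl2 h3) (rl0 h1).1 (rl0 h1).2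
      (rl0 h6).1 (rl0 h6).2).elim
  · exact (key a d b c (rl1 h3) (rl2 h5) (rl1 h4) (rl2 h2) (rl0 h1).1 (rl0 h1).2
      (rl0 h6).2 (rl0 h6).1).elim

end Pool.Agent.H122R2.FdF
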