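import Pool.Agent.H122R2.FdF.Defs2

set_option autoImplicit false
open Finset
open scoped Classical

namespace Pool.Agent.H122R2.FdF

theorem N_comm {V : Type} (R : V → V → Prop) (x y : V) : N R x y = N R y x := by
  unfold N; exact if_congr or_comm rfl rfl

theorem N_self {V : Type} {R : V → V → Prop} (hO : Oriented R) (x : V) : N R x x = 1 := by
  unfold N; rw [if_neg]; rintro (h | h) <;> exact hO x x h h

theorem A_self {V : Type} {R : V → V → Prop} (hO : Oriented R) (x : V) : A R x x = 0 := by
  unfold A; rw [if_neg]; intro h; exact hO x x h h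

theorem N_01 {V : Type} (R : V → V → Prop) (x y : V) : N R x y = 0 ∨ N R x y = 1 := by
  unfold N; split_ifs <;> simp

theorem A_01 {V : Type} (R : V → V → Prop) (x y : V) : A R x y = 0 ∨ A R x y = 1 := by
  unfold A; split_ifs <;> simp

theorem N_nonneg {V : Type} (R : V → V → Prop) (x y : V) : 0 ≤ N R x y := by
  rcases N_01 R x y with h | h <;> rw [h]
  norm_num

theorem N_le_one {V : Type} (R : V → V → Prop) (x y : V) : N R x y ≤ 1 := by
  rcases N_01 R x y with h | h <;> rw [h]
  norm_num

theorem A_nonneg {V : Type} (R : V → V → Prop) (x y : V) : 0 ≤ A R x y := by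
  rcases A_01 R x y with h | h <;> rw [h]
  norm_num

theorem AAN {V : Type} {R : V → V → Prop} (hO : Oriented R) (x y : V) :
    A R x y + A R y x + N R x y = 1 := by
  have h1 := hO x y
  unfold A N
  by_cases a : R x y
  · have := h1 a
    simp [a, this]
  · by_cases b : R y x <;> simp [a, b]

variable {V : Type} [Fintype V] (R : V → V → Prop) (w : V → ℝ)

theorem cen (F : V → V → ℝ) :
    ∑ a, ∑ b, ∑ c, w a * w b * w c * (F a b * F a c) = ∑ a, w a * (∑ y, w y * F a y) ^ 2 := by
  refine sum_congr rfl fun a _ => ?_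
  rw [sq, Finset.sum_mul_sum, mul_sum]
  refine sum_congr rfl fun b _ => ?_
  rw [mul_sum]
  exact sum_congr rfl fun c _ => by ring

theorem cen_b (F : V → V → ℝ) :
    ∑ a, ∑ b, ∑ c, w a * w b * w c * (F b a * F b c) = ∑ a, w a * (∑ y, w y * F a y) ^ 2 := by
  rw [sum_comm, ← cen w F]
  exact sum_congr rfl fun a _ => sum_congr rfl fun b _ => sum_congr rfl fun c _ => by ring

theorem cen_c (F : V → V → ℝ) :
    ∑ a, ∑ b, ∑ c, w a * w b * w c * (F c a * F c b) = ∑ a, w a * (∑ y, w y * F a y) ^ 2 := by
  rw [← cen w F]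
  have e : ∑ a, ∑ b, ∑ c, w a * w b * w c * (F c a * F c b)
      = ∑ c, ∑ a, ∑ b, w a * w b * w c * (F c a * F c b) := by
    calc ∑ a, ∑ b, ∑ c, w a * w b * w c * (F c a * F c b)
        = ∑ a, ∑ c, ∑ b, w a * w b * w c * (F c a * F c b) :=
          sum_congr rfl fun a _ => sum_comm
      _ = _ := sum_comm
  rw [e]
  exact sum_congr rfl fun a _ => sum_congr rfl fun b _ => sum_congr rfl fun c _ => by ring

theorem T_eq (hO : Oriented R) (h1 : ∑ v, w v = 1) :
    T R w = 3 * Em2 R w - 2 * p0 R w + 3 * Ef2 R w := by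
  have e : T R w = ∑ a, ∑ b, ∑ c, (w a * w b * w c * (N R a b * N R a c)
      + w a * w b * w c * (N R b a * N R b c) + w a * w b * w c * (N R c a * N R c b)
      - 2 * (w a * w b * w c * (N R a b * N R a c * N R b c))
      + w a * w b * w c * (A R a b * A R a c) + w a * w b * w c * (A R b a * A R b c)
      + w a * w b * w c * (A R c a * A R c b)) := by
    unfold T
    refine sum_congr rfl fun a _ => sum_congr rfl fun b _ => sum_congr rfl fun c _ => ?_
    unfold H
    rw [N_comm R b a, N_comm R c a, N_comm R c b]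
    ring
  rw [e]
  simp only [sum_add_distrib, sum_sub_distrib, ← mul_sum]
  rw [cen w (fun x y => N R x y), cen_b w (fun x y => N R x y), cen_c w (fun x y => N R x y),
    cen w (fun x y => A R x y), cen_b w (fun x y => A R x y), cen_c w (fun x y => A R x y)]
  unfold Em2 Ef2 p0 m f
  ring

theorem L_eq (hO : Oriented R) (h1 : ∑ v, w v = 1) (v : V) :
    L R w v = m R w v ^ 2 + 2 * kap R w v + f R w v ^ 2
      + 2 * ∑ x, w x * A R x v * f R w x := by
  have e : L R w v = ∑ b, ∑ c, (w b * w c * (N R v b * N R v c)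
      + w b * w c * (N R v b * (1 - N R v c) * N R b c)
      + w b * w c * (N R v c * (1 - N R v b) * N R c b)
      + w b * w c * (A R v b * A R v c) + w b * w c * (A R b v * A R b c)
      + w b * w c * (A R c v * A R c b)) := by
    unfold L
    refine sum_congr rfl fun b _ => sum_congr rfl fun c _ => ?_
    unfold H
    rw [N_comm R c b]
    ring
  have sq1 : ∀ F : V → ℝ, ∑ b, ∑ c, w b * w c * (F b * F c) = (∑ y, w y * F y) ^ 2 := by
    intro F
    rw [sq, Finset.sum_mul_sum]
    exact sum_congr rfl fun b _ => sum_congr rfl fun c _ => by ring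
  rw [e]
  simp only [sum_add_distrib]
  have k1 : ∑ b, ∑ c, w b * w c * (N R v b * (1 - N R v c) * N R b c) = kap R w v := rfl
  have k2 : ∑ b, ∑ c, w b * w c * (N R v c * (1 - N R v b) * N R c b) = kap R w v := by
    rw [sum_comm]
    unfold kap
    exact sum_congr rfl fun b _ => sum_congr rfl fun c _ => by ring
  have k3 : ∑ b, ∑ c, w b * w c * (A R b v * A R b c) = ∑ x, w x * A R x v * f R w x := by
    refine sum_congr rfl fun b _ => ?_
    unfold f
    rw [mul_sum]
    exact sum_congr rfl fun c _ => by ring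
  have k4 : ∑ b, ∑ c, w b * w c * (A R c v * A R c b) = ∑ x, w x * A R x v * f R w x := by
    rw [sum_comm, ← k3]
    exact sum_congr rfl fun b _ => sum_congr rfl fun c _ => by ring
  rw [sq1, sq1, k1, k2, k3, k4]
  unfold m f
  ring

theorem fin_eq (hO : Oriented R) (h1 : ∑ v, w v = 1) (v : V) :
    ∑ x, w x * A R x v = 1 - m R w v - f R w v := by
  rw [← h1]
  unfold m f
  rw [← sum_sub_distrib, ← sum_sub_distrib]
  refine sum_congr rfl fun x _ => ?_
  have := AAN hO v x
  have e : A R x v = 1 - N R v x - A R v x := by linarith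
  rw [e]; ring

theorem f_sum (hO : Oriented R) (h1 : ∑ v, w v = 1) :
    ∑ v, w v * f R w v = (1 - M R w) / 2 := by
  have e1 : ∑ v, w v * f R w v = ∑ v, ∑ x, w v * w x * A R v x := by
    unfold f
    refine sum_congr rfl fun v _ => ?_
    rw [mul_sum]
    exact sum_congr rfl fun x _ => by ring
  have e2 : ∑ v, w v * f R w v = ∑ v, w v * ∑ x, w x * A R x v := by
    rw [e1, sum_comm]
    refine sum_congr rfl fun v _ => ?_
    rw [mul_sum]
    exact sum_congr rfl fun x _ => by ring
  have e3 : ∑ v, w v * f R w v = 1 - M R w - ∑ v, w v * f R w v := by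
    conv_lhs => rw [e2]
    have : ∀ v, w v * ∑ x, w x * A R x v = w v - w v * m R w v - w v * f R w v := by
      intro v
      rw [fin_eq R w hO h1 v]; ring
    simp only [this]
    rw [sum_sub_distrib, sum_sub_distrib, h1]
    rfl
  linarith

theorem p0_le_Em2 (hw : ∀ v, 0 ≤ w v) : p0 R w ≤ Em2 R w := by
  have e : Em2 R w = ∑ a, ∑ b, ∑ c, w a * w b * w c * (N R a b * N R a c) := by
    rw [cen w (fun x y => N R x y)]; rfl
  rw [e]
  unfold p0
  refine sum_le_sum fun a _ => sum_le_sum fun b _ => sum_le_sum fun c _ => ?_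
  refine mul_le_mul_of_nonneg_left ?_ (mul_nonneg (mul_nonneg (hw a) (hw b)) (hw c))
  exact mul_le_of_le_one_right (mul_nonneg (N_nonneg R a b) (N_nonneg R a c)) (N_le_one R b c)

theorem k4_nonneg (hw : ∀ v, 0 ≤ w v) : 0 ≤ k4 R w := by
  unfold k4
  refine sum_nonneg fun a _ => sum_nonneg fun b _ => sum_nonneg fun c _ => sum_nonneg fun d _ => ?_
  have h : ∀ x y, 0 ≤ 1 - N R x y := fun x y => sub_nonneg.mpr (N_le_one R x y)
  have := hw a
  have := hw b
  have := hw c
  have := hw d
  have := h a b
  have := h a c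
  have := h a d
  have := h b c
  have := h b d
  have := h c d
  positivity

theorem kap_nonneg (hw : ∀ v, 0 ≤ w v) (v : V) : 0 ≤ kap R w v := by
  unfold kap
  refine sum_nonneg fun x _ => sum_nonneg fun y _ => ?_
  have := hw x
  have := hw y
  have h1 : 0 ≤ 1 - N R v y := sub_nonneg.mpr (N_le_one R v y)
  have := N_nonneg R v x
  have := N_nonneg R x y
  positivity

theorem soc_cor (hO : Oriented R) (h : Opt R w) (u v : V) (huv : N R u v = 1) :
    f R w u + f R w v ≤ 2 * ∑ y, w y * ((1 - N R u y) * (1 - N R v y)) := by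
  have hs := h.soc u v
  have hd : ∀ x, Qd R w x x = 1 - f R w x := by
    intro x
    unfold Qd f
    rw [← h.sum, ← sum_sub_distrib]
    refine sum_congr rfl fun c _ => ?_
    unfold H
    rw [N_self hO, A_self hO]
    have h3 := AAN hO x c
    have h1 := N_01 R x c
    have h2 := A_01 R c x
    have h4 : A R x c = 1 - N R x c - A R c x := by linarith
    rw [h4]
    rcases h1 with h1 | h1 <;> rcases h2 with h2 | h2 <;> rw [h1, h2] <;> ring
  have hq : 1 - ∑ y, w y * ((1 - N R u y) * (1 - N R v y)) ≤ Qd R w u v := by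
    have e0 : 1 - ∑ y, w y * ((1 - N R u y) * (1 - N R v y))
        = ∑ y, (w y - w y * ((1 - N R u y) * (1 - N R v y))) := by
      rw [sum_sub_distrib, h.sum]
    unfold Qd
    rw [e0]
    refine sum_le_sum fun c _ => ?_
    have hA1 := AAN hO u v
    have p1 := A_nonneg R u v
    have p2 := A_nonneg R v u
    have a1 : A R u v = 0 := by linarith
    have a2 : A R v u = 0 := by linarith
    have e : H R u v c = N R u c + N R v c * (1 - N R u c) + A R c u * A R c v := by
      unfold H
      rw [huv, a1, a2]; ring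
    have p3 := mul_nonneg (A_nonneg R c u) (A_nonneg R c v)
    have hwc := (h.pos c).le
    have := mul_nonneg hwc p3
    rw [e]
    have e2 : w c * (N R u c + N R v c * (1 - N R u c) + A R c u * A R c v)
        = w c - w c * ((1 - N R u c) * (1 - N R v c)) + w c * (A R c u * A R c v) := by ring
    rw [e2]
    linarith
  rw [hd u, hd v] at hs
  linarith

end Pool.Agent.H122R2.FdF
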