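import Pool.Agent.H122R2.FdF.FlagDefs
import Pool.Agent.H122R2.FdF.TaskB

/-! Code functions versus the densities (task K2). -/

set_option autoImplicit false
set_option linter.all false
open Finset
open scoped Classical

namespace Pool.Agent.H122R2.FdF

namespace TK2

/-- non-adjacent -/
def nu (i : ℕ) : ℕ := cond (Nat.beq i 0) 1 0
/-- adjacent -/
def ad (i : ℕ) : ℕ := cond (Nat.beq i 0) 0 1
/-- arc forward -/
def fw (i : ℕ) : ℕ := cond (Nat.beq i 1) 1 0
/-- arc backward -/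
def bw (i : ℕ) : ℕ := cond (Nat.beq i 2) 1 0

theorem rel_cases {V : Type} (R : V → V → Prop) (hO : Oriented R) (x y : V) :
    (rl R x y = 0 ∧ rl R y x = 0 ∧ A R x y = 0 ∧ A R y x = 0 ∧ N R x y = 1) ∨
    (rl R x y = 1 ∧ rl R y x = 2 ∧ A R x y = 1 ∧ A R y x = 0 ∧ N R x y = 0) ∨
    (rl R x y = 2 ∧ rl R y x = 1 ∧ A R x y = 0 ∧ A R y x = 1 ∧ N R x y = 0) := by
  have h1 := hO x y
  unfold rl A N
  by_cases a : R x y
  · have b := h1 a
    simp [a, b]
  · by_cases b : R y x <;> simp [a, b]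

variable {V : Type} (R : V → V → Prop)

theorem rl_lt (hO : Oriented R) (x y : V) : rl R x y < 3 := by
  rcases rel_cases R hO x y with ⟨h, _⟩ | ⟨h, _⟩ | ⟨h, _⟩ <;> rw [h] <;> norm_num

theorem N_eq (hO : Oriented R) (x y : V) : N R x y = (nu (rl R x y) : ℝ) := by
  rcases rel_cases R hO x y with ⟨h, _, _, _, h'⟩ | ⟨h, _, _, _, h'⟩ | ⟨h, _, _, _, h'⟩ <;>
    rw [h, h'] <;> simp [nu]

theorem oN_eq (hO : Oriented R) (x y : V) : 1 - N R x y = (ad (rl R x y) : ℝ) := by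
  rcases rel_cases R hO x y with ⟨h, _, _, _, h'⟩ | ⟨h, _, _, _, h'⟩ | ⟨h, _, _, _, h'⟩ <;>
    rw [h, h'] <;>
    simp [show ad 0 = 0 from rfl, show ad 1 = 1 from rfl, show ad 2 = 1 from rfl]

theorem A_eq (hO : Oriented R) (x y : V) : A R x y = (fw (rl R x y) : ℝ) := by
  rcases rel_cases R hO x y with ⟨h, _, h', _, _⟩ | ⟨h, _, h', _, _⟩ | ⟨h, _, h', _, _⟩ <;>
    rw [h, h'] <;> simp [fw]

theorem A_eq' (hO : Oriented R) (x y : V) : A R y x = (bw (rl R x y) : ℝ) := by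
  rcases rel_cases R hO x y with ⟨h, _, _, h', _⟩ | ⟨h, _, _, h', _⟩ | ⟨h, _, _, h', _⟩ <;>
    rw [h, h'] <;> simp [bw]

theorem pc_eq : ∀ i < 3, ∀ j < 3, ∀ k < 3, pc (cd i j k) =
    nu i * nu j + nu i * nu k * ad j + nu j * nu k * ad i + fw i * fw j + bw i * fw k
      + bw j * bw k := by decide

theorem adjc_eq : ∀ i < 3, ∀ j < 3, ∀ k < 3, adjc (cd i j k) = ad i + ad j + ad k := by decide

theorem p1c_eq : ∀ i < 3, ∀ j < 3, ∀ k < 3, p1c (cd i j k) =
    nu i * nu j * ad k + nu i * nu k * ad j + nu j * nu k * ad i := by decide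

theorem chc_eq : ∀ i < 3, ∀ j < 3, ∀ k < 3, chc (cd i j k) =
    fw i * fw j + bw i * fw k + bw j * bw k := by decide

theorem adj3_eq : ∀ i < 3, ∀ j < 3, ∀ k < 3,
    cond (Nat.beq (adjc (cd i j k)) 3) 1 0 = ad i * ad j * ad k := by decide

theorem k4c_mul (c i : ℕ) : k4c c i =
    cond (Nat.beq (adjc c) 3) 1 0 * cond (Nat.beq (adjc i) 3) 1 0 := by
  unfold k4c
  cases Nat.beq (adjc c) 3 <;> cases Nat.beq (adjc i) 3 <;> rfl

/-! ### pointwise identities -/

theorem pc_pt (hO : Oriented R) (a b c : V) : ((pc (c3 (rl R) a b c) : ℕ) : ℝ) = H R a b c := by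
  unfold c3
  rw [pc_eq _ (rl_lt R hO a b) _ (rl_lt R hO a c) _ (rl_lt R hO b c)]
  unfold H
  rw [oN_eq R hO a c, oN_eq R hO a b, N_eq R hO a b, N_eq R hO a c, N_eq R hO b c,
    A_eq R hO a b, A_eq R hO a c, A_eq' R hO a b, A_eq R hO b c, A_eq' R hO a c, A_eq' R hO b c]
  push_cast
  ring

theorem adjc_pt (hO : Oriented R) (a b c : V) : ((adjc (c3 (rl R) a b c) : ℕ) : ℝ)
    = (1 - N R a b) + (1 - N R a c) + (1 - N R b c) := by
  unfold c3
  rw [adjc_eq _ (rl_lt R hO a b) _ (rl_lt R hO a c) _ (rl_lt R hO b c),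
    oN_eq R hO a b, oN_eq R hO a c, oN_eq R hO b c]
  push_cast
  ring

theorem p1c_pt (hO : Oriented R) (a b c : V) : ((p1c (c3 (rl R) a b c) : ℕ) : ℝ)
    = N R a b * N R a c * (1 - N R b c) + N R a b * N R b c * (1 - N R a c)
      + N R a c * N R b c * (1 - N R a b) := by
  unfold c3
  rw [p1c_eq _ (rl_lt R hO a b) _ (rl_lt R hO a c) _ (rl_lt R hO b c),
    oN_eq R hO a b, oN_eq R hO a c, oN_eq R hO b c, N_eq R hO a b, N_eq R hO a c, N_eq R hO b c]
  push_cast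
  ring

theorem chc_pt (hO : Oriented R) (a b c : V) : ((chc (c3 (rl R) a b c) : ℕ) : ℝ)
    = A R a b * A R a c + A R b a * A R b c + A R c a * A R c b := by
  unfold c3
  rw [chc_eq _ (rl_lt R hO a b) _ (rl_lt R hO a c) _ (rl_lt R hO b c),
    A_eq R hO a b, A_eq R hO a c, A_eq' R hO a b, A_eq R hO b c, A_eq' R hO a c, A_eq' R hO b c]
  push_cast
  ring

theorem adj3_pt (hO : Oriented R) (a b c : V) (x y z : ℕ) (hx : x = rl R a b) (hy : y = rl R a c)
    (hz : z = rl R b c) : ((cond (Nat.beq (adjc (cd x y z)) 3) 1 0 : ℕ) : ℝ)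
      = (1 - N R a b) * (1 - N R a c) * (1 - N R b c) := by
  subst hx hy hz
  rw [adj3_eq _ (rl_lt R hO a b) _ (rl_lt R hO a c) _ (rl_lt R hO b c),
    oN_eq R hO a b, oN_eq R hO a c, oN_eq R hO b c]
  push_cast
  ring

theorem k4c_pt (hO : Oriented R) (a b c d : V) :
    ((k4c (c3 (rl R) a b c) (c4 (rl R) a b c d) : ℕ) : ℝ)
      = (1 - N R a b) * (1 - N R a c) * (1 - N R a d) * (1 - N R b c) * (1 - N R b d)
        * (1 - N R c d) := by
  unfold c3 c4
  rw [k4c_mul, adj3_eq _ (rl_lt R hO a b) _ (rl_lt R hO a c) _ (rl_lt R hO b c),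
    adj3_eq _ (rl_lt R hO a d) _ (rl_lt R hO b d) _ (rl_lt R hO c d),
    oN_eq R hO a b, oN_eq R hO a c, oN_eq R hO b c, oN_eq R hO a d, oN_eq R hO b d,
    oN_eq R hO c d]
  push_cast
  ring

variable [Fintype V] (w : V → ℝ)

theorem sum3_one (h1 : ∑ v, w v = 1) (F : V → V → ℝ) :
    ∑ a, ∑ b, ∑ c, w a * w b * w c * F a b = ∑ a, ∑ b, w a * w b * F a b := by
  refine sum_congr rfl fun a _ => sum_congr rfl fun b _ => ?_
  calc ∑ c, w a * w b * w c * F a b = (∑ c, w c) * (w a * w b * F a b) := by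
        rw [sum_mul]; exact sum_congr rfl fun c _ => by ring
    _ = w a * w b * F a b := by rw [h1, one_mul]

theorem sum3_swap_bc (F : V → V → V → ℝ) :
    ∑ a, ∑ b, ∑ c, w a * w b * w c * F a b c = ∑ a, ∑ b, ∑ c, w a * w b * w c * F a c b := by
  refine sum_congr rfl fun a _ => ?_
  rw [sum_comm]
  exact sum_congr rfl fun b _ => sum_congr rfl fun c _ => by ring

theorem sum3_swap_ab (F : V → V → V → ℝ) :
    ∑ a, ∑ b, ∑ c, w a * w b * w c * F a b c = ∑ a, ∑ b, ∑ c, w a * w b * w c * F b a c := by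
  rw [sum_comm]
  exact sum_congr rfl fun a _ => sum_congr rfl fun b _ => sum_congr rfl fun c _ => by ring

theorem sum3_add (F G : V → V → V → ℝ) :
    ∑ a, ∑ b, ∑ c, w a * w b * w c * (F a b c + G a b c)
      = (∑ a, ∑ b, ∑ c, w a * w b * w c * F a b c) + ∑ a, ∑ b, ∑ c, w a * w b * w c * G a b c := by
  simp only [mul_add, sum_add_distrib]

theorem sum_oN (h1 : ∑ v, w v = 1) :
    ∑ a, ∑ b, w a * w b * (1 - N R a b) = 1 - M R w := by
  have e : M R w = ∑ a, ∑ b, w a * w b * N R a b := by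
    unfold M m
    refine sum_congr rfl fun a _ => ?_
    rw [mul_sum]
    exact sum_congr rfl fun b _ => by ring
  have e1 : ∑ a, ∑ b, w a * w b = (1 : ℝ) := by
    rw [← Finset.sum_mul_sum, h1]; norm_num
  rw [e]
  conv_rhs => rw [← e1]
  rw [← sum_sub_distrib]
  refine sum_congr rfl fun a _ => ?_
  rw [← sum_sub_distrib]
  exact sum_congr rfl fun b _ => by ring

theorem sum_Em2p0 :
    ∑ a, ∑ b, ∑ c, w a * w b * w c * (N R a b * N R a c * (1 - N R b c))
      = Em2 R w - p0 R w := by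
  have e : Em2 R w = ∑ a, ∑ b, ∑ c, w a * w b * w c * (N R a b * N R a c) := by
    rw [cen w (fun x y => N R x y)]; rfl
  rw [e]
  unfold p0
  simp only [← sum_sub_distrib]
  refine sum_congr rfl fun a _ => sum_congr rfl fun b _ => sum_congr rfl fun c _ => ?_
  ring

end TK2

open TK2

/-- Task K2 -/
theorem rl_pr {V : Type} (R : V → V → Prop) (hO : Oriented R) (x y : V) :
    Pr (rl R x y) (rl R y x) := by
  unfold Pr
  rcases rel_cases R hO x y with ⟨h, h', _⟩ | ⟨h, h', _⟩ | ⟨h, h', _⟩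
  · left; exact ⟨h, h'⟩
  · right; left; exact ⟨h, h'⟩
  · right; right; exact ⟨h, h'⟩

theorem sum_pc {V : Type} [Fintype V] (R : V → V → Prop) (w : V → ℝ) (hO : Oriented R)
    (h1 : ∑ v, w v = 1) :
    ∑ a, ∑ b, ∑ c, w a * w b * w c * (pc (c3 (rl R) a b c) : ℝ) = T R w := by
  unfold T
  refine sum_congr rfl fun a _ => sum_congr rfl fun b _ => sum_congr rfl fun c _ => ?_
  rw [pc_pt R hO]

theorem sum_adjc {V : Type} [Fintype V] (R : V → V → Prop) (w : V → ℝ) (hO : Oriented R)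
    (h1 : ∑ v, w v = 1) :
    ∑ a, ∑ b, ∑ c, w a * w b * w c * (adjc (c3 (rl R) a b c) : ℝ) = 3 * (1 - M R w) := by
  simp only [adjc_pt R hO]
  rw [sum3_add, sum3_add, sum3_one w h1 (fun a b => 1 - N R a b)]
  have e2 : ∑ a, ∑ b, ∑ c, w a * w b * w c * (1 - N R a c) = 1 - M R w := by
    rw [sum3_swap_bc w (fun a b c => 1 - N R a c), sum3_one w h1 (fun a b => 1 - N R a b),
      sum_oN R w h1]
  have e3 : ∑ a, ∑ b, ∑ c, w a * w b * w c * (1 - N R b c) = 1 - M R w := by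
    rw [sum3_swap_ab w (fun a b c => 1 - N R b c), e2]
  rw [e2, e3, sum_oN R w h1]
  ring

theorem sum_p1c {V : Type} [Fintype V] (R : V → V → Prop) (w : V → ℝ) (hO : Oriented R)
    (h1 : ∑ v, w v = 1) :
    ∑ a, ∑ b, ∑ c, w a * w b * w c * (p1c (c3 (rl R) a b c) : ℝ)
      = 3 * (Em2 R w - p0 R w) := by
  simp only [p1c_pt R hO]
  rw [sum3_add, sum3_add, sum_Em2p0]
  have e2 : ∑ a, ∑ b, ∑ c, w a * w b * w c * (N R a b * N R b c * (1 - N R a c))
      = Em2 R w - p0 R w := by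
    rw [sum3_swap_ab w (fun a b c => N R a b * N R b c * (1 - N R a c)), ← sum_Em2p0]
    refine sum_congr rfl fun a _ => sum_congr rfl fun b _ => sum_congr rfl fun c _ => ?_
    rw [N_comm R b a]
  have e3 : ∑ a, ∑ b, ∑ c, w a * w b * w c * (N R a c * N R b c * (1 - N R a b))
      = Em2 R w - p0 R w := by
    rw [sum3_swap_bc w (fun a b c => N R a c * N R b c * (1 - N R a b)), ← e2]
    refine sum_congr rfl fun a _ => sum_congr rfl fun b _ => sum_congr rfl fun c _ => ?_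
    rw [N_comm R c b]
  rw [e2, e3]
  ring

theorem sum_chc {V : Type} [Fintype V] (R : V → V → Prop) (w : V → ℝ) (hO : Oriented R)
    (h1 : ∑ v, w v = 1) :
    ∑ a, ∑ b, ∑ c, w a * w b * w c * (chc (c3 (rl R) a b c) : ℝ) = 3 * Ef2 R w := by
  simp only [chc_pt R hO]
  rw [sum3_add, sum3_add, cen w (fun x y => A R x y), cen_b w (fun x y => A R x y),
    cen_c w (fun x y => A R x y)]
  unfold Ef2 f
  ring

theorem sum_k4c {V : Type} [Fintype V] (R : V → V → Prop) (w : V → ℝ) (hO : Oriented R)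
    (h1 : ∑ v, w v = 1) :
    ∑ a, ∑ b, ∑ c, ∑ d, w a * w b * w c * w d *
      (k4c (c3 (rl R) a b c) (c4 (rl R) a b c d) : ℝ) = k4 R w := by
  unfold k4
  refine sum_congr rfl fun a _ => sum_congr rfl fun b _ => sum_congr rfl fun c _ =>
    sum_congr rfl fun d _ => ?_
  rw [k4c_pt R hO]

end Pool.Agent.H122R2.FdF
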