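import Pool.Agent.H122R2.FdF.TaskK1
import Pool.Agent.H122R2.FdF.TaskK2
import Pool.Agent.H122R2.FdF.Fin1
import Pool.Agent.H122R2.FdF.Fin2

/-! The two flag certificates. -/

set_option autoImplicit false
open Finset
open scoped Classical

namespace Pool.Agent.H122R2.FdF


theorem lin3 {V : Type} [Fintype V] (w : V → ℝ) (x y z : ℝ) (F G K : V → V → V → ℝ) :
    ∑ a, ∑ b, ∑ c, w a * w b * w c * (x * F a b c - (y * G a b c + z * K a b c)) =
      x * (∑ a, ∑ b, ∑ c, w a * w b * w c * F a b c)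
        - (y * (∑ a, ∑ b, ∑ c, w a * w b * w c * G a b c)
          + z * (∑ a, ∑ b, ∑ c, w a * w b * w c * K a b c)) := by
  simp only [mul_sum, ← sum_sub_distrib, ← sum_add_distrib]
  refine sum_congr rfl fun a _ => sum_congr rfl fun b _ => sum_congr rfl fun c _ => ?_
  ring

theorem lin4 {V : Type} [Fintype V] (w : V → ℝ) (x x' y z : ℝ) (F F' G K : V → V → V → ℝ) :
    ∑ a, ∑ b, ∑ c, w a * w b * w c * (x * F a b c + x' * F' a b c
        - (y * G a b c + z * K a b c)) =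
      x * (∑ a, ∑ b, ∑ c, w a * w b * w c * F a b c)
        + x' * (∑ a, ∑ b, ∑ c, w a * w b * w c * F' a b c)
        - (y * (∑ a, ∑ b, ∑ c, w a * w b * w c * G a b c)
          + z * (∑ a, ∑ b, ∑ c, w a * w b * w c * K a b c)) := by
  simp only [mul_sum, ← sum_sub_distrib, ← sum_add_distrib]
  refine sum_congr rfl fun a _ => sum_congr rfl fun b _ => sum_congr rfl fun c _ => ?_
  ring

theorem cert1 {V : Type} [Fintype V] (R : V → V → Prop) (w : V → ℝ) (hO : Oriented R)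
    (hC : C4Free R) (hw : ∀ v, 0 ≤ w v) (h1 : ∑ v, w v = 1) (hT : T R w < 4 / 9) :
    M R w - 1 / 3 + 15 * (Em2 R w - p0 R w) ≤ 0.0131 := by
  have hb := flag_bound (rl R) (rl_pr R hO) w hw h1 27 15 6545162892171 C1.q3 C1.l3 C1.q1 C1.l1
    524288 274877906944 274877906944 C1.t C1.g C1.q3_eq C1.q1_eq
    (C1.leaf_all (rl R) (rl_pr R hO) (noC4_rl R hC))
  have ht : ∑ a, ∑ b, ∑ c, w a * w b * w c * (C1.t (c3 (rl R) a b c) : ℝ)
      = 16106127360 * (3 * (Em2 R w - p0 R w))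
        - (1073741824 * (3 * (1 - M R w)) + 68789463274 * T R w) := by
    rw [← sum_p1c R w hO h1, ← sum_adjc R w hO h1, ← sum_pc R w hO h1, ← lin3]
    refine sum_congr rfl fun a _ => sum_congr rfl fun b _ => sum_congr rfl fun c _ => ?_
    unfold C1.t
    push_cast
    rfl
  have hg : ∑ a, ∑ b, ∑ c, ∑ d, w a * w b * w c * w d *
          (C1.g (c3 (rl R) a b c) (c4 (rl R) a b c d) : ℝ) = 0 := by
    unfold C1.g
    simp
  rw [ht, hg] at hb
  push_cast at hb
  linarith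

theorem cert2 {V : Type} [Fintype V] (R : V → V → Prop) (w : V → ℝ) (hO : Oriented R)
    (hC : C4Free R) (hw : ∀ v, 0 ≤ w v) (h1 : ∑ v, w v = 1) (hT : T R w < 4 / 9) :
    10 * (Ef2 R w - 0.329 * (1 - M R w) + 0.329 ^ 2) + 6 * (Em2 R w - p0 R w) + k4 R w
      ≤ 0.00225 := by
  have hb := flag_bound (rl R) (rl_pr R hO) w hw h1 27 15 6766689646530 C2.q3 C2.l3 C2.q1 C2.l1
    524288 274877906944 274877906944 C2.t C2.g C2.q3_eq C2.q1_eq
    (C2.leaf_all (rl R) (rl_pr R hO) (noC4_rl R hC))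
  have ht : ∑ a, ∑ b, ∑ c, w a * w b * w c * (C2.t (c3 (rl R) a b c) : ℝ)
      = 8388608000 * (3 * Ef2 R w) + 5033164800 * (3 * (Em2 R w - p0 R w))
        - (2759852032 * (3 * (1 - M R w)) + 17566834689 * T R w) := by
    rw [← sum_p1c R w hO h1, ← sum_adjc R w hO h1, ← sum_pc R w hO h1, ← sum_chc R w hO h1, ← lin4]
    refine sum_congr rfl fun a _ => sum_congr rfl fun b _ => sum_congr rfl fun c _ => ?_
    unfold C2.t
    push_cast
    rfl
  have hg : ∑ a, ∑ b, ∑ c, ∑ d, w a * w b * w c * w d *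
          (C2.g (c3 (rl R) a b c) (c4 (rl R) a b c d) : ℝ) = 1258291200 * k4 R w := by
    rw [← sum_k4c R w hO h1]
    simp only [mul_sum]
    refine sum_congr rfl fun a _ => sum_congr rfl fun b _ => sum_congr rfl fun c _ =>
      sum_congr rfl fun d _ => ?_
    unfold C2.g
    push_cast
    ring
  rw [ht, hg] at hb
  push_cast at hb
  linarith

end Pool.Agent.H122R2.FdF
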