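import Mathlib

set_option autoImplicit false

namespace Pool.Agent.H122R2.FdF.Num

theorem cub_nonneg (u x : ℝ) (hu : 0 ≤ u) (hx : x ≤ 0) : 0 ≤ (u - x) ^ 3 + x ^ 3 - u ^ 3 := by
  have e : (u - x) ^ 3 + x ^ 3 - u ^ 3 = 3 * (u * (-x)) * (u - x) := by ring
  rw [e]
  exact mul_nonneg (mul_nonneg (by norm_num) (mul_nonneg hu (by linarith))) (by linarith)

theorem tot_alg (u x sa sb X E p Vf q : ℝ) (hq : q = u ^ 2 + (u - x) ^ 2 + x ^ 2 - sa + sb)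
    (h : (1 / 3 - u) ^ 3 + (1 / 3 + (u - x)) ^ 3 + (1 / 3 + x) ^ 3 - sa + sb + X
      ≤ 3 * E - 2 * p) :
    4 / 9 + ((u - x) ^ 3 + x ^ 3 - u ^ 3) + 3 / 4 * q ^ 2 + 3 * Vf + X
      ≤ 3 * E - 2 * p + 3 * (Vf + (1 / 3 - q / 2) ^ 2) := by
  have e : (1 / 3 - u) ^ 3 + (1 / 3 + (u - x)) ^ 3 + (1 / 3 + x) ^ 3
      = 1 / 9 + (u ^ 2 + (u - x) ^ 2 + x ^ 2) + ((u - x) ^ 3 + x ^ 3 - u ^ 3) := by ring
  rw [e] at h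
  have e2 : 3 * (Vf + (1 / 3 - q / 2) ^ 2) = 3 * Vf + 1 / 3 - q + 3 / 4 * q ^ 2 := by ring
  rw [e2]
  linarith

theorem psi0 (a b W : ℝ) (ha : 0 ≤ a) (hb : 0 ≤ b) (hz : a + b ≤ 0.075) (hW : 0.228 ≤ W) :
    0 ≤ a - b + 6 * W * b - 3 * (a + b) ^ 2 := by
  nlinarith [mul_nonneg hb (sub_nonneg.mpr hW), mul_nonneg (add_nonneg ha hb) (sub_nonneg.mpr hz)]

theorem psi_main (a b : ℝ) (ha : 0 ≤ a) (hb : 0 ≤ b) (hab : a + b ≤ 0.075) :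
    0.01 * a + 0.92 * min a 0.02 ≤ a + b - 3 * (a + b) ^ 2 := by
  have h1 : a - 3 * a ^ 2 ≤ a + b - 3 * (a + b) ^ 2 := by nlinarith
  refine le_trans ?_ h1
  rcases le_total a 0.02 with h | h
  · rw [min_eq_left h]; nlinarith
  · rw [min_eq_right h]; nlinarith

theorem psi_zero (a b u : ℝ) (ha : 0 ≤ a) (hb : 0 ≤ b) (hz : a + b ≤ 0.075) (hu : u ≤ 0.0935) :
    0.01 * a ≤ a - b + 6 * (1 / 3 - u) * b - 3 * (a + b) ^ 2 := by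
  nlinarith [mul_nonneg (add_nonneg ha hb) (sub_nonneg.mpr hz), mul_nonneg hb (sub_nonneg.mpr hu)]

theorem psi_pos (a b e : ℝ) (ha : 0 ≤ a) (hb : 0 ≤ b) (hz : a + b ≤ 0.075) (he : 0 ≤ e) :
    0.01 * a + 0.92 * min a 0.02 ≤ a - b + 6 * (1 / 3 + e) * b - 3 * (a + b) ^ 2 := by
  have h := psi_main a b ha hb hz
  have h2 := mul_nonneg hb he
  nlinarith

theorem e3 (a b W : ℝ) (ha : 0 ≤ a) (hb : 0 ≤ b) (hz : a + b ≤ 0.075) (hW : 0.228 ≤ W) :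
    0.078 * (a + b) ≤ W * a + 2 * W * b - 2 * (a + b) ^ 2 := by
  nlinarith [mul_nonneg ha (sub_nonneg.mpr hW), mul_nonneg hb (sub_nonneg.mpr hW),
      mul_nonneg (add_nonneg ha hb) (sub_nonneg.mpr hz)]

theorem u_le (u x : ℝ) (hu : 0 ≤ u) (h : u ^ 2 + (u - x) ^ 2 + x ^ 2 ≤ 0.0131) :
    u ≤ 0.0935 := by
  have h1 : 1.5 * u ^ 2 ≤ u ^ 2 + (u - x) ^ 2 + x ^ 2 := by nlinarith [sq_nonneg (u - 2 * x)]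
  nlinarith

theorem q15 (u x : ℝ) : 1.5 * u ^ 2 ≤ u ^ 2 + (u - x) ^ 2 + x ^ 2 := by
  nlinarith [sq_nonneg (u - 2 * x)]

theorem delta_le (u q : ℝ) (hu : 0 ≤ u) (hu9 : u ≤ 0.0935) (hq : 1.5 * u ^ 2 - 0.00345 ≤ q) :
    u - q / 2 ≤ 0.089 := by
  nlinarith [mul_nonneg hu (sub_nonneg.mpr hu9), mul_nonneg (sub_nonneg.mpr hu9) (sub_nonneg.mpr hu9)]

theorem cube_lb (u x : ℝ) (hu : 0 ≤ u) : -(3 / 4) * u ^ 3 ≤ (u - x) ^ 3 + x ^ 3 - u ^ 3 := by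
  have e : (u - x) ^ 3 + x ^ 3 - u ^ 3 + 3 / 4 * u ^ 3 = 3 / 4 * (u * (u - 2 * x) ^ 2) := by ring
  have := mul_nonneg hu (sq_nonneg (u - 2 * x))
  linarith

theorem fin_neg (u q sa Vf S1 S2 C X T : ℝ) (hu : 0 ≤ u) (hu9 : u ≤ 0.0935) (hq : 2 * u ≤ q)
    (hV : 0 ≤ Vf) (h1 : 0 ≤ S1) (h2 : 0 ≤ S2) (hsa : 0 ≤ sa) (hC : -(3 / 4) * u ^ 3 ≤ C)
    (hX : 0.01 * sa + 0.92 * (S1 + S2) ≤ X)
    (hT : 4 / 9 + C + 3 / 4 * q ^ 2 + 3 * Vf + X ≤ T) : 4 / 9 ≤ T := by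
  have h3 : 4 * u ^ 2 ≤ q ^ 2 := by nlinarith
  have h4 : u ^ 3 ≤ 0.0935 * u ^ 2 := by
    have := mul_nonneg (mul_nonneg hu hu) (sub_nonneg.mpr hu9)
    nlinarith
  nlinarith [sq_nonneg u]

theorem fin_pos (u x q sa sb Vf S1 S2 C X T δ : ℝ) (hu : 0 ≤ u) (hq0 : 0 ≤ q)
    (hq1 : q ≤ 0.0131) (hδ : δ = u - q / 2) (hδ0 : 0 < δ)
    (hqQ : q = u ^ 2 + (u - x) ^ 2 + x ^ 2 - sa + sb) (hsa : 0 ≤ sa) (hsb : 0 ≤ sb)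
    (hV3 : 3 / 4 * δ ^ 3 ≤ 3 * Vf + 0.92 * (S1 + S2))
    (hC : -(3 / 4) * u ^ 3 ≤ C)
    (hX : 0.01 * sa + 0.92 * (S1 + S2) ≤ X)
    (hT : 4 / 9 + C + 3 / 4 * q ^ 2 + 3 * Vf + X ≤ T) : 4 / 9 ≤ T := by
  have hx : 0 ≤ q / 2 := by linarith
  have hb : u ^ 3 - 3 * u ^ 2 * (q / 2) ≤ δ ^ 3 := by
    have e : δ ^ 3 - (u ^ 3 - 3 * u ^ 2 * (q / 2)) = (q / 2) * (q / 2) * (3 * u - q / 2) := by
      rw [hδ]; ring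
    have := mul_nonneg (mul_nonneg hx hx) (by linarith : (0:ℝ) ≤ 3 * u - q / 2)
    linarith
  have hq15 : 0 ≤ q * (q - 1.5 * u ^ 2 + sa) := by
    refine mul_nonneg hq0 ?_
    have := q15 u x
    rw [hqQ]; linarith
  have h5 := mul_nonneg hsa (sub_nonneg.mpr hq1)
  nlinarith

end Pool.Agent.H122R2.FdF.Num
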