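import Pool.Agent.H122R2.FdF.Defs2

/-! Extraction of a near-tripartite partition (task C). -/

set_option autoImplicit false
set_option linter.all false
open Finset
open scoped Classical

namespace Pool.Agent.H122R2.FdF

namespace TC

variable {V : Type} [Fintype V] {R : V → V → Prop} {w : V → ℝ}

theorem N_symm (R : V → V → Prop) (x y : V) : N R x y = N R y x := by
  unfold N
  by_cases h : R x y ∨ R y x
  · rw [if_pos h, if_pos h.symm]
  · rw [if_neg h, if_neg (fun h' => h h'.symm)]

theorem N_self (hO : Oriented R) (x : V) : N R x x = 1 := by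
  unfold N
  rw [if_neg]
  rintro (h | h) <;> exact hO x x h h

theorem N01 (R : V → V → Prop) (x y : V) : N R x y = 0 ∨ N R x y = 1 := by
  unfold N
  by_cases h : R x y ∨ R y x
  · left; rw [if_pos h]
  · right; rw [if_neg h]

theorem N_nonneg (x y : V) : 0 ≤ N R x y := by
  rcases N01 R x y with h | h <;> rw [h] <;> norm_num

theorem N_le (x y : V) : N R x y ≤ 1 := by
  rcases N01 R x y with h | h <;> rw [h] <;> norm_num

/-! ### sums -/

theorem sum2_mono (hw : ∀ v, 0 ≤ w v) {F G : V → V → ℝ} (h : ∀ x y, F x y ≤ G x y) :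
    ∑ x, ∑ y, w x * w y * F x y ≤ ∑ x, ∑ y, w x * w y * G x y :=
  Finset.sum_le_sum fun x _ => Finset.sum_le_sum fun y _ =>
    mul_le_mul_of_nonneg_left (h x y) (mul_nonneg (hw x) (hw y))

theorem sum2_add (w : V → ℝ) (F G : V → V → ℝ) :
    ∑ x, ∑ y, w x * w y * (F x y + G x y)
      = (∑ x, ∑ y, w x * w y * F x y) + ∑ x, ∑ y, w x * w y * G x y := by
  simp only [mul_add, Finset.sum_add_distrib]

theorem sum2_sub (w : V → ℝ) (F G : V → V → ℝ) :
    ∑ x, ∑ y, w x * w y * (F x y - G x y)
      = (∑ x, ∑ y, w x * w y * F x y) - ∑ x, ∑ y, w x * w y * G x y := by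
  simp only [mul_sub, Finset.sum_sub_distrib]

theorem sum2_comm (w : V → ℝ) (F : V → V → ℝ) :
    ∑ x, ∑ y, w x * w y * F x y = ∑ x, ∑ y, w x * w y * F y x := by
  rw [Finset.sum_comm]
  refine Finset.sum_congr rfl fun x _ => Finset.sum_congr rfl fun y _ => ?_
  ring

theorem sum2_left (h1 : ∑ v, w v = 1) (g : V → ℝ) :
    ∑ x, ∑ y, w x * w y * g x = ∑ x, w x * g x := by
  refine Finset.sum_congr rfl fun x _ => ?_
  calc ∑ y, w x * w y * g x = (∑ y, w y) * (w x * g x) := by
        rw [Finset.sum_mul]; exact Finset.sum_congr rfl fun y _ => by ring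
    _ = w x * g x := by rw [h1, one_mul]

theorem sum2_right (h1 : ∑ v, w v = 1) (g : V → ℝ) :
    ∑ x, ∑ y, w x * w y * g y = ∑ x, w x * g x := by
  rw [sum2_comm]; exact sum2_left h1 g

theorem sum2_prod (w : V → ℝ) (g h : V → ℝ) :
    ∑ x, ∑ y, w x * w y * (g x * h y) = (∑ x, w x * g x) * ∑ y, w y * h y := by
  rw [Finset.sum_mul_sum]
  refine Finset.sum_congr rfl fun x _ => Finset.sum_congr rfl fun y _ => ?_
  ring

/-! ### the global densities -/

theorem Em2_eq (w : V → ℝ) (R : V → V → Prop) :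
    Em2 R w = ∑ v, ∑ x, ∑ y, w v * (w x * w y * (N R v x * N R v y)) := by
  unfold Em2
  refine Finset.sum_congr rfl fun v _ => ?_
  rw [pow_two]
  unfold m
  rw [← sum2_prod w (fun x => N R v x) (fun y => N R v y), Finset.mul_sum]
  refine Finset.sum_congr rfl fun x _ => ?_
  rw [Finset.mul_sum]

theorem sum_lam (w : V → ℝ) (R : V → V → Prop) :
    ∑ v, w v * lam R w v = Em2 R w - p0 R w := by
  rw [Em2_eq]
  unfold lam p0
  rw [← Finset.sum_sub_distrib]
  refine Finset.sum_congr rfl fun v _ => ?_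
  rw [← Finset.sum_sub_distrib, Finset.mul_sum]
  refine Finset.sum_congr rfl fun x _ => ?_
  rw [← Finset.sum_sub_distrib, Finset.mul_sum]
  refine Finset.sum_congr rfl fun y _ => ?_
  ring

theorem sum_kap (w : V → ℝ) (R : V → V → Prop) :
    ∑ v, w v * kap R w v = Em2 R w - p0 R w := by
  have e1 : ∑ v, w v * kap R w v
      = (∑ v, ∑ x, ∑ y, w v * (w x * w y * (N R v x * N R x y))) -
        ∑ v, ∑ x, ∑ y, w v * w x * w y * (N R v x * N R v y * N R x y) := by
    unfold kap
    rw [← Finset.sum_sub_distrib]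
    refine Finset.sum_congr rfl fun v _ => ?_
    rw [← Finset.sum_sub_distrib, Finset.mul_sum]
    refine Finset.sum_congr rfl fun x _ => ?_
    rw [← Finset.sum_sub_distrib, Finset.mul_sum]
    refine Finset.sum_congr rfl fun y _ => ?_
    ring
  rw [e1, Em2_eq]
  unfold p0
  congr 1
  rw [Finset.sum_comm]
  refine Finset.sum_congr rfl fun v _ => Finset.sum_congr rfl fun x _ =>
    Finset.sum_congr rfl fun y _ => ?_
  rw [N_symm R x v]
  ring

theorem lam_nonneg (hw : ∀ v, 0 ≤ w v) (v : V) : 0 ≤ lam R w v := by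
  unfold lam
  refine Finset.sum_nonneg fun x _ => Finset.sum_nonneg fun y _ => ?_
  have := sub_nonneg.2 (N_le (R := R) x y)
  exact mul_nonneg (mul_nonneg (hw x) (hw y))
    (mul_nonneg (mul_nonneg (N_nonneg v x) (N_nonneg v y)) this)

theorem kap_nonneg' (hw : ∀ v, 0 ≤ w v) (v : V) : 0 ≤ kap R w v := by
  unfold kap
  refine Finset.sum_nonneg fun x _ => Finset.sum_nonneg fun y _ => ?_
  have := sub_nonneg.2 (N_le (R := R) v y)
  exact mul_nonneg (mul_nonneg (hw x) (hw y))
    (mul_nonneg (mul_nonneg (N_nonneg v x) this) (N_nonneg x y))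

/-! ### step 1 -/

noncomputable def PP (R : V → V → Prop) (a b : V) (x : V) : Fin 3 :=
  if N R a x = 1 then 0 else if N R b x = 1 then 1 else 2

noncomputable def kk (R : V → V → Prop) (w : V → ℝ) (a b : V) : ℝ :=
  ∑ x, ∑ y, w x * w y *
    ((1 - N R a x) * (1 - N R a y) * (1 - N R b x) * (1 - N R b y) * (1 - N R x y))

theorem bad_PP (R : V → V → Prop) (a b x y : V) :
    bad R (PP R a b) x y ≤
      N R a x * N R a y * (1 - N R x y) + N R b x * N R b y * (1 - N R x y)
      + (1 - N R a x) * (1 - N R a y) * (1 - N R b x) * (1 - N R b y) * (1 - N R x y)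
      + N R a x * (1 - N R a y) * N R x y + N R a y * (1 - N R a x) * N R x y
      + N R b x * (1 - N R b y) * N R x y + N R b y * (1 - N R b x) * N R x y := by
  unfold bad PP
  have f1 : (2 : Fin 3) ≠ 1 := by decide
  have f2 : (1 : Fin 3) ≠ 2 := by decide
  have f3 : (2 : Fin 3) ≠ 0 := by decide
  have f4 : (0 : Fin 3) ≠ 2 := by decide
  have f5 : (0 : Fin 3) ≠ 1 := by decide
  have f6 : (1 : Fin 3) ≠ 0 := by decide
  rcases N01 R a x with h1 | h1 <;> rcases N01 R a y with h2 | h2 <;>
    rcases N01 R b x with h3 | h3 <;> rcases N01 R b y with h4 | h4 <;>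
    rcases N01 R x y with h5 | h5 <;> rw [h1, h2, h3, h4, h5] <;>
    norm_num [f1, f2, f3, f4, f5, f6]

theorem Z_PP (hw : ∀ v, 0 ≤ w v) (a b : V) :
    Z R w (PP R a b) ≤ lam R w a + lam R w b + kk R w a b + 2 * kap R w a + 2 * kap R w b := by
  have h := sum2_mono hw (bad_PP R a b)
  simp only [sum2_add] at h
  have e1 : ∑ x, ∑ y, w x * w y * (N R a y * (1 - N R a x) * N R x y) = kap R w a := by
    rw [sum2_comm]
    unfold kap
    refine Finset.sum_congr rfl fun x _ => Finset.sum_congr rfl fun y _ => ?_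
    rw [N_symm R y x]
  have e2 : ∑ x, ∑ y, w x * w y * (N R b y * (1 - N R b x) * N R x y) = kap R w b := by
    rw [sum2_comm]
    unfold kap
    refine Finset.sum_congr rfl fun x _ => Finset.sum_congr rfl fun y _ => ?_
    rw [N_symm R y x]
  rw [e1, e2] at h
  have e3 : ∑ x, ∑ y, w x * w y * (N R a x * (1 - N R a y) * N R x y) = kap R w a := rfl
  have e4 : ∑ x, ∑ y, w x * w y * (N R b x * (1 - N R b y) * N R x y) = kap R w b := rfl
  have e5 : ∑ x, ∑ y, w x * w y * (N R a x * N R a y * (1 - N R x y)) = lam R w a := rfl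
  have e6 : ∑ x, ∑ y, w x * w y * (N R b x * N R b y * (1 - N R x y)) = lam R w b := rfl
  have e7 : ∑ x, ∑ y, w x * w y *
    ((1 - N R a x) * (1 - N R a y) * (1 - N R b x) * (1 - N R b y) * (1 - N R x y))
      = kk R w a b := rfl
  rw [e3, e4, e5, e6, e7] at h
  unfold Z
  linarith

theorem k4_eq (R : V → V → Prop) (w : V → ℝ) :
    k4 R w = ∑ a, ∑ b, w a * w b * ((1 - N R a b) * kk R w a b) := by
  unfold k4 kk
  refine Finset.sum_congr rfl fun a _ => Finset.sum_congr rfl fun b _ => ?_
  rw [Finset.mul_sum, Finset.mul_sum]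
  refine Finset.sum_congr rfl fun c _ => ?_
  rw [Finset.mul_sum, Finset.mul_sum]
  refine Finset.sum_congr rfl fun d _ => ?_
  ring

theorem M_eq (R : V → V → Prop) (w : V → ℝ) :
    M R w = ∑ x, ∑ y, w x * w y * N R x y := by
  unfold M m
  refine Finset.sum_congr rfl fun x _ => ?_
  rw [Finset.mul_sum]
  refine Finset.sum_congr rfl fun y _ => ?_
  ring

theorem step1 (hw : ∀ v, 0 ≤ w v) (h1 : ∑ v, w v = 1)
    (hM2 : M R w ≤ 1 / 3 + 0.0131)
    (hC2 : 6 * (Em2 R w - p0 R w) + k4 R w ≤ 0.00225) :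
    ∃ P : V → Fin 3, Z R w P ≤ 0.00345 := by
  by_contra hcon
  push Not at hcon
  have hlow : ∑ a, ∑ b, w a * w b * ((1 - N R a b) * 0.00345) ≤
      ∑ a, ∑ b, w a * w b * ((1 - N R a b) * Z R w (PP R a b)) := by
    refine sum2_mono hw fun a b => ?_
    exact mul_le_mul_of_nonneg_left (hcon _).le (sub_nonneg.2 (N_le a b))
  have hup : ∑ a, ∑ b, w a * w b * ((1 - N R a b) * Z R w (PP R a b)) ≤
      ∑ a, ∑ b, w a * w b * (lam R w a + lam R w b + (1 - N R a b) * kk R w a b
        + 2 * kap R w a + 2 * kap R w b) := by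
    refine sum2_mono hw fun a b => ?_
    have hz := Z_PP (R := R) hw a b
    have l1 := lam_nonneg (R := R) hw a
    have l2 := lam_nonneg (R := R) hw b
    have l3 := kap_nonneg' (R := R) hw a
    have l4 := kap_nonneg' (R := R) hw b
    rcases N01 R a b with h | h
    · rw [h]; linarith
    · rw [h]; linarith
  have e1 : ∑ a, ∑ b, w a * w b * ((1 - N R a b) * 0.00345) = (1 - M R w) * 0.00345 := by
    have : ∑ a, ∑ b, w a * w b * ((1 - N R a b) * 0.00345)
        = (∑ a, ∑ b, w a * w b * (1 - N R a b)) * 0.00345 := by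
      rw [Finset.sum_mul]
      refine Finset.sum_congr rfl fun a _ => ?_
      rw [Finset.sum_mul]
      refine Finset.sum_congr rfl fun b _ => ?_
      ring
    rw [this, sum2_sub, ← M_eq]
    congr 2
    have := sum2_left h1 (fun _ => (1 : ℝ))
    rw [this]
    simp [h1]
  have e2 : ∑ a, ∑ b, w a * w b * (lam R w a + lam R w b + (1 - N R a b) * kk R w a b
        + 2 * kap R w a + 2 * kap R w b) = 6 * (Em2 R w - p0 R w) + k4 R w := by
    simp only [sum2_add]
    rw [sum2_left h1 (fun a => lam R w a), sum2_right h1 (fun a => lam R w a),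
      sum2_left h1 (fun a => 2 * kap R w a), sum2_right h1 (fun a => 2 * kap R w a), ← k4_eq]
    have : ∑ x, w x * (2 * kap R w x) = 2 * ∑ x, w x * kap R w x := by
      rw [Finset.mul_sum]; exact Finset.sum_congr rfl fun x _ => by ring
    rw [this, sum_lam, sum_kap]
    ring
  rw [e1] at hlow
  rw [e2] at hup
  have := hlow.trans (hup.trans hC2)
  have h3 : (1 - (1 / 3 + 0.0131)) * 0.00345 ≤ (1 - M R w) * 0.00345 := by
    have : (0 : ℝ) ≤ 0.00345 := by norm_num
    nlinarith
  norm_num at this h3 ⊢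
  linarith

/-! ### step 2 -/

theorem Z_al_be (R : V → V → Prop) (w : V → ℝ) (P : V → Fin 3) :
    Z R w P = ∑ v, w v * (al R w P v + be R w P v) := by
  unfold Z al be
  refine Finset.sum_congr rfl fun v _ => ?_
  rw [← Finset.sum_add_distrib, Finset.mul_sum]
  refine Finset.sum_congr rfl fun y _ => ?_
  unfold bad
  by_cases h : P y = P v
  · rw [if_pos h, if_pos h, if_pos h.symm]; ring
  · rw [if_neg h, if_neg h, if_neg (fun h' => h h'.symm)]; ring

theorem zz_self (hO : Oriented R) (P : V → Fin 3) (v : V) :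
    zz R w P (P v) v = al R w P v + be R w P v := by
  unfold zz al be
  rw [← Finset.sum_add_distrib]
  refine Finset.sum_congr rfl fun y _ => ?_
  by_cases h : y = v
  · subst h
    simp [N_self hO]
  · rw [if_neg h]
    by_cases h' : P y = P v
    · rw [if_pos h', if_pos h', if_pos h']; ring
    · rw [if_neg h', if_neg h', if_neg h']; ring

theorem zz_update (P : V → Fin 3) (v : V) (i j : Fin 3) :
    zz R w (Function.update P v i) j v = zz R w P j v := by
  unfold zz
  refine Finset.sum_congr rfl fun y _ => ?_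
  by_cases h : y = v
  · rw [if_pos h, if_pos h]
  · rw [if_neg h, if_neg h, Function.update_of_ne h]

theorem Z_split (hO : Oriented R) (w : V → ℝ) (P : V → Fin 3) (v : V) :
    Z R w P = (∑ x, ∑ y, w x * w y * (if x = v ∨ y = v then 0 else bad R P x y))
      + 2 * w v * zz R w P (P v) v := by
  have key : ∀ x y, bad R P x y = (if x = v ∨ y = v then 0 else bad R P x y)
      + ((if x = v then (if y = v then 0 else if P y = P v then 1 - N R v y else N R v y) else 0)
      + (if y = v then (if x = v then 0 else if P x = P v then 1 - N R v x else N R v x) else 0)) := by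
    intro x y
    by_cases hx : x = v
    · by_cases hy : y = v
      · subst hx; subst hy
        simp [bad, N_self hO]
      · subst hx
        simp only [hy, true_or, if_true, if_false, bad]
        by_cases h : P y = P x
        · rw [if_pos h, if_pos h.symm]; ring
        · rw [if_neg h, if_neg (fun h' => h h'.symm)]; ring
    · by_cases hy : y = v
      · subst hy
        simp only [hx, or_true, if_true, if_false, bad]
        rw [N_symm R x y]
        ring
      · simp only [hx, hy, or_self, if_false]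
        ring
  have e : Z R w P = ∑ x, ∑ y, w x * w y * ((if x = v ∨ y = v then 0 else bad R P x y)
      + ((if x = v then (if y = v then 0 else if P y = P v then 1 - N R v y else N R v y) else 0)
      + (if y = v then (if x = v then 0 else if P x = P v then 1 - N R v x else N R v x) else 0))) := by
    unfold Z
    exact Finset.sum_congr rfl fun x _ => Finset.sum_congr rfl fun y _ => by rw [← key x y]
  rw [e, sum2_add, sum2_add]
  have e1 : ∑ x, ∑ y, w x * w y *
      (if x = v then (if y = v then 0 else if P y = P v then 1 - N R v y else N R v y) else 0)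
      = w v * zz R w P (P v) v := by
    rw [Finset.sum_eq_single v]
    · unfold zz
      rw [Finset.mul_sum]
      refine Finset.sum_congr rfl fun y _ => ?_
      rw [if_pos rfl]; ring
    · intro x _ hx
      simp [hx]
    · intro h; exact absurd (Finset.mem_univ v) h
  have e2 : ∑ x, ∑ y, w x * w y *
      (if y = v then (if x = v then 0 else if P x = P v then 1 - N R v x else N R v x) else 0)
      = w v * zz R w P (P v) v := by
    rw [sum2_comm]; exact e1
  rw [e1, e2]
  ring

theorem min_zz (hO : Oriented R) (hpos : ∀ v, 0 < w v) (P : V → Fin 3)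
    (hmin : ∀ Q : V → Fin 3, Z R w P ≤ Z R w Q) (v : V) (i : Fin 3) :
    zz R w P (P v) v ≤ zz R w P i v := by
  have h := hmin (Function.update P v i)
  rw [Z_split hO w P v, Z_split hO w (Function.update P v i) v, zz_update,
    Function.update_self] at h
  have e : ∑ x, ∑ y, w x * w y *
      (if x = v ∨ y = v then 0 else bad R (Function.update P v i) x y)
      = ∑ x, ∑ y, w x * w y * (if x = v ∨ y = v then 0 else bad R P x y) := by
    refine Finset.sum_congr rfl fun x _ => Finset.sum_congr rfl fun y _ => ?_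
    by_cases hx : x = v ∨ y = v
    · rw [if_pos hx, if_pos hx]
    · rw [if_neg hx, if_neg hx]
      push Not at hx
      unfold bad
      rw [Function.update_of_ne hx.1, Function.update_of_ne hx.2]
  rw [e] at h
  have hv := hpos v
  have h2 : 2 * w v * zz R w P (P v) v ≤ 2 * w v * zz R w P i v := by linarith
  exact le_of_mul_le_mul_left h2 (by linarith)

/-! ### step 3 -/

theorem W_sum (w : V → ℝ) (P : V → Fin 3) : W w P 0 + W w P 1 + W w P 2 = ∑ v, w v := by
  unfold W
  rw [← Finset.sum_add_distrib, ← Finset.sum_add_distrib]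
  refine Finset.sum_congr rfl fun v _ => ?_
  generalize P v = i
  fin_cases i <;> simp

theorem W_sq (w : V → ℝ) (P : V → Fin 3) :
    W w P 0 ^ 2 + W w P 1 ^ 2 + W w P 2 ^ 2
      = ∑ x, ∑ y, w x * w y * (if P y = P x then 1 else 0) := by
  have hW : ∀ i, W w P i = ∑ x, w x * (if P x = i then 1 else 0) := by
    intro i; unfold W
    refine Finset.sum_congr rfl fun x _ => ?_
    split_ifs <;> simp
  rw [pow_two, pow_two, pow_two, hW 0, hW 1, hW 2,
    ← sum2_prod w (fun x => if P x = 0 then (1:ℝ) else 0) (fun y => if P y = 0 then (1:ℝ) else 0),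
    ← sum2_prod w (fun x => if P x = 1 then (1:ℝ) else 0) (fun y => if P y = 1 then (1:ℝ) else 0),
    ← sum2_prod w (fun x => if P x = 2 then (1:ℝ) else 0) (fun y => if P y = 2 then (1:ℝ) else 0),
    ← sum2_add, ← sum2_add]
  refine Finset.sum_congr rfl fun x _ => Finset.sum_congr rfl fun y _ => ?_
  congr 1
  generalize P x = i
  generalize P y = j
  fin_cases i <;> fin_cases j <;> simp

theorem W_sq_eq (R : V → V → Prop) (w : V → ℝ) (P : V → Fin 3) :
    W w P 0 ^ 2 + W w P 1 ^ 2 + W w P 2 ^ 2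
      = M R w + (∑ v, w v * al R w P v) - ∑ v, w v * be R w P v := by
  rw [W_sq, M_eq R w]
  have ea : ∑ v, w v * al R w P v
      = ∑ x, ∑ y, w x * w y * (if P y = P x then 1 - N R x y else 0) := by
    unfold al
    refine Finset.sum_congr rfl fun x _ => ?_
    rw [Finset.mul_sum]
    exact Finset.sum_congr rfl fun y _ => by ring
  have eb : ∑ v, w v * be R w P v
      = ∑ x, ∑ y, w x * w y * (if P y = P x then 0 else N R x y) := by
    unfold be
    refine Finset.sum_congr rfl fun x _ => ?_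
    rw [Finset.mul_sum]
    exact Finset.sum_congr rfl fun y _ => by ring
  rw [ea, eb, ← sum2_add, ← sum2_sub]
  refine Finset.sum_congr rfl fun x _ => Finset.sum_congr rfl fun y _ => ?_
  split_ifs <;> ring

theorem al_nonneg (hw : ∀ v, 0 ≤ w v) (P : V → Fin 3) (v : V) : 0 ≤ al R w P v := by
  unfold al
  refine Finset.sum_nonneg fun y _ => mul_nonneg (hw y) ?_
  split_ifs
  · exact sub_nonneg.2 (N_le v y)
  · exact le_refl 0

theorem be_nonneg (hw : ∀ v, 0 ≤ w v) (P : V → Fin 3) (v : V) : 0 ≤ be R w P v := by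
  unfold be
  refine Finset.sum_nonneg fun y _ => mul_nonneg (hw y) ?_
  split_ifs
  · exact le_refl 0
  · exact N_nonneg v y

/-! ### step 4 -/

noncomputable def nn (R : V → V → Prop) (w : V → ℝ) (P : V → Fin 3) (v : V) (i : Fin 3) : ℝ :=
  ∑ y, w y * (if P y = i then N R v y else 0)

noncomputable def cc (R : V → V → Prop) (w : V → ℝ) (P : V → Fin 3) (v : V) (i : Fin 3) : ℝ :=
  ∑ y, w y * (if P y = i then 1 - N R v y else 0)

theorem nn_nonneg (hw : ∀ v, 0 ≤ w v) (P : V → Fin 3) (v : V) (i : Fin 3) :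
    0 ≤ nn R w P v i := by
  unfold nn
  refine Finset.sum_nonneg fun y _ => mul_nonneg (hw y) ?_
  split_ifs
  · exact N_nonneg v y
  · exact le_refl 0

theorem cc_nonneg (hw : ∀ v, 0 ≤ w v) (P : V → Fin 3) (v : V) (i : Fin 3) :
    0 ≤ cc R w P v i := by
  unfold cc
  refine Finset.sum_nonneg fun y _ => mul_nonneg (hw y) ?_
  split_ifs
  · exact sub_nonneg.2 (N_le v y)
  · exact le_refl 0

theorem nn_cc (P : V → Fin 3) (v : V) (i : Fin 3) :
    nn R w P v i + cc R w P v i = W w P i := by
  unfold nn cc W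
  rw [← Finset.sum_add_distrib]
  refine Finset.sum_congr rfl fun y _ => ?_
  split_ifs <;> ring

theorem nn_sum (P : V → Fin 3) (v : V) :
    nn R w P v 0 + nn R w P v 1 + nn R w P v 2 = m R w v := by
  unfold nn m
  rw [← Finset.sum_add_distrib, ← Finset.sum_add_distrib]
  refine Finset.sum_congr rfl fun y _ => ?_
  generalize P y = i
  fin_cases i <;> simp

theorem nc_le (hw : ∀ v, 0 ≤ w v) (P : V → Fin 3) (v : V) :
    nn R w P v 0 * cc R w P v 0 + nn R w P v 1 * cc R w P v 1 + nn R w P v 2 * cc R w P v 2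
      ≤ kap R w v + Z R w P / 2 := by
  have e : nn R w P v 0 * cc R w P v 0 + nn R w P v 1 * cc R w P v 1
      + nn R w P v 2 * cc R w P v 2
      = ∑ x, ∑ y, w x * w y * (if P x = P y then N R v x * (1 - N R v y) else 0) := by
    unfold nn cc
    rw [← sum2_prod w (fun x => if P x = 0 then N R v x else 0)
        (fun y => if P y = 0 then 1 - N R v y else 0),
      ← sum2_prod w (fun x => if P x = 1 then N R v x else 0)
        (fun y => if P y = 1 then 1 - N R v y else 0),
      ← sum2_prod w (fun x => if P x = 2 then N R v x else 0)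
        (fun y => if P y = 2 then 1 - N R v y else 0), ← sum2_add, ← sum2_add]
    refine Finset.sum_congr rfl fun x _ => Finset.sum_congr rfl fun y _ => ?_
    congr 1
    generalize P x = i
    generalize P y = j
    fin_cases i <;> fin_cases j <;> simp
  rw [e]
  have h1 : ∑ x, ∑ y, w x * w y * (if P x = P y then N R v x * (1 - N R v y) else 0)
      ≤ ∑ x, ∑ y, w x * w y * (N R v x * (1 - N R v y) * N R x y
        + (if P x = P y then N R v x * (1 - N R v y) * (1 - N R x y) else 0)) := by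
    refine sum2_mono hw fun x y => ?_
    have a1 := N_nonneg (R := R) v x
    have a2 := sub_nonneg.2 (N_le (R := R) v y)
    have a3 := N_nonneg (R := R) x y
    split_ifs
    · apply le_of_eq; ring
    · have := mul_nonneg (mul_nonneg a1 a2) a3
      linarith
  refine h1.trans ?_
  rw [sum2_add]
  have h2 : ∑ x, ∑ y, w x * w y *
      (if P x = P y then N R v x * (1 - N R v y) * (1 - N R x y) else 0) ≤ Z R w P / 2 := by
    set S := ∑ x, ∑ y, w x * w y *
      (if P x = P y then N R v x * (1 - N R v y) * (1 - N R x y) else 0) with hS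
    have h3 : S = ∑ x, ∑ y, w x * w y *
      (if P x = P y then N R v y * (1 - N R v x) * (1 - N R x y) else 0) := by
      rw [hS, sum2_comm]
      refine Finset.sum_congr rfl fun x _ => Finset.sum_congr rfl fun y _ => ?_
      rw [N_symm R y x]
      by_cases h : P x = P y
      · rw [if_pos h, if_pos h.symm]
      · rw [if_neg h, if_neg (fun h' => h h'.symm)]
    have h4 : S + S ≤ Z R w P := by
      nth_rewrite 2 [h3]
      rw [hS, ← sum2_add]
      unfold Z
      refine sum2_mono hw fun x y => ?_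
      unfold bad
      split_ifs
      · rcases N01 R v x with a | a <;> rcases N01 R v y with b | b <;>
          rcases N01 R x y with c | c <;> rw [a, b, c] <;> norm_num
      · have := N_nonneg (R := R) x y
        linarith
    linarith
  have h3 : ∑ x, ∑ y, w x * w y * (N R v x * (1 - N R v y) * N R x y) = kap R w v := rfl
  rw [h3]
  linarith

theorem zz_le0 (hw : ∀ v, 0 ≤ w v) (P : V → Fin 3) (v : V) :
    zz R w P 0 v ≤ cc R w P v 0 + nn R w P v 1 + nn R w P v 2 := by
  unfold zz cc nn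
  rw [← Finset.sum_add_distrib, ← Finset.sum_add_distrib]
  refine Finset.sum_le_sum fun y _ => ?_
  rw [← mul_add, ← mul_add]
  refine mul_le_mul_of_nonneg_left ?_ (hw y)
  have a1 := N_nonneg (R := R) v y
  have a2 := sub_nonneg.2 (N_le (R := R) v y)
  by_cases hv : y = v
  · rw [if_pos hv]
    generalize P y = i
    fin_cases i <;> simp <;> linarith
  · rw [if_neg hv]
    generalize P y = i
    fin_cases i <;> simp

theorem zz_le1 (hw : ∀ v, 0 ≤ w v) (P : V → Fin 3) (v : V) :
    zz R w P 1 v ≤ nn R w P v 0 + cc R w P v 1 + nn R w P v 2 := by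
  unfold zz cc nn
  rw [← Finset.sum_add_distrib, ← Finset.sum_add_distrib]
  refine Finset.sum_le_sum fun y _ => ?_
  rw [← mul_add, ← mul_add]
  refine mul_le_mul_of_nonneg_left ?_ (hw y)
  have a1 := N_nonneg (R := R) v y
  have a2 := sub_nonneg.2 (N_le (R := R) v y)
  by_cases hv : y = v
  · rw [if_pos hv]
    generalize P y = i
    fin_cases i <;> simp <;> linarith
  · rw [if_neg hv]
    generalize P y = i
    fin_cases i <;> simp

theorem zz_le2 (hw : ∀ v, 0 ≤ w v) (P : V → Fin 3) (v : V) :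
    zz R w P 2 v ≤ nn R w P v 0 + nn R w P v 1 + cc R w P v 2 := by
  unfold zz cc nn
  rw [← Finset.sum_add_distrib, ← Finset.sum_add_distrib]
  refine Finset.sum_le_sum fun y _ => ?_
  rw [← mul_add, ← mul_add]
  refine mul_le_mul_of_nonneg_left ?_ (hw y)
  have a1 := N_nonneg (R := R) v y
  have a2 := sub_nonneg.2 (N_le (R := R) v y)
  by_cases hv : y = v
  · rw [if_pos hv]
    generalize P y = i
    fin_cases i <;> simp <;> linarith
  · rw [if_neg hv]
    generalize P y = i
    fin_cases i <;> simp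

/-- the arithmetic of step 4 -/
theorem arith (n0 n1 n2 c0 c1 c2 : ℝ) (a0 : 0 ≤ n0) (a1 : 0 ≤ n1) (a2 : 0 ≤ n2)
    (b0 : 0 ≤ c0) (b1 : 0 ≤ c1) (b2 : 0 ≤ c2)
    (l0 : 0.228 ≤ n0 + c0) (l1 : 0.228 ≤ n1 + c1) (l2 : 0.228 ≤ n2 + c2)
    (u0 : n0 + c0 ≤ 0.43839) (u1 : n1 + c1 ≤ 0.43839) (u2 : n2 + c2 ≤ 0.43839)
    (hs : n0 + c0 + (n1 + c1) + (n2 + c2) = 1)
    (hk : n0 * c0 + n1 * c1 + n2 * c2 ≤ 0.011455)
    (hm1 : 0.187 ≤ n0 + n1 + n2) (hm2 : n0 + n1 + n2 ≤ 0.473) :
    c0 + n1 + n2 ≤ 0.075 ∨ n0 + c1 + n2 ≤ 0.075 ∨ n0 + n1 + c2 ≤ 0.075 := by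
  have key : ∀ n c : ℝ, 0 ≤ n → 0 ≤ c → 0.228 ≤ n + c → n * c ≤ 0.011455 →
      (n ≤ 0.075 ∧ 0.153 * n ≤ n * c) ∨ (c ≤ 0.075 ∧ 0.153 * c ≤ n * c) := by
    intro n c hn hc hl hp
    by_cases h1 : n ≤ 0.075
    · left; refine ⟨h1, ?_⟩
      nlinarith
    · by_cases h2 : c ≤ 0.075
      · right; refine ⟨h2, ?_⟩
        nlinarith
      · exfalso
        push Not at h1 h2
        nlinarith [mul_pos (sub_pos.2 h1) (sub_pos.2 h2)]
  have p0 := mul_nonneg a0 b0
  have p1 := mul_nonneg a1 b1
  have p2 := mul_nonneg a2 b2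
  have k0 := key n0 c0 a0 b0 l0 (by linarith)
  have k1 := key n1 c1 a1 b1 l1 (by linarith)
  have k2 := key n2 c2 a2 b2 l2 (by linarith)
  norm_num at *
  rcases k0 with ⟨x0, y0⟩ | ⟨x0, y0⟩ <;> rcases k1 with ⟨x1, y1⟩ | ⟨x1, y1⟩ <;>
    rcases k2 with ⟨x2, y2⟩ | ⟨x2, y2⟩
  · exfalso; linarith
  · right; right; linarith
  · right; left; linarith
  · exfalso; linarith
  · left; linarith
  · exfalso; linarith
  · exfalso; linarith
  · exfalso; linarith

/-! ### relabelling -/

theorem al_perm (R : V → V → Prop) (w : V → ℝ) (P : V → Fin 3) (σ : Equiv.Perm (Fin 3)) (v : V) :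
    al R w (fun x => σ (P x)) v = al R w P v := by
  unfold al
  refine Finset.sum_congr rfl fun y _ => ?_
  simp only [EmbeddingLike.apply_eq_iff_eq]

theorem be_perm (R : V → V → Prop) (w : V → ℝ) (P : V → Fin 3) (σ : Equiv.Perm (Fin 3)) (v : V) :
    be R w (fun x => σ (P x)) v = be R w P v := by
  unfold be
  refine Finset.sum_congr rfl fun y _ => ?_
  simp only [EmbeddingLike.apply_eq_iff_eq]

theorem W_perm (w : V → ℝ) (P : V → Fin 3) (σ : Equiv.Perm (Fin 3)) (i : Fin 3) :
    W w (fun x => σ (P x)) i = W w P (σ.symm i) := by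
  unfold W
  refine Finset.sum_congr rfl fun y _ => ?_
  have : (σ (P y) = i) ↔ (P y = σ.symm i) := by
    rw [Equiv.eq_symm_apply]
  simp only [this]

end TC

open TC in
theorem partition_exists {V : Type} [Fintype V] (R : V → V → Prop) (w : V → ℝ)
    (hO : Oriented R) (hpos : ∀ v, 0 < w v) (h1 : ∑ v, w v = 1)
    (hM1 : 1 / 3 < M R w) (hM2 : M R w ≤ 1 / 3 + 0.0131)
    (hC2 : 6 * (Em2 R w - p0 R w) + k4 R w ≤ 0.00225)
    (hk : ∀ v, kap R w v ≤ 0.00973)
    (hm1 : ∀ v, 0.187 ≤ m R w v) (hm2 : ∀ v, m R w v ≤ 0.473) :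
    ∃ P : V → Fin 3, (∀ v, al R w P v + be R w P v ≤ 0.075) ∧
      (∑ v, w v * (al R w P v + be R w P v) ≤ 0.00345) ∧
      (∀ i, 0.228 ≤ W w P i) ∧ (∀ i, W w P 0 ≤ W w P i) := by
  have hw : ∀ v, 0 ≤ w v := fun v => (hpos v).le
  obtain ⟨P0, hP0⟩ := step1 hw h1 hM2 hC2
  obtain ⟨P, hmin⟩ := Finite.exists_min (fun Q : V → Fin 3 => Z R w Q)
  have hZ : Z R w P ≤ 0.00345 := (hmin P0).trans hP0
  have hZ' : ∑ v, w v * (al R w P v + be R w P v) ≤ 0.00345 := by
    rw [← Z_al_be]; exact hZ
  -- part sizes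
  have hal : 0 ≤ ∑ v, w v * al R w P v :=
    Finset.sum_nonneg fun v _ => mul_nonneg (hw v) (al_nonneg hw P v)
  have hbe : 0 ≤ ∑ v, w v * be R w P v :=
    Finset.sum_nonneg fun v _ => mul_nonneg (hw v) (be_nonneg hw P v)
  have hab : ∑ v, w v * (al R w P v + be R w P v)
      = (∑ v, w v * al R w P v) + ∑ v, w v * be R w P v := by
    rw [← Finset.sum_add_distrib]
    exact Finset.sum_congr rfl fun v _ => by ring
  have hsq := W_sq_eq R w P
  have hsum := W_sum w P
  rw [h1] at hsum
  have hsq' : W w P 0 ^ 2 + W w P 1 ^ 2 + W w P 2 ^ 2 ≤ 1 / 3 + 0.0131 + 0.00345 := by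
    rw [hsq]
    rw [hab] at hZ'
    linarith
  have hsize : ∀ x y z : ℝ, x + y + z = 1 → x ^ 2 + y ^ 2 + z ^ 2 ≤ 1 / 3 + 0.0131 + 0.00345 →
      0.22828 ≤ x ∧ x ≤ 0.43839 := by
    intro x y z hs hq
    have h2 : (x - 1 / 3) ^ 2 ≤ 0.10505 ^ 2 := by
      have : y = 1 - x - z := by linarith
      subst this
      norm_num at *
      nlinarith [sq_nonneg (1 - x - 2 * z)]
    have h3 := abs_le_of_sq_le_sq' h2 (by norm_num)
    constructor
    · have := h3.1; norm_num at *; linarith
    · have := h3.2; norm_num at *; linarith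
  have s0 := hsize (W w P 0) (W w P 1) (W w P 2) hsum hsq'
  have s1 := hsize (W w P 1) (W w P 0) (W w P 2) (by linarith) (by linarith)
  have s2 := hsize (W w P 2) (W w P 0) (W w P 1) (by linarith) (by linarith)
  -- pointwise bound
  have hpt : ∀ v, al R w P v + be R w P v ≤ 0.075 := by
    intro v
    rw [← zz_self hO]
    have hz := min_zz hO hpos P hmin v
    have hn := nc_le (R := R) hw P v
    have c0 := nn_cc (R := R) (w := w) P v 0
    have c1 := nn_cc (R := R) (w := w) P v 1
    have c2 := nn_cc (R := R) (w := w) P v 2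
    have hns := nn_sum (R := R) (w := w) P v
    have hkv := hk v
    have hm1v := hm1 v
    have hm2v := hm2 v
    rw [← c0] at s0
    rw [← c1] at s1
    rw [← c2] at s2
    rw [← c0, ← c1, ← c2] at hsum
    rw [← hns] at hm1v hm2v
    rcases arith (nn R w P v 0) (nn R w P v 1) (nn R w P v 2) (cc R w P v 0) (cc R w P v 1)
      (cc R w P v 2) (nn_nonneg hw P v 0) (nn_nonneg hw P v 1) (nn_nonneg hw P v 2)
      (cc_nonneg hw P v 0) (cc_nonneg hw P v 1) (cc_nonneg hw P v 2)
      (by norm_num at *; linarith) (by norm_num at *; linarith) (by norm_num at *; linarith)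
      s0.2 s1.2 s2.2 hsum (by norm_num at *; linarith) hm1v hm2v with h | h | h
    · exact (hz 0).trans ((zz_le0 hw P v).trans h)
    · exact (hz 1).trans ((zz_le1 hw P v).trans h)
    · exact (hz 2).trans ((zz_le2 hw P v).trans h)
  -- relabel
  have hW : ∀ i, 0.228 ≤ W w P i := by
    intro i
    have hi : ∀ i : Fin 3, i = 0 ∨ i = 1 ∨ i = 2 := by decide
    rcases hi i with rfl | rfl | rfl
    · have := s0.1; norm_num at *; linarith
    · have := s1.1; norm_num at *; linarith
    · have := s2.1; norm_num at *; linarith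
  obtain ⟨i0, hi0⟩ := Finite.exists_min (fun i : Fin 3 => W w P i)
  refine ⟨fun x => Equiv.swap 0 i0 (P x), ?_, ?_, ?_, ?_⟩
  · intro v; rw [al_perm, be_perm]; exact hpt v
  · simp only [al_perm, be_perm]; exact hZ'
  · intro i; rw [W_perm]; exact hW _
  · intro i
    rw [W_perm, W_perm]
    rw [Equiv.symm_swap, Equiv.swap_apply_left]
    exact hi0 _

end Pool.Agent.H122R2.FdF
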