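import Pool.Agent.H122R2.FdF.Defs2

set_option autoImplicit false
open Finset
open scoped Classical

namespace Pool.Agent.H122R2.FdF

theorem m_eq {V : Type} [Fintype V] (R : V → V → Prop) (w : V → ℝ) (P : V → Fin 3) (v : V) :
    m R w v = W w P (P v) - al R w P v + be R w P v := by
  unfold m W al be
  rw [← Finset.sum_sub_distrib, ← Finset.sum_add_distrib]
  refine Finset.sum_congr rfl fun y _ => ?_
  by_cases h : P y = P v
  · simp only [h, if_true]; ring
  · simp only [h, if_false]; ring

theorem sum_W {V : Type} [Fintype V] (w : V → ℝ) (P : V → Fin 3) (g : Fin 3 → ℝ) :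
    ∑ v, w v * g (P v) = ∑ i, W w P i * g i := by
  unfold W
  simp_rw [Finset.sum_mul]
  rw [Finset.sum_comm]
  refine Finset.sum_congr rfl fun v _ => ?_
  rw [Finset.sum_eq_single (P v)]
  · simp
  · intro i _ hi
    rw [if_neg (fun h => hi h.symm)]; simp
  · intro h; exact absurd (Finset.mem_univ _) h

/-- same part -/
noncomputable def SSd {V : Type} (P : V → Fin 3) (x y : V) : ℝ := if P x = P y then 1 else 0

theorem pointwiseD {V : Type} (R : V → V → Prop) (P : V → Fin 3) (a b c : V) :
    N R a b * N R a c * N R b c ≤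
      SSd P a b * SSd P a c
      - (SSd P a b * (1 - N R a b)) * SSd P a c
      - SSd P a b * (SSd P a c * (1 - N R a c))
      - SSd P b a * (SSd P b c * (1 - N R b c))
      + (SSd P a b * (1 - N R a b)) * (SSd P a c * (1 - N R a c))
      + (SSd P b a * (1 - N R b a)) * (SSd P b c * (1 - N R b c))
      + (SSd P c a * (1 - N R c a)) * (SSd P c b * (1 - N R c b))
      + ((1 - SSd P a b) * N R a b) * ((1 - SSd P a c) * N R a c)
      + ((1 - SSd P b a) * N R b a) * ((1 - SSd P b c) * N R b c)
      + ((1 - SSd P c a) * N R c a) * ((1 - SSd P c b) * N R c b) := by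
  have hab : N R b a = N R a b := by unfold N; simp only [or_comm]
  have hac : N R c a = N R a c := by unfold N; simp only [or_comm]
  have hbc : N R c b = N R b c := by unfold N; simp only [or_comm]
  have sab : SSd P b a = SSd P a b := by unfold SSd; simp only [eq_comm]
  have sac : SSd P c a = SSd P a c := by unfold SSd; simp only [eq_comm]
  have sbc : SSd P c b = SSd P b c := by unfold SSd; simp only [eq_comm]
  rw [hab, hac, hbc, sab, sac, sbc]
  have n1 : N R a b = 0 ∨ N R a b = 1 := by unfold N; split_ifs <;> simp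
  have n2 : N R a c = 0 ∨ N R a c = 1 := by unfold N; split_ifs <;> simp
  have n3 : N R b c = 0 ∨ N R b c = 1 := by unfold N; split_ifs <;> simp
  have hS : (SSd P a b = 1 ∧ SSd P a c = 1 ∧ SSd P b c = 1)
      ∨ (SSd P a b = 1 ∧ SSd P a c = 0 ∧ SSd P b c = 0)
      ∨ (SSd P a b = 0 ∧ SSd P a c = 1 ∧ SSd P b c = 0)
      ∨ (SSd P a b = 0 ∧ SSd P a c = 0 ∧ SSd P b c = 1)
      ∨ (SSd P a b = 0 ∧ SSd P a c = 0 ∧ SSd P b c = 0) := by
    unfold SSd
    by_cases h1 : P a = P b
    · by_cases h2 : P a = P c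
      · left
        have h3 : P b = P c := h1.symm.trans h2
        rw [if_pos h1, if_pos h2, if_pos h3]; simp
      · right; left
        have h3 : P b ≠ P c := fun h => h2 (h1.trans h)
        rw [if_pos h1, if_neg h2, if_neg h3]; simp
    · by_cases h2 : P a = P c
      · right; right; left
        have h3 : P b ≠ P c := fun h => h1 (h2.trans h.symm)
        rw [if_neg h1, if_pos h2, if_neg h3]; simp
      · by_cases h3 : P b = P c
        · right; right; right; left
          rw [if_neg h1, if_neg h2, if_pos h3]; simp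
        · right; right; right; right
          rw [if_neg h1, if_neg h2, if_neg h3]; simp
  rcases hS with ⟨h1, h2, h3⟩ | ⟨h1, h2, h3⟩ | ⟨h1, h2, h3⟩ | ⟨h1, h2, h3⟩ | ⟨h1, h2, h3⟩ <;>
    rw [h1, h2, h3] <;> rcases n1 with h4 | h4 <;> rcases n2 with h5 | h5 <;>
    rcases n3 with h6 | h6 <;> rw [h4, h5, h6] <;> norm_num

theorem sumD_prod {V : Type} [Fintype V] (w : V → ℝ) (f g : V → V → ℝ) :
    ∑ a, ∑ b, ∑ c, w a * w b * w c * (f a b * g a c)
      = ∑ a, w a * ((∑ b, w b * f a b) * (∑ c, w c * g a c)) := by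
  refine Finset.sum_congr rfl fun a _ => ?_
  rw [Finset.sum_mul_sum, Finset.mul_sum]
  refine Finset.sum_congr rfl fun b _ => ?_
  rw [Finset.mul_sum]
  refine Finset.sum_congr rfl fun c _ => ?_
  ring

theorem sumD_prod' {V : Type} [Fintype V] (w : V → ℝ) (f g : V → V → ℝ) :
    ∑ a, ∑ b, ∑ c, w a * w b * w c * (f b a * g b c)
      = ∑ a, w a * ((∑ b, w b * f a b) * (∑ c, w c * g a c)) := by
  rw [← sumD_prod, Finset.sum_comm]
  refine Finset.sum_congr rfl fun a _ => ?_
  refine Finset.sum_congr rfl fun b _ => ?_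
  refine Finset.sum_congr rfl fun c _ => ?_
  ring

theorem sumD_prod'' {V : Type} [Fintype V] (w : V → ℝ) (f g : V → V → ℝ) :
    ∑ a, ∑ b, ∑ c, w a * w b * w c * (f c a * g c b)
      = ∑ a, w a * ((∑ b, w b * f a b) * (∑ c, w c * g a c)) := by
  rw [← sumD_prod]
  have h1 : ∀ a, ∑ b, ∑ c, w a * w b * w c * (f c a * g c b)
      = ∑ b, ∑ c, w a * w c * w b * (f b a * g b c) := fun a => by
    rw [Finset.sum_comm]
  rw [Finset.sum_congr rfl fun a _ => h1 a, Finset.sum_comm]
  refine Finset.sum_congr rfl fun a _ => ?_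
  refine Finset.sum_congr rfl fun b _ => ?_
  refine Finset.sum_congr rfl fun c _ => ?_
  ring

theorem p0_le {V : Type} [Fintype V] (R : V → V → Prop) (w : V → ℝ)
    (hO : Oriented R) (hw : ∀ v, 0 ≤ w v) (P : V → Fin 3) :
    p0 R w ≤ ∑ i, W w P i ^ 3 + ∑ v, w v * (-3 * W w P (P v) * al R w P v
      + 3 * al R w P v ^ 2 + 3 * be R w P v ^ 2) := by
  have hal : ∀ a, ∑ b, w b * (SSd P a b * (1 - N R a b)) = al R w P a := fun a => by
    unfold al SSd
    refine Finset.sum_congr rfl fun y _ => ?_
    by_cases h : P y = P a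
    · rw [if_pos h, if_pos h.symm]; ring
    · rw [if_neg h, if_neg (fun h' => h h'.symm)]; ring
  have hbe : ∀ a, ∑ b, w b * ((1 - SSd P a b) * N R a b) = be R w P a := fun a => by
    unfold be SSd
    refine Finset.sum_congr rfl fun y _ => ?_
    by_cases h : P y = P a
    · rw [if_pos h, if_pos h.symm]; ring
    · rw [if_neg h, if_neg (fun h' => h h'.symm)]; ring
  have hW : ∀ a, ∑ b, w b * SSd P a b = W w P (P a) := fun a => by
    unfold W SSd
    refine Finset.sum_congr rfl fun y _ => ?_
    by_cases h : P y = P a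
    · rw [if_pos h, if_pos h.symm]; ring
    · rw [if_neg h, if_neg (fun h' => h h'.symm)]; ring
  have key : p0 R w ≤ ∑ a, ∑ b, ∑ c, (w a * w b * w c * (SSd P a b * SSd P a c)
      - w a * w b * w c * ((SSd P a b * (1 - N R a b)) * SSd P a c)
      - w a * w b * w c * (SSd P a b * (SSd P a c * (1 - N R a c)))
      - w a * w b * w c * (SSd P b a * (SSd P b c * (1 - N R b c)))
      + w a * w b * w c * ((SSd P a b * (1 - N R a b)) * (SSd P a c * (1 - N R a c)))
      + w a * w b * w c * ((SSd P b a * (1 - N R b a)) * (SSd P b c * (1 - N R b c)))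
      + w a * w b * w c * ((SSd P c a * (1 - N R c a)) * (SSd P c b * (1 - N R c b)))
      + w a * w b * w c * (((1 - SSd P a b) * N R a b) * ((1 - SSd P a c) * N R a c))
      + w a * w b * w c * (((1 - SSd P b a) * N R b a) * ((1 - SSd P b c) * N R b c))
      + w a * w b * w c * (((1 - SSd P c a) * N R c a) * ((1 - SSd P c b) * N R c b))) := by
    unfold p0
    refine Finset.sum_le_sum fun a _ => Finset.sum_le_sum fun b _ =>
      Finset.sum_le_sum fun c _ => ?_
    have h0 : 0 ≤ w a * w b * w c := mul_nonneg (mul_nonneg (hw a) (hw b)) (hw c)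
    have h1 := mul_le_mul_of_nonneg_left (pointwiseD R P a b c) h0
    refine h1.trans (le_of_eq ?_)
    ring
  refine key.trans (le_of_eq ?_)
  simp only [Finset.sum_add_distrib, Finset.sum_sub_distrib]
  rw [sumD_prod w (fun a b => SSd P a b) (fun a c => SSd P a c),
    sumD_prod w (fun a b => SSd P a b * (1 - N R a b)) (fun a c => SSd P a c),
    sumD_prod w (fun a b => SSd P a b) (fun a c => SSd P a c * (1 - N R a c)),
    sumD_prod' w (fun a b => SSd P a b) (fun a c => SSd P a c * (1 - N R a c)),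
    sumD_prod w (fun a b => SSd P a b * (1 - N R a b)) (fun a c => SSd P a c * (1 - N R a c)),
    sumD_prod' w (fun a b => SSd P a b * (1 - N R a b)) (fun a c => SSd P a c * (1 - N R a c)),
    sumD_prod'' w (fun a b => SSd P a b * (1 - N R a b)) (fun a c => SSd P a c * (1 - N R a c)),
    sumD_prod w (fun a b => (1 - SSd P a b) * N R a b) (fun a c => (1 - SSd P a c) * N R a c),
    sumD_prod' w (fun a b => (1 - SSd P a b) * N R a b) (fun a c => (1 - SSd P a c) * N R a c),
    sumD_prod'' w (fun a b => (1 - SSd P a b) * N R a b) (fun a c => (1 - SSd P a c) * N R a c)]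
  simp only [hal, hbe, hW]
  have h3 : ∑ a, w a * (W w P (P a) * W w P (P a)) = ∑ i, W w P i ^ 3 := by
    rw [sum_W w P (fun i => W w P i * W w P i)]
    refine Finset.sum_congr rfl fun i _ => ?_
    ring
  rw [h3]
  simp only [add_assoc, sub_eq_add_neg]
  congr 1
  simp only [← Finset.sum_neg_distrib, ← Finset.sum_add_distrib]
  refine Finset.sum_congr rfl fun a _ => ?_
  ring

end Pool.Agent.H122R2.FdF
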