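import Pool.Agent.H122R2.FdF.Defs2

/-! Task E (helper394): the corner lemma. -/

set_option autoImplicit false
set_option linter.unusedSectionVars false
set_option linter.unusedVariables false
open Finset
open scoped Classical

namespace Pool.Agent.H122R2.FdF

/-! ### The potential -/

theorem FF_comm (x y : ℝ) : FF x y = FF y x := by
  unfold FF
  rw [min_comm, max_comm]
  by_cases hx : x ≤ 0 <;> by_cases hy : y ≤ 0 <;> simp [hx, hy]

theorem FF_of_le {x y : ℝ} (hx : 0 ≤ x) (hxy : x ≤ y) : FF x y = x ^ 2 * y - x ^ 3 / 3 := by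
  unfold FF
  rw [min_eq_left hxy, max_eq_right hxy]
  rcases hx.eq_or_lt with h | h
  · subst h; simp
  · rw [if_neg]
    push Not
    exact ⟨h, lt_of_lt_of_le h hxy⟩

theorem FF_zero {x y : ℝ} (h : x ≤ 0 ∨ y ≤ 0) : FF x y = 0 := by
  unfold FF; rw [if_pos h]

theorem FF_step {y z h : ℝ} (hy : 0 ≤ y) (hh : 0 ≤ h) (hz : h ≤ z) :
    FF y z ≤ FF y (z - h) + y ^ 2 * h := by
  have hz0 : 0 ≤ z := le_trans hh hz
  have hz' : 0 ≤ z - h := by linarith
  rcases le_total y (z - h) with h1 | h1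
  · rw [FF_of_le hy h1, FF_of_le hy (by linarith)]
    nlinarith
  · rw [FF_comm y (z - h), FF_of_le hz' h1]
    rcases le_total y z with h2 | h2
    · rw [FF_of_le hy h2]
      have h3 : 0 ≤ (y - (z - h)) ^ 3 := by
        have : 0 ≤ y - (z - h) := by linarith
        positivity
      nlinarith [h3]
    · rw [FF_comm y z, FF_of_le hz0 h2]
      have key : 0 ≤ h * (y ^ 2 - (z + (z - h)) * y + (z ^ 2 + z * (z - h) + (z - h) ^ 2) / 3) := by
        apply mul_nonneg hh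
        nlinarith [sq_nonneg (2 * y - (z + (z - h))), sq_nonneg h]
      nlinarith [key]

theorem FF_le {y z : ℝ} (hy : 0 ≤ y) (hz : 0 ≤ z) : FF y z ≤ y ^ 2 * z := by
  have := FF_step (y := y) (z := z) (h := z) hy hz le_rfl
  rw [sub_self, FF_zero (Or.inr le_rfl)] at this
  linarith

/-! ### Elementary facts on indicators -/

theorem fin3_cases : ∀ i j k : Fin 3, i ≠ 0 → j ≠ 0 → i ≠ j → (k = 0 ∨ k = i ∨ k = j) := by
  decide

variable {V : Type} [Fintype V] (R : V → V → Prop) (w : V → ℝ)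

theorem N_comm' (x y : V) : N R x y = N R y x := by
  unfold N; simp only [or_comm]

theorem one_sub_N (x y : V) : 1 - N R x y = if R x y ∨ R y x then 1 else 0 := by
  unfold N; split_ifs <;> norm_num

theorem five {R : V → V → Prop} {w : V → ℝ} (hC : C4Free R) (hpos : ∀ v, 0 < w v)
    (V1 V2 : Finset V) (hadj : ∀ b ∈ V1, ∀ x ∈ V2, R b x ∨ R x b) (bs : V) (hbs : bs ∈ V1)
    (hmin : ∀ b ∈ V1, ∑ y ∈ V2 with R bs y, w y ≤ ∑ y ∈ V2 with R b y, w y)
    (τ : ℝ) (hτ : 0 ≤ τ) (hal : ∀ x ∈ V2, ∑ y ∈ V2 with (R x y ∨ R y x), w y ≤ τ)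
    (b : V) (hb : b ∈ V1) (hna : ¬ (R bs b ∨ R b bs)) (hO : Oriented R) :
    ∑ x ∈ V2 with (R bs x ∧ R x b), w x ≤ τ := by
  rcases (V2.filter (fun x => R bs x ∧ R x b)).eq_empty_or_nonempty with h | ⟨x, hx⟩
  · rw [h]; simpa using hτ
  · rw [mem_filter] at hx
    obtain ⟨hxV, hbx, hxb⟩ := hx
    refine le_trans ?_ (hal x hxV)
    -- split the two sums of `hmin`
    have e1 : ∑ y ∈ V2 with R bs y, w y =
        ∑ y ∈ V2 with (R bs y ∧ R b y), w y + ∑ y ∈ V2 with (R bs y ∧ ¬ R b y), w y := by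
      rw [← sum_filter_add_sum_filter_not (V2.filter (fun y => R bs y)) (fun y => R b y)]
      rw [filter_filter, filter_filter]
    have e2 : ∑ y ∈ V2 with R b y, w y =
        ∑ y ∈ V2 with (R bs y ∧ R b y), w y + ∑ y ∈ V2 with (¬ R bs y ∧ R b y), w y := by
      rw [← sum_filter_add_sum_filter_not (V2.filter (fun y => R b y)) (fun y => R bs y)]
      rw [filter_filter, filter_filter]
      congr 1
      · apply sum_congr _ (fun _ _ => rfl)
        ext y; simp only [mem_filter]; tauto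
      · apply sum_congr _ (fun _ _ => rfl)
        ext y; simp only [mem_filter]; tauto
    have h1 := hmin b hb
    have h2 : ∑ y ∈ V2 with (R bs y ∧ R y b), w y ≤ ∑ y ∈ V2 with (R bs y ∧ ¬ R b y), w y := by
      apply sum_le_sum_of_subset_of_nonneg
      · intro y hy
        rw [mem_filter] at hy ⊢
        exact ⟨hy.1, hy.2.1, hO _ _ hy.2.2⟩
      · intros; exact (hpos _).le
    have h3 : ∑ y ∈ V2 with (¬ R bs y ∧ R b y), w y ≤ ∑ y ∈ V2 with (R x y ∨ R y x), w y := by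
      apply sum_le_sum_of_subset_of_nonneg
      · intro y hy
        rw [mem_filter] at hy ⊢
        refine ⟨hy.1, ?_⟩
        have hyb : R y bs := by
          rcases hadj bs hbs y hy.1 with h | h
          · exact absurd h hy.2.1
          · exact h
        have := hC bs x b y hbx hxb hy.2.2 hyb
        tauto
      · intros; exact (hpos _).le
    linarith

theorem six {R : V → V → Prop} {w : V → ℝ} (hpos : ∀ v, 0 < w v)
    (B X : Finset V) (hadj : ∀ b ∈ B, ∀ x ∈ X, R b x ∨ R x b) (τ₁ τ₂ : ℝ)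
    (hτ₁ : 0 ≤ τ₁) (hτ₂ : 0 ≤ τ₂)
    (h1 : ∀ b ∈ B, ∑ x ∈ X with R x b, w x ≤ τ₂) (h2 : ∀ x ∈ X, ∑ b ∈ B with R b x, w b ≤ τ₁)
    (hB : 2 * τ₁ < ∑ b ∈ B, w b) (hX : 2 * τ₂ < ∑ x ∈ X, w x) : False := by
  have e : (∑ b ∈ B, w b) * (∑ x ∈ X, w x) ≤
      ∑ b ∈ B, w b * (∑ x ∈ X with R x b, w x) + ∑ x ∈ X, w x * (∑ b ∈ B with R b x, w b) := by
    have e2 : ∑ x ∈ X, w x * (∑ b ∈ B with R b x, w b) =
        ∑ b ∈ B, ∑ x ∈ X, (if R b x then w b * w x else 0) := by
      rw [sum_comm]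
      apply sum_congr rfl
      intro x _
      rw [sum_filter, mul_sum]
      apply sum_congr rfl
      intro b _
      split_ifs <;> ring
    have e3 : ∑ b ∈ B, w b * (∑ x ∈ X with R x b, w x) =
        ∑ b ∈ B, ∑ x ∈ X, (if R x b then w b * w x else 0) := by
      apply sum_congr rfl
      intro x _
      rw [sum_filter, mul_sum]
      apply sum_congr rfl
      intro b _
      split_ifs <;> ring
    rw [e2, e3, sum_mul_sum, ← sum_add_distrib]
    apply sum_le_sum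
    intro b hb
    rw [← sum_add_distrib]
    apply sum_le_sum
    intro x hx
    have hp : 0 < w b * w x := mul_pos (hpos _) (hpos _)
    rcases hadj b hb x hx with h | h
    · rw [if_pos h]
      split_ifs <;> linarith
    · rw [if_pos h]
      split_ifs <;> linarith
  have e1 : ∑ b ∈ B, w b * (∑ x ∈ X with R x b, w x) ≤ (∑ b ∈ B, w b) * τ₂ := by
    rw [sum_mul]
    exact sum_le_sum (fun b hb => mul_le_mul_of_nonneg_left (h1 b hb) (hpos b).le)
  have e2 : ∑ x ∈ X, w x * (∑ b ∈ B with R b x, w b) ≤ (∑ x ∈ X, w x) * τ₁ := by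
    rw [sum_mul]
    exact sum_le_sum (fun b hb => mul_le_mul_of_nonneg_left (h2 b hb) (hpos b).le)
  set b := ∑ b ∈ B, w b
  set x := ∑ x ∈ X, w x
  nlinarith

/-- own-part adjacency, restricted to a subset of the part -/
theorem own_le {R : V → V → Prop} {w : V → ℝ} (hpos : ∀ v, 0 < w v) (P : V → Fin 3) (i : Fin 3)
    (U : Finset V) (hU : ∀ v ∈ U, P v = i) (x : V) (hx : P x = i) :
    ∑ y ∈ U with (R x y ∨ R y x), w y ≤ al R w P x := by
  unfold al
  rw [hx, sum_filter]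
  rw [← sum_filter_add_sum_filter_not univ (fun y => y ∈ U)]
  have h2 : 0 ≤ ∑ y with ¬ y ∈ U, w y * (if P y = i then 1 - N R x y else 0) := by
    apply sum_nonneg
    intro y _
    apply mul_nonneg (hpos y).le
    rw [one_sub_N]
    split_ifs <;> norm_num
  have h1 : ∑ y ∈ U, (if R x y ∨ R y x then w y else 0) =
      ∑ y with y ∈ U, w y * (if P y = i then 1 - N R x y else 0) := by
    rw [filter_mem_eq_inter, univ_inter]
    apply sum_congr rfl
    intro y hy
    rw [if_pos (hU y hy), one_sub_N]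
    split_ifs <;> ring
  rw [h1]; linarith

theorem out_bound {R : V → V → Prop} {w : V → ℝ} (hpos : ∀ v, 0 < w v) (P : V → Fin 3)
    (i j : Fin 3) (hi : i ≠ 0) (hj : j ≠ 0) (hij : i ≠ j) (T : Finset V)
    (b : V) (hb : P b = i) :
    f R w b ≤ W w P 0 + al R w P b + ∑ v ∈ T, w v +
      ∑ y ∈ univ.filter (fun v => P v = j ∧ v ∉ T) with R b y, w y := by
  unfold f W al
  have e1 : ∑ v ∈ T, w v = ∑ v, if v ∈ T then w v else 0 := by
    rw [← sum_filter, filter_mem_eq_inter, univ_inter]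
  rw [e1, filter_filter, sum_filter, ← sum_add_distrib, ← sum_add_distrib, ← sum_add_distrib]
  apply sum_le_sum
  intro y _
  have hw := hpos y
  rw [hb, one_sub_N]
  unfold A
  have h3 : P y = 0 ∨ P y = i ∨ P y = j := by
    exact fin3_cases i j (P y) hi hj hij
  by_cases hR : R b y
  · rw [if_pos hR, if_pos (Or.inl hR)]
    rcases h3 with h | h | h
    · rw [if_pos h]
      split_ifs <;> linarith
    · rw [if_pos h]
      split_ifs <;> linarith
    · by_cases hT : y ∈ T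
      · rw [if_pos hT]; split_ifs <;> linarith
      · rw [if_pos (⟨⟨h, hT⟩, hR⟩ : (P y = j ∧ y ∉ T) ∧ R b y)]; split_ifs <;> linarith
  · rw [if_neg hR]
    split_ifs <;> linarith

theorem common_bound {R : V → V → Prop} {w : V → ℝ} (hpos : ∀ v, 0 < w v) (P : V → Fin 3)
    (i j : Fin 3) (hi : i ≠ 0) (hj : j ≠ 0) (hij : i ≠ j)
    (b x : V) (hb : P b = i) (hx : P x = j) :
    ∑ y, w y * ((1 - N R b y) * (1 - N R x y)) ≤ W w P 0 + al R w P b + al R w P x := by
  unfold W al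
  rw [← sum_add_distrib, ← sum_add_distrib]
  apply sum_le_sum
  intro y _
  have hw := hpos y
  rw [hb, hx, one_sub_N, one_sub_N]
  have h3 : P y = 0 ∨ P y = i ∨ P y = j := by
    exact fin3_cases i j (P y) hi hj hij
  rcases h3 with h | h | h
  · rw [if_pos h]
    split_ifs <;> linarith
  · rw [if_pos h]
    split_ifs <;> linarith
  · have : ¬ (P y = i) := by rw [h]; exact fun h => hij h.symm
    rw [if_pos h, if_neg this]
    split_ifs <;> linarith

theorem X0_bound {R : V → V → Prop} {w : V → ℝ} (V2 : Finset V) (bs xs : V) (hpos : ∀ v, 0 < w v) :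
    ∑ y ∈ V2 with R bs y, w y ≤ ∑ y ∈ V2 with (R bs y ∧ ¬ (R xs y ∨ R y xs)), w y +
      ∑ y ∈ V2 with (R xs y ∨ R y xs), w y := by
  rw [sum_filter, sum_filter, sum_filter, ← sum_add_distrib]
  apply sum_le_sum
  intro y _
  have hw := hpos y
  by_cases h1 : R bs y <;> by_cases h2 : (R xs y ∨ R y xs)
  · rw [if_pos h1, if_pos h2]; split_ifs <;> linarith
  · rw [if_pos h1, if_neg h2, if_pos ⟨h1, h2⟩]; linarith
  · rw [if_neg h1, if_pos h2]; split_ifs <;> linarith
  · rw [if_neg h1, if_neg h2]; split_ifs <;> linarith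

/-- The step lemma. -/
theorem step {R : V → V → Prop} {w : V → ℝ}
    (hO : Oriented R) (hC : C4Free R) (hpos : ∀ v, 0 < w v) (P : V → Fin 3)
    (hsoc : ∀ u v, N R u v = 1 →
      f R w u + f R w v ≤ 2 * ∑ y, w y * ((1 - N R u y) * (1 - N R v y)))
    (c δ τ₁ τ₂ : ℝ) (hτ₁ : 0 ≤ τ₁) (hτ₂ : 0 ≤ τ₂) (hδ : δ = c - W w P 0)
    (hW1 : δ ≤ W w P 1) (hW2 : δ ≤ W w P 2) (S T : Finset V)
    (hS : ∀ v ∈ S, P v = 1) (hT : ∀ v ∈ T, P v = 2)
    (hS' : ∀ v, P v = 1 → τ₁ < al R w P v → v ∈ S)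
    (hT' : ∀ v, P v = 2 → τ₂ < al R w P v → v ∈ T)
    (hy : 0 < δ - τ₁ - 3 * τ₂ - ∑ v ∈ T, w v)
    (hy' : 0 < δ - τ₂ - 3 * τ₁ - ∑ v ∈ S, w v) :
    (∃ b, P b = 1 ∧ b ∉ S ∧ δ - τ₁ - 3 * τ₂ - ∑ v ∈ T, w v ≤ c - f R w b) ∨
    (∃ x, P x = 2 ∧ x ∉ T ∧ δ - τ₂ - 3 * τ₁ - ∑ v ∈ S, w v ≤ c - f R w x) := by
  by_contra hcon
  push Not at hcon
  obtain ⟨hb1, hx1⟩ := hcon
  have hT0 : 0 ≤ ∑ v ∈ T, w v := sum_nonneg (fun v _ => (hpos v).le)
  have hS0 : 0 ≤ ∑ v ∈ S, w v := sum_nonneg (fun v _ => (hpos v).le)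
  set V1 : Finset V := univ.filter (fun v => P v = 1 ∧ v ∉ S) with hV1
  set V2 : Finset V := univ.filter (fun v => P v = 2 ∧ v ∉ T) with hV2
  have m1 : ∀ v, v ∈ V1 ↔ P v = 1 ∧ v ∉ S := by intro v; rw [hV1, mem_filter]; simp
  have m2 : ∀ v, v ∈ V2 ↔ P v = 2 ∧ v ∉ T := by intro v; rw [hV2, mem_filter]; simp
  -- nonempty
  have ne1 : V1.Nonempty := by
    by_contra hne
    rw [not_nonempty_iff_eq_empty] at hne
    have : W w P 1 ≤ ∑ v ∈ S, w v := by
      unfold W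
      rw [← sum_filter]
      apply sum_le_sum_of_subset_of_nonneg
      · intro v hv
        rw [mem_filter] at hv
        by_contra hvS
        have : v ∈ V1 := (m1 v).2 ⟨hv.2, hvS⟩
        rw [hne] at this
        exact absurd this (notMem_empty v)
      · intros; exact (hpos _).le
    linarith
  have ne2 : V2.Nonempty := by
    by_contra hne
    rw [not_nonempty_iff_eq_empty] at hne
    have : W w P 2 ≤ ∑ v ∈ T, w v := by
      unfold W
      rw [← sum_filter]
      apply sum_le_sum_of_subset_of_nonneg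
      · intro v hv
        rw [mem_filter] at hv
        by_contra hvS
        have : v ∈ V2 := (m2 v).2 ⟨hv.2, hvS⟩
        rw [hne] at this
        exact absurd this (notMem_empty v)
      · intros; exact (hpos _).le
    linarith
  have al1 : ∀ v ∈ V1, al R w P v ≤ τ₁ := by
    intro v hv
    by_contra h
    push Not at h
    exact ((m1 v).1 hv).2 (hS' v ((m1 v).1 hv).1 h)
  have al2 : ∀ v ∈ V2, al R w P v ≤ τ₂ := by
    intro v hv
    by_contra h
    push Not at h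
    exact ((m2 v).1 hv).2 (hT' v ((m2 v).1 hv).1 h)
  have own1 : ∀ x ∈ V1, ∑ y ∈ V1 with (R x y ∨ R y x), w y ≤ τ₁ := fun x hx =>
    (own_le hpos P 1 V1 (fun v hv => ((m1 v).1 hv).1) x ((m1 x).1 hx).1).trans (al1 x hx)
  have own2 : ∀ x ∈ V2, ∑ y ∈ V2 with (R x y ∨ R y x), w y ≤ τ₂ := fun x hx =>
    (own_le hpos P 2 V2 (fun v hv => ((m2 v).1 hv).1) x ((m2 x).1 hx).1).trans (al2 x hx)
  -- (2) adjacency
  have adj : ∀ b ∈ V1, ∀ x ∈ V2, R b x ∨ R x b := by
    intro b hb x hx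
    by_contra hna
    have hN : N R b x = 1 := by unfold N; rw [if_neg hna]
    have h1 := hsoc b x hN
    have h2 := common_bound (R := R) hpos P 1 2 (by decide) (by decide) (by decide) b x
      ((m1 b).1 hb).1 ((m2 x).1 hx).1
    have h3 := al1 b hb
    have h4 := al2 x hx
    have h5 := hb1 b ((m1 b).1 hb).1 ((m1 b).1 hb).2
    have h6 := hx1 x ((m2 x).1 hx).1 ((m2 x).1 hx).2
    linarith
  -- (3)
  have D1 : ∀ b ∈ V1, 3 * τ₂ < ∑ y ∈ V2 with R b y, w y := by
    intro b hb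
    have h2 := out_bound (R := R) hpos P 1 2 (by decide) (by decide) (by decide) T b ((m1 b).1 hb).1
    have h3 := al1 b hb
    have h5 := hb1 b ((m1 b).1 hb).1 ((m1 b).1 hb).2
    rw [← hV2] at h2
    linarith
  have D2 : ∀ x ∈ V2, 3 * τ₁ < ∑ y ∈ V1 with R x y, w y := by
    intro b hb
    have h2 := out_bound (R := R) hpos P 2 1 (by decide) (by decide) (by decide) S b ((m2 b).1 hb).1
    have h3 := al2 b hb
    have h5 := hx1 b ((m2 b).1 hb).1 ((m2 b).1 hb).2
    rw [← hV1] at h2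
    linarith
  -- (4)
  obtain ⟨bs, hbs, hbmin⟩ := exists_min_image V1 (fun b => ∑ y ∈ V2 with R b y, w y) ne1
  obtain ⟨xs, hxs, hxmin⟩ := exists_min_image V2 (fun x => ∑ y ∈ V1 with R x y, w y) ne2
  have hX0 : 2 * τ₂ < ∑ y ∈ V2 with (R bs y ∧ ¬ (R xs y ∨ R y xs)), w y := by
    have h1 := X0_bound (R := R) V2 bs xs hpos
    have h2 := own2 xs hxs
    have h3 := D1 bs hbs
    linarith
  have hB0 : 2 * τ₁ < ∑ y ∈ V1 with (R xs y ∧ ¬ (R bs y ∨ R y bs)), w y := by
    have h1 := X0_bound (R := R) V1 xs bs hpos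
    have h2 := own1 bs hbs
    have h3 := D2 xs hxs
    linarith
  refine six (R := R) hpos _ _ ?_ τ₁ τ₂ hτ₁ hτ₂ ?_ ?_ hB0 hX0
  · intro b hb x hx
    exact adj b (mem_filter.1 hb).1 x (mem_filter.1 hx).1
  · intro b hb
    rw [mem_filter] at hb
    have h5 := five hC hpos V1 V2 adj bs hbs hbmin τ₂ hτ₂ own2 b hb.1 hb.2.2 hO
    refine le_trans ?_ h5
    apply sum_le_sum_of_subset_of_nonneg
    · intro y hy
      simp only [mem_filter] at hy ⊢
      exact ⟨hy.1.1, hy.1.2.1, hy.2⟩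
    · intros; exact (hpos _).le
  · intro x hx
    rw [mem_filter] at hx
    have h5 := five hC hpos V2 V1 (fun b hb x hx => (adj x hx b hb).symm) xs hxs hxmin τ₁ hτ₁ own1
      x hx.1 hx.2.2 hO
    refine le_trans ?_ h5
    apply sum_le_sum_of_subset_of_nonneg
    · intro y hy
      simp only [mem_filter] at hy ⊢
      exact ⟨hy.1.1, hy.1.2.1, hy.2⟩
    · intros; exact (hpos _).le

theorem corner_ind {R : V → V → Prop} {w : V → ℝ}
    (hO : Oriented R) (hC : C4Free R) (hpos : ∀ v, 0 < w v) (P : V → Fin 3)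
    (hsoc : ∀ u v, N R u v = 1 →
      f R w u + f R w v ≤ 2 * ∑ y, w y * ((1 - N R u y) * (1 - N R v y)))
    (c δ τ₁ τ₂ : ℝ) (hτ₁ : 0 ≤ τ₁) (hτ₂ : 0 ≤ τ₂) (hδ : δ = c - W w P 0)
    (hW1 : δ ≤ W w P 1) (hW2 : δ ≤ W w P 2) :
    ∀ (n : ℕ) (S T : Finset V),
      (univ.filter (fun v => P v = 1 ∧ v ∉ S)).card +
        (univ.filter (fun v => P v = 2 ∧ v ∉ T)).card = n →
      (∀ v ∈ S, P v = 1) → (∀ v ∈ T, P v = 2) →
      (∀ v, P v = 1 → τ₁ < al R w P v → v ∈ S) →
      (∀ v, P v = 2 → τ₂ < al R w P v → v ∈ T) →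
      FF (δ - τ₁ - 3 * τ₂ - ∑ v ∈ T, w v) (δ - τ₂ - 3 * τ₁ - ∑ v ∈ S, w v) ≤
        ∑ v ∈ univ.filter (fun v => P v = 1 ∧ v ∉ S), w v * (c - f R w v) ^ 2 +
        ∑ v ∈ univ.filter (fun v => P v = 2 ∧ v ∉ T), w v * (c - f R w v) ^ 2 := by
  intro n
  induction n using Nat.strong_induction_on with
  | _ n ih =>
    intro S T hn hS hT hS' hT'
    have nn1 : ∀ U : Finset V, 0 ≤ ∑ v ∈ U, w v * (c - f R w v) ^ 2 := fun U =>
      sum_nonneg (fun v _ => mul_nonneg (hpos v).le (sq_nonneg _))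
    by_cases hyy : δ - τ₁ - 3 * τ₂ - ∑ v ∈ T, w v ≤ 0 ∨ δ - τ₂ - 3 * τ₁ - ∑ v ∈ S, w v ≤ 0
    · rw [FF_zero hyy]
      exact add_nonneg (nn1 _) (nn1 _)
    · push Not at hyy
      obtain ⟨hy, hy'⟩ := hyy
      rcases step hO hC hpos P hsoc c δ τ₁ τ₂ hτ₁ hτ₂ hδ hW1 hW2 S T hS hT hS' hT' hy hy' with
        ⟨b, hPb, hbS, hgb⟩ | ⟨x, hPx, hxT, hgx⟩
      · -- a vertex of part 1
        have hmem : b ∈ univ.filter (fun v => P v = 1 ∧ v ∉ S) := by
          rw [mem_filter]; exact ⟨mem_univ _, hPb, hbS⟩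
        have hfil : univ.filter (fun v => P v = 1 ∧ v ∉ insert b S) =
            (univ.filter (fun v => P v = 1 ∧ v ∉ S)).erase b := by
          ext v; simp only [mem_filter, mem_erase, mem_insert, mem_univ, true_and]; tauto
        have hsum := add_sum_erase (univ.filter (fun v => P v = 1 ∧ v ∉ S))
          (fun v => w v * (c - f R w v) ^ 2) hmem
        have hwb := hpos b
        have hsq : w b * (δ - τ₁ - 3 * τ₂ - ∑ v ∈ T, w v) ^ 2 ≤ w b * (c - f R w b) ^ 2 := by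
          apply mul_le_mul_of_nonneg_left _ hwb.le
          exact pow_le_pow_left₀ hy.le hgb 2
        rcases le_total (δ - τ₂ - 3 * τ₁ - ∑ v ∈ S, w v) (w b) with hle | hle
        · have h1 := FF_le hy.le hy'.le
          have h2 : (δ - τ₁ - 3 * τ₂ - ∑ v ∈ T, w v) ^ 2 * (δ - τ₂ - 3 * τ₁ - ∑ v ∈ S, w v) ≤
              (δ - τ₁ - 3 * τ₂ - ∑ v ∈ T, w v) ^ 2 * w b :=
            mul_le_mul_of_nonneg_left hle (sq_nonneg _)
          have h3 := nn1 ((univ.filter (fun v => P v = 1 ∧ v ∉ S)).erase b)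
          have h4 := nn1 (univ.filter (fun v => P v = 2 ∧ v ∉ T))
          linarith
        · have h1 := FF_step hy.le hwb.le hle
          have hins : ∑ v ∈ insert b S, w v = w b + ∑ v ∈ S, w v := sum_insert hbS
          have h2 := ih _ (by
            rw [← hn, hfil, card_erase_of_mem hmem]
            have : 0 < (univ.filter (fun v => P v = 1 ∧ v ∉ S)).card := card_pos.2 ⟨b, hmem⟩
            omega) (insert b S) T rfl
            (by intro v hv; rw [mem_insert] at hv; rcases hv with rfl | hv; exacts [hPb, hS v hv])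
            hT (fun v h1 h2 => mem_insert_of_mem (hS' v h1 h2)) hT'
          rw [hfil, hins] at h2
          have e : δ - τ₂ - 3 * τ₁ - (w b + ∑ v ∈ S, w v) =
            δ - τ₂ - 3 * τ₁ - ∑ v ∈ S, w v - w b := by ring
          rw [e] at h2
          linarith
      · have hmem : x ∈ univ.filter (fun v => P v = 2 ∧ v ∉ T) := by
          rw [mem_filter]; exact ⟨mem_univ _, hPx, hxT⟩
        have hfil : univ.filter (fun v => P v = 2 ∧ v ∉ insert x T) =
            (univ.filter (fun v => P v = 2 ∧ v ∉ T)).erase x := by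
          ext v; simp only [mem_filter, mem_erase, mem_insert, mem_univ, true_and]; tauto
        have hsum := add_sum_erase (univ.filter (fun v => P v = 2 ∧ v ∉ T))
          (fun v => w v * (c - f R w v) ^ 2) hmem
        have hwb := hpos x
        have hsq : w x * (δ - τ₂ - 3 * τ₁ - ∑ v ∈ S, w v) ^ 2 ≤ w x * (c - f R w x) ^ 2 := by
          apply mul_le_mul_of_nonneg_left _ hwb.le
          exact pow_le_pow_left₀ hy'.le hgx 2
        rw [FF_comm]
        rcases le_total (δ - τ₁ - 3 * τ₂ - ∑ v ∈ T, w v) (w x) with hle | hle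
        · have h1 := FF_le hy'.le hy.le
          have h2 : (δ - τ₂ - 3 * τ₁ - ∑ v ∈ S, w v) ^ 2 * (δ - τ₁ - 3 * τ₂ - ∑ v ∈ T, w v) ≤
              (δ - τ₂ - 3 * τ₁ - ∑ v ∈ S, w v) ^ 2 * w x :=
            mul_le_mul_of_nonneg_left hle (sq_nonneg _)
          have h3 := nn1 (univ.filter (fun v => P v = 1 ∧ v ∉ S))
          have h4 := nn1 ((univ.filter (fun v => P v = 2 ∧ v ∉ T)).erase x)
          linarith
        · have h1 := FF_step hy'.le hwb.le hle
          have hins : ∑ v ∈ insert x T, w v = w x + ∑ v ∈ T, w v := sum_insert hxT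
          have h2 := ih _ (by
            rw [← hn, hfil, card_erase_of_mem hmem]
            have : 0 < (univ.filter (fun v => P v = 2 ∧ v ∉ T)).card := card_pos.2 ⟨x, hmem⟩
            omega) S (insert x T) rfl hS
            (by intro v hv; rw [mem_insert] at hv; rcases hv with rfl | hv; exacts [hPx, hT v hv])
            hS' (fun v h1 h2 => mem_insert_of_mem (hT' v h1 h2))
          rw [hfil, hins, FF_comm] at h2
          have e : δ - τ₁ - 3 * τ₂ - (w x + ∑ v ∈ T, w v) =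
            δ - τ₁ - 3 * τ₂ - ∑ v ∈ T, w v - w x := by ring
          rw [e] at h2
          linarith

theorem ze_eq (P : V → Fin 3) (i : Fin 3) (τ : ℝ) :
    ze R w P i τ = ∑ v ∈ univ.filter (fun v => P v = i ∧ τ < al R w P v), w v := by
  unfold ze; rw [sum_filter]

theorem corner {V : Type} [Fintype V] (R : V → V → Prop) (w : V → ℝ)
    (hO : Oriented R) (hC : C4Free R) (hpos : ∀ v, 0 < w v) (P : V → Fin 3)
    (hsoc : ∀ u v, N R u v = 1 →
      f R w u + f R w v ≤ 2 * ∑ y, w y * ((1 - N R u y) * (1 - N R v y)))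
    (c δ τ₁ τ₂ : ℝ) (hτ₁ : 0 ≤ τ₁) (hτ₂ : 0 ≤ τ₂) (hδ : δ = c - W w P 0)
    (hW1 : δ ≤ W w P 1) (hW2 : δ ≤ W w P 2) :
    FF (δ - (τ₁ + 3 * τ₂ + ze R w P 2 τ₂)) (δ - (τ₂ + 3 * τ₁ + ze R w P 1 τ₁)) ≤
      ∑ v, w v * (if P v = 0 then 0 else (c - f R w v) ^ 2) := by
  have h := corner_ind hO hC hpos P hsoc c δ τ₁ τ₂ hτ₁ hτ₂ hδ hW1 hW2 _
    (univ.filter (fun v => P v = 1 ∧ τ₁ < al R w P v))
    (univ.filter (fun v => P v = 2 ∧ τ₂ < al R w P v)) rfl
    (fun v hv => (mem_filter.1 hv).2.1) (fun v hv => (mem_filter.1 hv).2.1)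
    (fun v h1 h2 => mem_filter.2 ⟨mem_univ _, h1, h2⟩)
    (fun v h1 h2 => mem_filter.2 ⟨mem_univ _, h1, h2⟩)
  rw [← ze_eq, ← ze_eq] at h
  have e1 : δ - (τ₁ + 3 * τ₂ + ze R w P 2 τ₂) = δ - τ₁ - 3 * τ₂ - ze R w P 2 τ₂ := by ring
  have e2 : δ - (τ₂ + 3 * τ₁ + ze R w P 1 τ₁) = δ - τ₂ - 3 * τ₁ - ze R w P 1 τ₁ := by ring
  rw [e1, e2]
  refine h.trans ?_
  rw [sum_filter, sum_filter, ← sum_add_distrib]
  apply sum_le_sum
  intro v _
  have hw := hpos v
  have hg : 0 ≤ w v * (c - f R w v) ^ 2 := mul_nonneg hw.le (sq_nonneg _)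
  by_cases h0 : P v = 0
  · rw [if_pos h0, if_neg, if_neg]
    · simp
    · rw [h0]; simp
    · rw [h0]; simp
  · rw [if_neg h0]
    by_cases h1 : P v = 1
    · rw [if_neg (c := P v = 2 ∧ _)]
      · split_ifs <;> linarith
      · rw [h1]; simp
    · rw [if_neg (c := P v = 1 ∧ _)]
      · split_ifs <;> linarith
      · exact fun h => h1 h.1

end Pool.Agent.H122R2.FdF
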