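import Pool.Agent.H122R2.FdF.Defs2

set_option autoImplicit false
open Finset
open scoped Classical

namespace Pool.Agent.H122R2.FdF

theorem int_ind (α T : ℝ) (hα : 0 ≤ α) (hT : 0 ≤ T) :
    ∫ s in (0:ℝ)..T, (Set.Iio α).indicator (1 : ℝ → ℝ) s = min α T := by
  rw [intervalIntegral.integral_of_le hT]
  rw [MeasureTheory.integral_indicator_one measurableSet_Iio]
  rw [MeasureTheory.measureReal_restrict_apply measurableSet_Iio]
  rcases le_or_gt α T with h | h
  · have : Set.Iio α ∩ Set.Ioc 0 T = Set.Ioo 0 α := by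
      ext x
      simp only [Set.mem_inter_iff, Set.mem_Iio, Set.mem_Ioc, Set.mem_Ioo]
      constructor
      · rintro ⟨h1, h2, h3⟩; exact ⟨h2, h1⟩
      · rintro ⟨h1, h2⟩; exact ⟨h2, h1, by linarith⟩
    rw [this, min_eq_left h]
    simp [MeasureTheory.measureReal_def, hα]
  · have : Set.Iio α ∩ Set.Ioc 0 T = Set.Ioc 0 T := by
      ext x
      simp only [Set.mem_inter_iff, Set.mem_Iio, Set.mem_Ioc]
      constructor
      · rintro ⟨h1, h2, h3⟩; exact ⟨h2, h3⟩
      · rintro ⟨h1, h2⟩; exact ⟨by linarith, h1, h2⟩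
    rw [this, min_eq_right h.le]
    simp [MeasureTheory.measureReal_def, hT]

theorem int_ind_integrable (α T : ℝ) :
    IntervalIntegrable ((Set.Iio α).indicator (1 : ℝ → ℝ)) MeasureTheory.volume 0 T := by
  have h1 : IntervalIntegrable (1 : ℝ → ℝ) MeasureTheory.volume 0 T :=
    intervalIntegrable_const
  rw [intervalIntegrable_iff] at h1 ⊢
  exact h1.indicator measurableSet_Iio

theorem adapt {V : Type} [Fintype V] (w a : V → ℝ) (hw : ∀ v, 0 ≤ w v) (ha : ∀ v, 0 ≤ a v)
    (S : V → Prop) [DecidablePred S] (t : ℝ) (ht : 0 < t) :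
    ∃ τ : ℝ, 0 ≤ τ ∧
      (min ((∑ v, if S v ∧ τ < a v then w v else 0) + 4 * τ) (4 * t)) ^ 2 / 8 ≤
        ∑ v, w v * (if S v then min (a v) t else 0) := by
  set ζ : ℝ → ℝ := fun s => ∑ v, if S v ∧ s < a v then w v else 0 with hζ
  set C : Finset ℝ := insert 0 (Finset.univ.image a) with hC
  have hCne : C.Nonempty := ⟨0, by simp [hC]⟩
  obtain ⟨τ, hτC, hτ⟩ := C.exists_min_image (fun s => ζ s + 4 * s) hCne
  have hτ0 : 0 ≤ τ := by
    rw [hC, Finset.mem_insert, Finset.mem_image] at hτC
    rcases hτC with h | ⟨v, -, h⟩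
    · rw [h]
    · rw [← h]; exact ha v
  refine ⟨τ, hτ0, ?_⟩
  set h := ζ τ + 4 * τ with hh
  have hζ0 : ∀ s, 0 ≤ ζ s := fun s => Finset.sum_nonneg (fun v _ => by
    split_ifs
    · exact hw v
    · exact le_rfl)
  have hh0 : 0 ≤ h := by have := hζ0 τ; rw [hh]; linarith
  -- the bound for all t'
  have key : ∀ s, 0 ≤ s → h ≤ ζ s + 4 * s := by
    intro s hs
    have hne : (C.filter (fun c => c ≤ s)).Nonempty := ⟨0, by simp [hC, hs]⟩
    set c := (C.filter (fun c => c ≤ s)).max' hne with hc
    have hcm := (C.filter (fun c => c ≤ s)).max'_mem hne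
    rw [← hc, Finset.mem_filter] at hcm
    have h1 := hτ c hcm.1
    have h2 : ζ c = ζ s := by
      simp only [hζ]
      refine Finset.sum_congr rfl (fun v _ => ?_)
      have : (S v ∧ c < a v) ↔ (S v ∧ s < a v) := by
        constructor
        · rintro ⟨h3, h4⟩
          refine ⟨h3, ?_⟩
          by_contra h5
          have h6 : a v ∈ C.filter (fun c => c ≤ s) := by
            rw [Finset.mem_filter]
            exact ⟨by simp [hC], not_lt.1 h5⟩
          have := (C.filter (fun c => c ≤ s)).le_max' _ h6
          rw [← hc] at this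
          linarith
        · rintro ⟨h3, h4⟩
          exact ⟨h3, by linarith [hcm.2]⟩
      simp only [this]
    have h3 : ζ τ + 4 * τ ≤ ζ c + 4 * c := h1
    rw [h2] at h3
    have := hcm.2
    rw [hh]; linarith
  set T := min (h / 4) t with hT
  have hT0 : 0 ≤ T := le_min (by linarith) ht.le
  have e1 : ∀ s, ζ s = ∑ v, (if S v then w v else 0) * (Set.Iio (a v)).indicator (1 : ℝ → ℝ) s := by
    intro s
    simp only [hζ]
    refine Finset.sum_congr rfl (fun v _ => ?_)
    by_cases h1 : S v
    · by_cases h2 : s < a v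
      · simp [h1, h2]
      · simp [h1, h2]
    · simp [h1]
  have hint : ∀ v ∈ (Finset.univ : Finset V), IntervalIntegrable
      (fun s => (if S v then w v else 0) * (Set.Iio (a v)).indicator (1 : ℝ → ℝ) s)
      MeasureTheory.volume 0 T := fun v _ => (int_ind_integrable (a v) T).const_mul _
  have e2 : ∫ s in (0:ℝ)..T, ζ s = ∑ v, (if S v then w v else 0) * min (a v) T := by
    simp_rw [e1]
    rw [intervalIntegral.integral_finsetSum hint]
    refine Finset.sum_congr rfl (fun v _ => ?_)
    rw [intervalIntegral.integral_const_mul, int_ind (a v) T (ha v) hT0]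
  have hζint : IntervalIntegrable ζ MeasureTheory.volume 0 T := by
    have h1 : ζ = fun s => ∑ v, (if S v then w v else 0) *
        (Set.Iio (a v)).indicator (1 : ℝ → ℝ) s := funext e1
    rw [h1]
    have h2 := IntervalIntegrable.sum Finset.univ hint
    have h3 : (∑ v, fun s => (if S v then w v else 0) *
        (Set.Iio (a v)).indicator (1 : ℝ → ℝ) s) = fun s => ∑ v, (if S v then w v else 0) *
        (Set.Iio (a v)).indicator (1 : ℝ → ℝ) s := by
      funext s
      rw [Finset.sum_apply]
    rw [← h3]
    exact h2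
  have e3 : ∫ s in (0:ℝ)..T, (h - 4 * s) = h * T - 2 * T ^ 2 := by
    have hi1 : IntervalIntegrable (fun _ : ℝ => h) MeasureTheory.volume 0 T :=
      intervalIntegrable_const
    have hi2 : IntervalIntegrable (fun s : ℝ => 4 * s) MeasureTheory.volume 0 T :=
      (continuous_const.mul continuous_id).intervalIntegrable 0 T
    rw [intervalIntegral.integral_sub hi1 hi2, intervalIntegral.integral_const,
      intervalIntegral.integral_const_mul, integral_id]
    simp only [smul_eq_mul]
    ring
  have e4 : h * T - 2 * T ^ 2 ≤ ∑ v, (if S v then w v else 0) * min (a v) T := by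
    rw [← e2, ← e3]
    refine intervalIntegral.integral_mono_on hT0
      ((continuous_const.sub (continuous_const.mul continuous_id)).intervalIntegrable 0 T)
      hζint ?_
    intro s hs
    have := key s hs.1
    linarith
  have e5 : ∑ v, (if S v then w v else 0) * min (a v) T ≤
      ∑ v, w v * (if S v then min (a v) t else 0) := by
    refine Finset.sum_le_sum (fun v _ => ?_)
    by_cases h1 : S v
    · simp only [h1, if_true]
      exact mul_le_mul_of_nonneg_left (min_le_min_left _ (min_le_right _ _)) (hw v)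
    · simp [h1]
  refine le_trans ?_ (le_trans e4 e5)
  rcases le_total h (4 * t) with h1 | h1
  · have h2 : T = h / 4 := by rw [hT]; exact min_eq_left (by linarith)
    rw [min_eq_left h1, h2]
    nlinarith
  · have h2 : T = t := by rw [hT]; exact min_eq_right (by linarith)
    rw [min_eq_right h1, h2]
    nlinarith

end Pool.Agent.H122R2.FdF
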