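import Pool.Agent.H122R2.FdF.Defs2

set_option autoImplicit false

namespace Pool.Agent.H122R2.FdF

theorem rr_nonneg (x : ℝ) (h0 : 0 ≤ x) (h1 : x ≤ 1) :
    0 ≤ -5.0625 * x ^ 4 - 2.58 * x ^ 3 + 20.2014 * x ^ 2 - 13.3128 * x + 2.5444 := by
  nlinarith [mul_nonneg h0 (sub_nonneg.mpr h1), sq_nonneg (x - 0.4),
    mul_nonneg h0 (sq_nonneg (x - 0.4)), mul_nonneg (sub_nonneg.mpr h1) (sq_nonneg (x - 0.4)),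
    mul_nonneg (mul_nonneg h0 (sub_nonneg.mpr h1)) (sq_nonneg (x - 0.4)),
    mul_nonneg (mul_nonneg h0 (sub_nonneg.mpr h1)) (sq_nonneg x)]

theorem poly2 (x y : ℝ) (h0 : 0 ≤ x) (h1 : x ≤ 1) :
    0.75 ≤ 3 * x ^ 2 * (1 - 0.75 * y) - x ^ 3 + 1.29 * ((1 - x - y / 4) ^ 2 + y ^ 2) := by
  have h := rr_nonneg x h0 h1
  have e : 3 * x ^ 2 * (1 - 0.75 * y) - x ^ 3 + 1.29 * ((1 - x - y / 4) ^ 2 + y ^ 2) - 0.75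
      = 1.370625 * (y - (2.25 * x ^ 2 + 0.645 * (1 - x)) / 2.74125) ^ 2
        + (3 * x ^ 2 - x ^ 3 + 1.29 * (1 - x) ^ 2 - 0.75
          - (2.25 * x ^ 2 + 0.645 * (1 - x)) ^ 2 / 5.4825) := by
    ring
  have e2 : 5.4825 * (3 * x ^ 2 - x ^ 3 + 1.29 * (1 - x) ^ 2 - 0.75
          - (2.25 * x ^ 2 + 0.645 * (1 - x)) ^ 2 / 5.4825) ≥
      -5.0625 * x ^ 4 - 2.58 * x ^ 3 + 20.2014 * x ^ 2 - 13.3128 * x + 2.5444 := by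
    have e3 : 5.4825 * (3 * x ^ 2 - x ^ 3 + 1.29 * (1 - x) ^ 2 - 0.75
          - (2.25 * x ^ 2 + 0.645 * (1 - x)) ^ 2 / 5.4825) =
      -5.0625 * x ^ 4 - 2.58 * x ^ 3 + 20.2014 * x ^ 2 - 13.3128 * x + 2.544525 := by
      ring
    rw [e3]
    linarith
  have h3 := sq_nonneg (y - (2.25 * x ^ 2 + 0.645 * (1 - x)) / 2.74125)
  nlinarith

theorem poly3 (δ a z : ℝ) (hδ0 : 0 < δ) (ha : 0 ≤ a) (hz : a ≤ δ) :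
    0.75 * δ ^ 3 ≤ 3 * a ^ 2 * (δ - 0.75 * z) - a ^ 3
      + 1.29 * δ * ((δ - a - z / 4) ^ 2 + z ^ 2) := by
  have h := poly2 (a / δ) (z / δ) (div_nonneg ha hδ0.le) ((div_le_one hδ0).mpr hz)
  have h2 := mul_le_mul_of_nonneg_left h (pow_pos hδ0 3).le
  have e : δ ^ 3 * (3 * (a / δ) ^ 2 * (1 - 0.75 * (z / δ)) - (a / δ) ^ 3
      + 1.29 * ((1 - (a / δ) - (z / δ) / 4) ^ 2 + (z / δ) ^ 2))
      = 3 * a ^ 2 * (δ - 0.75 * z) - a ^ 3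
      + 1.29 * δ * ((δ - a - z / 4) ^ 2 + z ^ 2) := by
    field_simp
  rw [e] at h2
  linarith

theorem sq_bound (δ h₁ h₂ : ℝ) (hδ0 : 0 < δ) (hδ : δ ≤ 0.089) (h : δ ≤ h₁ + h₂ / 4) :
    3 / 4 * δ ^ 3 ≤ 0.115 * (h₁ ^ 2 + h₂ ^ 2) := by
  have h1 : δ ^ 2 ≤ 17 / 16 * (h₁ ^ 2 + h₂ ^ 2) := by
    have : δ ^ 2 ≤ (h₁ + h₂ / 4) ^ 2 := by nlinarith
    nlinarith [sq_nonneg (h₁ / 4 - h₂)]
  have h2 : δ ^ 3 ≤ 0.089 * δ ^ 2 := by nlinarith [mul_nonneg (sq_nonneg δ) (sub_nonneg.mpr hδ)]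
  nlinarith

/-- the main case of the numerical inequality -/
theorem num_core (δ h₁ h₂ d : ℝ) (hδ0 : 0 < δ) (hδ : δ ≤ 0.089) (hh1 : 0 ≤ h₁) (hh2 : 0 ≤ h₂)
    (hd : d ≤ h₂ / 4) (hXY : δ - h₁ - d ≤ δ - h₂ + d) (hX : 0 < δ - h₁ - d) :
    3 / 4 * δ ^ 3 ≤ 3 * ((δ - h₁ - d) ^ 2 * (δ - h₂ + d) - (δ - h₁ - d) ^ 3 / 3)
      + 0.115 * (h₁ ^ 2 + h₂ ^ 2) := by
  obtain ⟨X, hXd⟩ : ∃ X, X = δ - h₁ - d := ⟨_, rfl⟩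
  obtain ⟨Y, hYd⟩ : ∃ Y, Y = δ - h₂ + d := ⟨_, rfl⟩
  rw [← hXd] at hXY hX ⊢
  rw [← hYd] at hXY ⊢
  rcases le_or_gt δ (h₁ + h₂ / 4) with h | h
  · have h2 := sq_bound δ h₁ h₂ hδ0 hδ h
    have h3 : 0 ≤ X ^ 2 * Y - X ^ 3 / 3 := by
      have := mul_nonneg (sq_nonneg X) (by linarith : 0 ≤ Y - X / 3)
      nlinarith
    linarith
  · obtain ⟨D, hD⟩ : ∃ D, D = h₂ / 4 - d := ⟨_, rfl⟩
    have hD0 : 0 ≤ D := by linarith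
    obtain ⟨a, ha⟩ : ∃ a, a = X - D := ⟨_, rfl⟩
    have ha0 : 0 ≤ a := by rw [ha, hXd, hD]; linarith
    have haδ : a ≤ δ := by rw [ha, hXd, hD]; linarith
    have hp := poly3 δ a h₂ hδ0 ha0 haδ
    have e1 : δ - a - h₂ / 4 = h₁ := by rw [ha, hXd, hD]; ring
    have e2 : δ - 0.75 * h₂ = Y + D := by rw [hYd, hD]; ring
    rw [e1, e2] at hp
    have hX2 : X = a + D := by rw [ha]; ring
    have hY2 : a + D ≤ Y := by rw [← hX2]; exact hXY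
    -- monotonicity
    have hmono : 3 * a ^ 2 * (Y + D) - a ^ 3 ≤ 3 * ((a + D) ^ 2 * Y - (a + D) ^ 3 / 3) := by
      have e : 3 * ((a + D) ^ 2 * Y - (a + D) ^ 3 / 3) - (3 * a ^ 2 * (Y + D) - a ^ 3)
          = 3 * D * (2 * a + D) * (Y - (a + D)) + D ^ 2 * (2 * D + 6 * a) := by ring
      have p1 := mul_nonneg (mul_nonneg (mul_nonneg (by norm_num : (0:ℝ) ≤ 3) hD0)
        (by linarith : 0 ≤ 2 * a + D)) (sub_nonneg.mpr hY2)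
      have p2 := mul_nonneg (sq_nonneg D) (by linarith : 0 ≤ 2 * D + 6 * a)
      linarith
    rw [hX2]
    have hc : 1.29 * δ * (h₁ ^ 2 + h₂ ^ 2) ≤ 0.115 * (h₁ ^ 2 + h₂ ^ 2) :=
      mul_le_mul_of_nonneg_right (by linarith) (by positivity)
    linarith

theorem FF_nonneg (x y : ℝ) : 0 ≤ FF x y := by
  unfold FF
  split_ifs with h
  · exact le_rfl
  · push Not at h
    have h1 : 0 < min x y := lt_min h.1 h.2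
    have h2 : min x y ≤ max x y := min_le_max
    have := mul_nonneg (sq_nonneg (min x y)) (by linarith : 0 ≤ max x y - min x y / 3)
    nlinarith

theorem FF_comm (x y : ℝ) : FF x y = FF y x := by
  unfold FF
  rw [min_comm x y, max_comm x y]
  simp only [or_comm]

theorem num_side (δ h₁ h₂ d : ℝ) (hδ0 : 0 < δ) (hδ : δ ≤ 0.089) (hh1 : 0 ≤ h₁) (hh2 : 0 ≤ h₂)
    (hd : d ≤ h₂ / 4) (hXY : δ - h₁ - d ≤ δ - h₂ + d) :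
    3 / 4 * δ ^ 3 ≤ 3 * FF (δ - h₂ + d) (δ - h₁ - d) + 0.115 * (h₁ ^ 2 + h₂ ^ 2) := by
  rcases le_or_gt (δ - h₁ - d) 0 with h | h
  · have := FF_nonneg (δ - h₂ + d) (δ - h₁ - d)
    have h2 := sq_bound δ h₁ h₂ hδ0 hδ (by linarith)
    linarith
  · have hY : 0 < δ - h₂ + d := lt_of_lt_of_le h hXY
    have e : FF (δ - h₂ + d) (δ - h₁ - d)
        = (δ - h₁ - d) ^ 2 * (δ - h₂ + d) - (δ - h₁ - d) ^ 3 / 3 := by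
      unfold FF
      rw [if_neg (by push Not; exact ⟨hY, h⟩), min_eq_right hXY, max_eq_left hXY]
    rw [e]
    exact num_core δ h₁ h₂ d hδ0 hδ hh1 hh2 hd hXY h

theorem numeric (δ τ₁ τ₂ ζ₁ ζ₂ s₁ s₂ : ℝ) (hδ0 : 0 < δ) (hδ : δ ≤ 0.089)
    (h1 : 0 ≤ τ₁) (h2 : 0 ≤ τ₂) (h3 : 0 ≤ ζ₁) (h4 : 0 ≤ ζ₂)
    (hs1 : (min (ζ₁ + 4 * τ₁) 0.08) ^ 2 / 8 ≤ s₁)
    (hs2 : (min (ζ₂ + 4 * τ₂) 0.08) ^ 2 / 8 ≤ s₂) :
    3 / 4 * δ ^ 3 ≤ 3 * FF (δ - (τ₁ + 3 * τ₂ + ζ₂)) (δ - (τ₂ + 3 * τ₁ + ζ₁))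
      + 0.92 * (s₁ + s₂) := by
  have hF := FF_nonneg (δ - (τ₁ + 3 * τ₂ + ζ₂)) (δ - (τ₂ + 3 * τ₁ + ζ₁))
  have s1p : 0 ≤ s₁ := le_trans (by positivity) hs1
  have s2p : 0 ≤ s₂ := le_trans (by positivity) hs2
  have hδ3 : δ ^ 3 ≤ 0.089 ^ 3 := pow_le_pow_left₀ hδ0.le hδ 3
  rcases le_or_gt (ζ₁ + 4 * τ₁) 0.08 with g1 | g1
  swap
  · rw [min_eq_right g1.le] at hs1
    norm_num at hs1 hδ3 ⊢
    linarith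
  rcases le_or_gt (ζ₂ + 4 * τ₂) 0.08 with g2 | g2
  swap
  · rw [min_eq_right g2.le] at hs2
    norm_num at hs2 hδ3 ⊢
    linarith
  rw [min_eq_left g1] at hs1
  rw [min_eq_left g2] at hs2
  have ea : δ - (τ₁ + 3 * τ₂ + ζ₂) = δ - (ζ₂ + 4 * τ₂) + (τ₂ - τ₁) := by ring
  have eb : δ - (τ₂ + 3 * τ₁ + ζ₁) = δ - (ζ₁ + 4 * τ₁) - (τ₂ - τ₁) := by ring
  rcases le_total (δ - (ζ₁ + 4 * τ₁) - (τ₂ - τ₁)) (δ - (ζ₂ + 4 * τ₂) + (τ₂ - τ₁)) with h | h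
  · have := num_side δ (ζ₁ + 4 * τ₁) (ζ₂ + 4 * τ₂) (τ₂ - τ₁) hδ0 hδ (by linarith) (by linarith)
      (by linarith) h
    rw [ea, eb]
    linarith
  · have e1 : δ - (ζ₁ + 4 * τ₁) + (τ₁ - τ₂) = δ - (ζ₁ + 4 * τ₁) - (τ₂ - τ₁) := by ring
    have e2 : δ - (ζ₂ + 4 * τ₂) - (τ₁ - τ₂) = δ - (ζ₂ + 4 * τ₂) + (τ₂ - τ₁) := by ring
    have := num_side δ (ζ₂ + 4 * τ₂) (ζ₁ + 4 * τ₁) (τ₁ - τ₂) hδ0 hδ (by linarith) (by linarith)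
      (by linarith) (by rw [e1, e2]; exact h)
    rw [e1, e2, FF_comm] at this
    rw [ea, eb]
    linarith

end Pool.Agent.H122R2.FdF
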