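import Pool.Agent.H122R2.FdF.FlagAux
import Pool.Agent.H122R2.FdF.TaskK2

/-! Passing from the weighted density to the number of edges of a Fon-der-Flaass 3-graph. -/

set_option autoImplicit false
open Finset
open scoped Classical

namespace Pool.Agent.H122R2.FdF

/-- The Fon-der-Flaass 3-graph: the triples with a vertex which has no arc to or from the other
two, or with a vertex which has arcs to both others. -/
noncomputable def fdf {n : ℕ} (R : Fin n → Fin n → Prop) : Finset (Finset (Fin n)) :=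
  (Finset.univ.powersetCard 3).filter fun s : Finset (Fin n) =>
    ∃ x ∈ s, (∀ y ∈ s, y ≠ x → (¬ R x y ∧ ¬ R y x)) ∨ (∀ y ∈ s, y ≠ x → R x y)

theorem pc_table : ∀ x < 3, ∀ y < 3, ∀ z < 3, pc (cd x y z) =
    if (x = 0 ∧ y = 0) ∨ (x = 0 ∧ z = 0) ∨ (y = 0 ∧ z = 0) ∨ (x = 1 ∧ y = 1) ∨
      (x = 2 ∧ z = 1) ∨ (y = 2 ∧ z = 2) then 1 else 0 := by decide +kernel

theorem pc_le_ind {n : ℕ} (R : Fin n → Fin n → Prop) (a b c : Fin n) :
    pc (cd (rl R a b) (rl R a c) (rl R b c)) + 2 * (if a = b ∧ a = c then 1 else 0) ≤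
      (if a ≠ b ∧ a ≠ c ∧ b ≠ c ∧ ({a, b, c} : Finset (Fin n)) ∈ fdf R then 1 else 0)
      + (if a = b then 1 else 0) + (if a = c then 1 else 0) + (if b = c then 1 else 0) := by
  have hl : ∀ x y, rl R x y < 3 := rl_lt R
  rw [pc_table _ (hl a b) _ (hl a c) _ (hl b c)]
  have hp : (if (rl R a b = 0 ∧ rl R a c = 0) ∨ (rl R a b = 0 ∧ rl R b c = 0) ∨
      (rl R a c = 0 ∧ rl R b c = 0) ∨ (rl R a b = 1 ∧ rl R a c = 1) ∨
      (rl R a b = 2 ∧ rl R b c = 1) ∨ (rl R a c = 2 ∧ rl R b c = 2) then 1 else 0) ≤ 1 := by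
    split_ifs <;> omega
  by_cases hd : a ≠ b ∧ a ≠ c ∧ b ≠ c
  swap
  · revert hp
    generalize (if (rl R a b = 0 ∧ rl R a c = 0) ∨ (rl R a b = 0 ∧ rl R b c = 0) ∨
      (rl R a c = 0 ∧ rl R b c = 0) ∨ (rl R a b = 1 ∧ rl R a c = 1) ∨
      (rl R a b = 2 ∧ rl R b c = 1) ∨ (rl R a c = 2 ∧ rl R b c = 2) then 1 else 0) = p
    intro hp
    by_cases hab : a = b
    · subst hab
      by_cases hac : a = c
      · simp only [hac, and_self, if_true]
        omega
      · simp only [hac, and_false, if_false, if_true]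
        omega
    · by_cases hac : a = c
      · have h1 : ¬ (c = b) := fun h => hab (hac.trans h)
        simp only [hac, h1, if_true, if_false, false_and]
        omega
      · have hbc : b = c := by
          by_contra h
          exact hd ⟨hab, hac, h⟩
        simp only [if_pos hbc, hab, false_and, if_false]
        omega
  obtain ⟨hab, hac, hbc⟩ := hd
  have habc : ¬ (a = b ∧ a = c) := fun h => hab h.1
  simp only [if_neg hab, if_neg hac, if_neg hbc, if_neg habc, add_zero, mul_zero]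
  split_ifs with h1 h2
  · exact le_rfl
  · exfalso
    apply h2
    refine ⟨hab, hac, hbc, ?_⟩
    unfold fdf
    rw [mem_filter, mem_powersetCard]
    refine ⟨⟨subset_univ _, Finset.card_eq_three.mpr ⟨a, b, c, hab, hac, hbc, rfl⟩⟩, ?_⟩
    rcases h1 with ⟨e1, e2⟩ | ⟨e1, e2⟩ | ⟨e1, e2⟩ | ⟨e1, e2⟩ | ⟨e1, e2⟩ | ⟨e1, e2⟩
    · refine ⟨a, by simp, Or.inl ?_⟩
      intro y hy hya
      simp only [mem_insert, mem_singleton] at hy
      rcases hy with rfl | rfl | rfl
      · exact absurd rfl hya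
      · exact rl0 e1
      · exact rl0 e2
    · refine ⟨b, by simp, Or.inl ?_⟩
      intro y hy hya
      simp only [mem_insert, mem_singleton] at hy
      rcases hy with rfl | rfl | rfl
      · exact (rl0 e1).symm
      · exact absurd rfl hya
      · exact rl0 e2
    · refine ⟨c, by simp, Or.inl ?_⟩
      intro y hy hya
      simp only [mem_insert, mem_singleton] at hy
      rcases hy with rfl | rfl | rfl
      · exact (rl0 e1).symm
      · exact (rl0 e2).symm
      · exact absurd rfl hya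
    · refine ⟨a, by simp, Or.inr ?_⟩
      intro y hy hya
      simp only [mem_insert, mem_singleton] at hy
      rcases hy with rfl | rfl | rfl
      · exact absurd rfl hya
      · exact rl1 e1
      · exact rl1 e2
    · refine ⟨b, by simp, Or.inr ?_⟩
      intro y hy hya
      simp only [mem_insert, mem_singleton] at hy
      rcases hy with rfl | rfl | rfl
      · exact rl2 e1
      · exact absurd rfl hya
      · exact rl1 e2
    · refine ⟨c, by simp, Or.inr ?_⟩
      intro y hy hya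
      simp only [mem_insert, mem_singleton] at hy
      rcases hy with rfl | rfl | rfl
      · exact rl2 e1
      · exact rl2 e2
      · exact absurd rfl hya
  · exact Nat.zero_le _
  · exact Nat.zero_le _

theorem count_le {n : ℕ} (G : Finset (Finset (Fin n))) (hG : ∀ s ∈ G, s.card = 3) :
    ∑ a : Fin n, ∑ b : Fin n, ∑ c : Fin n,
      (if a ≠ b ∧ a ≠ c ∧ b ≠ c ∧ ({a, b, c} : Finset (Fin n)) ∈ G then 1 else 0) ≤ 6 * G.card := by
  set T : Finset (Fin n × Fin n × Fin n) := univ.filter fun t =>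
    t.1 ≠ t.2.1 ∧ t.1 ≠ t.2.2 ∧ t.2.1 ≠ t.2.2 ∧ ({t.1, t.2.1, t.2.2} : Finset (Fin n)) ∈ G with hT
  have e : ∑ a : Fin n, ∑ b : Fin n, ∑ c : Fin n,
      (if a ≠ b ∧ a ≠ c ∧ b ≠ c ∧ ({a, b, c} : Finset (Fin n)) ∈ G then 1 else 0) = T.card := by
    rw [hT, Finset.card_filter, Fintype.sum_prod_type]
    refine sum_congr rfl fun a _ => ?_
    rw [Fintype.sum_prod_type]
  rw [e]
  refine Finset.card_le_mul_card_image_of_maps_to
    (f := fun t : Fin n × Fin n × Fin n => ({t.1, t.2.1, t.2.2} : Finset (Fin n))) ?_ 6 ?_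
  · intro t ht
    exact (mem_filter.mp ht).2.2.2.2
  · intro s hs
    obtain ⟨x, y, z, hxy, hxz, hyz, rfl⟩ := Finset.card_eq_three.mp (hG s hs)
    refine (Finset.card_le_card (t := {(x, y, z), (x, z, y), (y, x, z), (y, z, x), (z, x, y),
      (z, y, x)}) ?_).trans Finset.card_le_six
    rintro ⟨a, b, c⟩ ht
    rw [mem_filter] at ht
    obtain ⟨ht, hs'⟩ := ht
    obtain ⟨-, h1, h2, h3, -⟩ := mem_filter.mp ht
    simp only at hs' h1 h2 h3
    have ha : a ∈ ({x, y, z} : Finset (Fin n)) := by rw [← hs']; simp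
    have hb : b ∈ ({x, y, z} : Finset (Fin n)) := by rw [← hs']; simp
    have hc : c ∈ ({x, y, z} : Finset (Fin n)) := by rw [← hs']; simp
    simp only [mem_insert, mem_singleton] at ha hb hc
    rcases ha with ha | ha | ha <;> rcases hb with hb | hb | hb <;>
      rcases hc with hc | hc | hc <;> simp_all


theorem sum_pc_le {n : ℕ} (R : Fin n → Fin n → Prop) :
    ∑ a : Fin n, ∑ b : Fin n, ∑ c : Fin n, pc (cd (rl R a b) (rl R a c) (rl R b c)) + 2 * n
      ≤ 6 * (fdf R).card + 3 * n ^ 2 := by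
  have h1 : ∑ a : Fin n, ∑ b : Fin n, ∑ c : Fin n,
      (pc (cd (rl R a b) (rl R a c) (rl R b c)) + 2 * (if a = b ∧ a = c then 1 else 0))
      ≤ ∑ a : Fin n, ∑ b : Fin n, ∑ c : Fin n,
      ((if a ≠ b ∧ a ≠ c ∧ b ≠ c ∧ ({a, b, c} : Finset (Fin n)) ∈ fdf R then 1 else 0)
      + (if a = b then 1 else 0) + (if a = c then 1 else 0) + (if b = c then 1 else 0)) :=
    sum_le_sum fun a _ => sum_le_sum fun b _ => sum_le_sum fun c _ => pc_le_ind R a b c
  simp only [Finset.sum_add_distrib, ← Finset.mul_sum] at h1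
  have h2 := count_le (fdf R) (fun s hs => (mem_powersetCard.mp (mem_filter.mp hs).1).2)
  have e0 : ∑ a : Fin n, ∑ b : Fin n, ∑ c : Fin n, (if a = b ∧ a = c then 1 else 0) = n := by
    have : ∀ a : Fin n, ∑ b : Fin n, ∑ c : Fin n, (if a = b ∧ a = c then 1 else 0) = 1 := by
      intro a
      rw [sum_eq_single a, sum_eq_single a]
      · simp
      · intro c _ hc
        simp [Ne.symm hc]
      · simp
      · intro b _ hb
        simp [Ne.symm hb]
      · simp
    rw [sum_congr rfl fun a _ => this a]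
    simp
  have e1 : ∑ a : Fin n, ∑ b : Fin n, ∑ _c : Fin n, (if a = b then 1 else 0) = n ^ 2 := by
    simp [pow_two]
  have e2 : ∑ a : Fin n, ∑ _b : Fin n, ∑ c : Fin n, (if a = c then 1 else 0) = n ^ 2 := by
    simp [pow_two]
  have e3 : ∑ _a : Fin n, ∑ b : Fin n, ∑ c : Fin n, (if b = c then 1 else 0) = n ^ 2 := by
    simp [pow_two]
  rw [e0, e1, e2, e3] at h1
  omega

theorem fdf_card {n : ℕ} (R : Fin n → Fin n → Prop) (hO : Oriented R)
    (hmain : ∀ w : Fin n → ℝ, (∀ v, 0 ≤ w v) → ∑ v, w v = 1 → 4 / 9 ≤ T R w) :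
    (2 / 27 : ℝ) * (n : ℝ) ^ 3 - (n : ℝ) ^ 2 / 2 + (n : ℝ) / 3 ≤ ((fdf R).card : ℝ) := by
  rcases Nat.eq_zero_or_pos n with h0 | hn
  · subst h0
    simp
  have hn' : (0 : ℝ) < n := by exact_mod_cast hn
  set w : Fin n → ℝ := fun _ => 1 / (n : ℝ) with hw
  have h1 : ∑ v, w v = 1 := by
    simp [hw, hn'.ne']
  have hT := hmain w (fun v => by positivity) h1
  rw [← sum_pc R w hO h1] at hT
  have e : ∑ a, ∑ b, ∑ c, w a * w b * w c * (pc (c3 (rl R) a b c) : ℝ)
      = 1 / (n : ℝ) ^ 3 * ((∑ a : Fin n, ∑ b : Fin n, ∑ c : Fin n,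
        pc (cd (rl R a b) (rl R a c) (rl R b c)) : ℕ) : ℝ) := by
    push_cast
    simp only [mul_sum]
    refine sum_congr rfl fun a _ => sum_congr rfl fun b _ => sum_congr rfl fun c _ => ?_
    simp only [hw, c3]
    ring
  rw [e] at hT
  have h2 := sum_pc_le R
  have h3 : ((∑ a : Fin n, ∑ b : Fin n, ∑ c : Fin n,
        pc (cd (rl R a b) (rl R a c) (rl R b c)) : ℕ) : ℝ) + 2 * n
      ≤ 6 * ((fdf R).card : ℝ) + 3 * (n : ℝ) ^ 2 := by exact_mod_cast h2
  have h4 : 4 / 9 * (n : ℝ) ^ 3 ≤ ((∑ a : Fin n, ∑ b : Fin n, ∑ c : Fin n,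
        pc (cd (rl R a b) (rl R a c) (rl R b c)) : ℕ) : ℝ) := by
    have h5 := mul_le_mul_of_nonneg_right hT (by positivity : (0 : ℝ) ≤ (n : ℝ) ^ 3)
    have h6 : 1 / (n : ℝ) ^ 3 * ((∑ a : Fin n, ∑ b : Fin n, ∑ c : Fin n,
        pc (cd (rl R a b) (rl R a c) (rl R b c)) : ℕ) : ℝ) * (n : ℝ) ^ 3
        = ((∑ a : Fin n, ∑ b : Fin n, ∑ c : Fin n,
        pc (cd (rl R a b) (rl R a c) (rl R b c)) : ℕ) : ℝ) := by
      field_simp
    rw [h6] at h5
    exact h5
  linarith

end Pool.Agent.H122R2.FdF
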