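import Mathlib

/-! Definitions for the proof of the Fon-der-Flaass conjecture (density `≥ 4/9`), weighted form. -/

set_option autoImplicit false
open Finset
open scoped Classical

namespace Pool.Agent.H122R2.FdF

/-- oriented graph: at most one arc per pair, no loops -/
def Oriented {V : Type} (R : V → V → Prop) : Prop := ∀ x y, R x y → ¬ R y x

/-- no induced oriented 4-cycle (the four vertices are automatically distinct) -/
def C4Free {V : Type} (R : V → V → Prop) : Prop :=
  ∀ a b c d, R a b → R b c → R c d → R d a → (R a c ∨ R c a ∨ R b d ∨ R d b)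

/-- indicator of the arc `x → y` -/
noncomputable def A {V : Type} (R : V → V → Prop) (x y : V) : ℝ := if R x y then 1 else 0

/-- indicator of non-adjacency (a vertex is non-adjacent to itself) -/
noncomputable def N {V : Type} (R : V → V → Prop) (x y : V) : ℝ := if R x y ∨ R y x then 0 else 1

/-- indicator that the triple is an edge of the Fon-der-Flaass 3-graph (repeated vertices are
treated as non-adjacent clones) -/
noncomputable def H {V : Type} (R : V → V → Prop) (a b c : V) : ℝ :=
  N R a b * N R a c + N R a b * N R b c * (1 - N R a c) + N R a c * N R b c * (1 - N R a b)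
    + A R a b * A R a c + A R b a * A R b c + A R c a * A R c b

variable {V : Type} [Fintype V] (R : V → V → Prop) (w : V → ℝ)

/-- the weighted density of the Fon-der-Flaass 3-graph -/
noncomputable def T : ℝ := ∑ a, ∑ b, ∑ c, w a * w b * w c * H R a b c

/-- link density at `v` -/
noncomputable def L (v : V) : ℝ := ∑ b, ∑ c, w b * w c * H R v b c

/-- codegree of a pair -/
noncomputable def Qd (u v : V) : ℝ := ∑ c, w c * H R u v c

/-- out-degree -/
noncomputable def f (v : V) : ℝ := ∑ y, w y * A R v y

/-- weight of the non-neighbours (including the vertex itself) -/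
noncomputable def m (v : V) : ℝ := ∑ y, w y * N R v y

noncomputable def M : ℝ := ∑ v, w v * m R w v
noncomputable def Em2 : ℝ := ∑ v, w v * m R w v ^ 2
noncomputable def Ef2 : ℝ := ∑ v, w v * f R w v ^ 2
/-- triples of pairwise non-adjacent vertices -/
noncomputable def p0 : ℝ := ∑ a, ∑ b, ∑ c, w a * w b * w c * (N R a b * N R a c * N R b c)
/-- `κ(v) = P(x ≁ v, y ~ v, x ≁ y)` -/
noncomputable def kap (v : V) : ℝ :=
  ∑ x, ∑ y, w x * w y * (N R v x * (1 - N R v y) * N R x y)
/-- `λ(v) = P(x ≁ v, y ≁ v, x ~ y)` -/
noncomputable def lam (v : V) : ℝ :=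
  ∑ x, ∑ y, w x * w y * (N R v x * N R v y * (1 - N R x y))
/-- density of ordered quadruples of pairwise adjacent vertices -/
noncomputable def k4 : ℝ := ∑ a, ∑ b, ∑ c, ∑ d, w a * w b * w c * w d *
  ((1 - N R a b) * (1 - N R a c) * (1 - N R a d) * (1 - N R b c) * (1 - N R b d) * (1 - N R c d))

/-- local optimality of the weights -/
structure Opt : Prop where
  pos : ∀ v, 0 < w v
  sum : ∑ v, w v = 1
  kkt : ∀ v, L R w v = T R w
  soc : ∀ u v, 0 ≤ Qd R w u u + Qd R w v v - 2 * Qd R w u v

/-- weight of `x` with `bad x y`: same part and adjacent, or different parts and non-adjacent -/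
noncomputable def bad (P : V → Fin 3) (x y : V) : ℝ :=
  if P x = P y then 1 - N R x y else N R x y

/-- defect of the vertex `v` with respect to the partition `P` if it were put in part `i` -/
noncomputable def zz (P : V → Fin 3) (i : Fin 3) (v : V) : ℝ :=
  ∑ y, w y * (if y = v then 0 else if P y = i then 1 - N R v y else N R v y)

/-- total defect -/
noncomputable def Z (P : V → Fin 3) : ℝ := ∑ x, ∑ y, w x * w y * bad R P x y

end Pool.Agent.H122R2.FdF
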