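import Pool.Agent.H122R2.FdF.Defs

set_option autoImplicit false
open Finset
open scoped Classical

namespace Pool.Agent.H122R2.FdF

variable {V : Type} [Fintype V] (R : V → V → Prop) (w : V → ℝ)

/-- weight of the part `i` -/
noncomputable def W (P : V → Fin 3) (i : Fin 3) : ℝ := ∑ v, if P v = i then w v else 0

/-- weight of the neighbours of `v` in its own part -/
noncomputable def al (P : V → Fin 3) (v : V) : ℝ :=
  ∑ y, w y * (if P y = P v then 1 - N R v y else 0)

/-- weight of the non-neighbours of `v` in the other parts -/
noncomputable def be (P : V → Fin 3) (v : V) : ℝ :=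
  ∑ y, w y * (if P y = P v then 0 else N R v y)

/-- value of the corner game -/
noncomputable def FF (x y : ℝ) : ℝ :=
  if x ≤ 0 ∨ y ≤ 0 then 0 else (min x y) ^ 2 * max x y - (min x y) ^ 3 / 3

/-- weight of the vertices of the part `i` with own-part degree more than `τ` -/
noncomputable def ze (P : V → Fin 3) (i : Fin 3) (τ : ℝ) : ℝ :=
  ∑ v, if P v = i ∧ τ < al R w P v then w v else 0

end Pool.Agent.H122R2.FdF
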