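import Pool.Agent.H122R2.FdF.Defs2

set_option autoImplicit false
open Finset
open scoped Classical

namespace Pool.Agent.H122R2.FdF

/-- code of three relations -/
def cd (x y z : ℕ) : ℕ := Nat.add x (Nat.add (Nat.mul 3 y) (Nat.mul 9 z))

/-- compatible pairs of relation codes `(rel x y, rel y x)` -/
def Pr (d e : ℕ) : Prop := (d = 0 ∧ e = 0) ∨ (d = 1 ∧ e = 2) ∨ (d = 2 ∧ e = 1)

/-- code of the relation between two vertices -/
noncomputable def rl {V : Type} (R : V → V → Prop) (x y : V) : ℕ :=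
  if R x y then 1 else if R y x then 2 else 0

section
variable {V : Type} (rel : V → V → ℕ)

/-- code of a triple -/
def c3 (a b c : V) : ℕ := cd (rel a b) (rel a c) (rel b c)
/-- code of the attachment of `d` to the triple `a b c` -/
def c4 (a b c d : V) : ℕ := cd (rel a d) (rel b d) (rel c d)

def F3 (q3 : ℕ → ℕ → ℕ → ℕ) (a b c d e : V) : ℕ :=
  q3 (cd (rel a b) (rel a c) (rel b c)) (cd (rel a d) (rel b d) (rel c d))
    (cd (rel a e) (rel b e) (rel c e))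
def F1 (q1 : ℕ → ℕ → ℕ) (a b c d e : V) : ℕ :=
  q1 (cd (rel a b) (rel a c) (rel b c)) (cd (rel a d) (rel a e) (rel d e))

/-- the total over the 10 triples and the 15 splittings of five vertices -/
def Leaf (q3 : ℕ → ℕ → ℕ → ℕ) (q1 : ℕ → ℕ → ℕ) (x : Fin 5 → V) : ℕ :=
  (F3 rel q3 (x 0) (x 1) (x 2) (x 3) (x 4) +
      (F3 rel q3 (x 0) (x 1) (x 3) (x 2) (x 4) +
      (F3 rel q3 (x 0) (x 1) (x 4) (x 2) (x 3) +
      (F3 rel q3 (x 0) (x 2) (x 3) (x 1) (x 4) +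
      (F3 rel q3 (x 0) (x 2) (x 4) (x 1) (x 3) +
      (F3 rel q3 (x 0) (x 3) (x 4) (x 1) (x 2) +
      (F3 rel q3 (x 1) (x 2) (x 3) (x 0) (x 4) +
      (F3 rel q3 (x 1) (x 2) (x 4) (x 0) (x 3) +
      (F3 rel q3 (x 1) (x 3) (x 4) (x 0) (x 2) +
      F3 rel q3 (x 2) (x 3) (x 4) (x 0) (x 1))))))))))
    + (F1 rel q1 (x 0) (x 1) (x 2) (x 3) (x 4) +
      (F1 rel q1 (x 0) (x 1) (x 3) (x 2) (x 4) +
      (F1 rel q1 (x 0) (x 1) (x 4) (x 2) (x 3) +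
      (F1 rel q1 (x 1) (x 0) (x 2) (x 3) (x 4) +
      (F1 rel q1 (x 1) (x 0) (x 3) (x 2) (x 4) +
      (F1 rel q1 (x 1) (x 0) (x 4) (x 2) (x 3) +
      (F1 rel q1 (x 2) (x 0) (x 1) (x 3) (x 4) +
      (F1 rel q1 (x 2) (x 0) (x 3) (x 1) (x 4) +
      (F1 rel q1 (x 2) (x 0) (x 4) (x 1) (x 3) +
      (F1 rel q1 (x 3) (x 0) (x 1) (x 2) (x 4) +
      (F1 rel q1 (x 3) (x 0) (x 2) (x 1) (x 4) +
      (F1 rel q1 (x 3) (x 0) (x 4) (x 1) (x 2) +
      (F1 rel q1 (x 4) (x 0) (x 1) (x 2) (x 3) +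
      (F1 rel q1 (x 4) (x 0) (x 2) (x 1) (x 3) +
      F1 rel q1 (x 4) (x 0) (x 3) (x 1) (x 2)))))))))))))))
end

/-- number of adjacent pairs of a triple code -/
def adjc (c : ℕ) : ℕ := Nat.add (Nat.min 1 (Nat.mod c 3))
  (Nat.add (Nat.min 1 (Nat.mod (Nat.div c 3) 3)) (Nat.min 1 (Nat.mod (Nat.div c 9) 3)))
/-- exactly one adjacent pair -/
def p1c (c : ℕ) : ℕ := cond (Nat.beq (adjc c) 1) 1 0
/-- the triple is an edge of the Fon-der-Flaass 3-graph -/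
def pc (c : ℕ) : ℕ := Nat.mod (Nat.shiftRight 122055263 c) 2
/-- the triple has a vertex of out-degree 2 -/
def chc (c : ℕ) : ℕ :=
  cond (and (Nat.beq (Nat.mod c 3) 1) (Nat.beq (Nat.mod (Nat.div c 3) 3) 1)) 1
    (cond (and (Nat.beq (Nat.mod c 3) 2) (Nat.beq (Nat.mod (Nat.div c 9) 3) 1)) 1
    (cond (and (Nat.beq (Nat.mod (Nat.div c 3) 3) 2) (Nat.beq (Nat.mod (Nat.div c 9) 3) 2)) 1 0))
/-- all pairs adjacent in the quadruple (triple code `c`, attachment code `i`) -/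
def k4c (c i : ℕ) : ℕ := cond (and (Nat.beq (adjc c) 3) (Nat.beq (adjc i) 3)) 1 0

end Pool.Agent.H122R2.FdF
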