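import Pool.Agent.H122R2.FdF.FlagDefs

/-! Kernel-reducible helpers for the flag certificates. -/

set_option autoImplicit false
set_option maxRecDepth 100000

namespace Pool.Agent.H122R2.FdF

def TC : ℕ := 0x400000800000000000000000000000000000000004000000000000000000000000000002000000000000000000001000000000001000000000000000000000000000000000000000
/-- indicator of the codes of the induced oriented 4-cycles -/
def cy4 (x y z u v w : ℕ) : ℕ :=
  Nat.mod (Nat.shiftRight TC (Nat.add x (Nat.add (Nat.mul 3 y) (Nat.add (Nat.mul 9 z)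
    (Nat.add (Nat.mul 27 u) (Nat.add (Nat.mul 81 v) (Nat.mul 243 w))))))) 2

def cyc (d01 d02 d03 d04 d12 d13 d14 d23 d24 d34 : ℕ) : ℕ :=
  (Nat.add (cy4 d12 d13 d14 d23 d24 d34)
    (Nat.add (cy4 d02 d03 d04 d23 d24 d34)
    (Nat.add (cy4 d01 d03 d04 d13 d14 d34)
    (Nat.add (cy4 d01 d02 d04 d12 d14 d24)
    (cy4 d01 d02 d03 d12 d13 d23)))))

def A3 (f : ℕ → ℕ → Bool) : Bool := and (f 0 0) (and (f 1 2) (f 2 1))

def nsum (n : ℕ) (f : ℕ → ℕ) : ℕ := Nat.rec 0 (fun k s => Nat.add s (f k)) n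
def nall (n : ℕ) (f : ℕ → Bool) : Bool := Nat.rec true (fun k s => and s (f k)) n

end Pool.Agent.H122R2.FdF
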