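import Pool.Agent.H122R2.FdF.Core

/-! The weighted form of the Fon-der-Flaass conjecture. -/

set_option autoImplicit false
open Finset
open scoped Classical

namespace Pool.Agent.H122R2.FdF

/-- every weighted Fon-der-Flaass 3-graph has density at least `4/9` -/
theorem main_weighted {V : Type} [Fintype V] (R : V → V → Prop) (w : V → ℝ) (hO : Oriented R)
    (hC : C4Free R) (hw : ∀ v, 0 ≤ w v) (h1 : ∑ v, w v = 1) : 4 / 9 ≤ T R w := by
  obtain ⟨s, w', hopt, hle⟩ := exists_opt R w hw h1
  refine le_trans ?_ hle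
  exact core _ w' (fun x y h => hO x y h)
    (fun a b c d h1 h2 h3 h4 => hC a b c d h1 h2 h3 h4) hopt

end Pool.Agent.H122R2.FdF
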