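import Pool.Agent.H122R2.FdF.Defs2

/-! Task A: existence of optimal weights (minimiser of a symmetric cubic form on the simplex,
restricted to its support), with first and second order conditions. -/

set_option autoImplicit false
open Finset
open scoped Classical

namespace Pool.Agent.H122R2.FdF

section Sym
variable {V : Type} (R : V → V → Prop)

theorem N_symm' (a b : V) : N R a b = N R b a := by
  unfold N
  simp only [or_comm]

theorem H_swap12 (a b c : V) : H R a b c = H R b a c := by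
  unfold H
  rw [N_symm' R b a]
  ring

theorem H_swap23 (a b c : V) : H R a b c = H R a c b := by
  unfold H
  rw [N_symm' R c b]
  ring

end Sym

section Tri
variable {V : Type} [Fintype V] (K : V → V → V → ℝ)

/-- the trilinear form of a kernel -/
noncomputable def TT (x y z : V → ℝ) : ℝ := ∑ a, ∑ b, ∑ c, x a * y b * z c * K a b c

variable {K}

theorem TT_swap12 (h : ∀ a b c, K a b c = K b a c) (x y z : V → ℝ) :
    TT K x y z = TT K y x z := by
  unfold TT
  rw [Finset.sum_comm]
  refine Finset.sum_congr rfl fun b _ => Finset.sum_congr rfl fun a _ =>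
    Finset.sum_congr rfl fun c _ => ?_
  rw [h a b c]; ring

theorem TT_swap23 (h : ∀ a b c, K a b c = K a c b) (x y z : V → ℝ) :
    TT K x y z = TT K x z y := by
  unfold TT
  refine Finset.sum_congr rfl fun a _ => ?_
  rw [Finset.sum_comm]
  refine Finset.sum_congr rfl fun b _ => Finset.sum_congr rfl fun c _ => ?_
  rw [h a c b]; ring

theorem TT_line1 (x y z d : V → ℝ) (t : ℝ) :
    TT K (fun v => x v + t * d v) y z = TT K x y z + t * TT K d y z := by
  unfold TT
  simp only [add_mul, Finset.sum_add_distrib, Finset.mul_sum]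
  congr 1
  refine Finset.sum_congr rfl fun a _ => Finset.sum_congr rfl fun b _ =>
    Finset.sum_congr rfl fun c _ => by ring

theorem TT_line (h12 : ∀ a b c, K a b c = K b a c) (h23 : ∀ a b c, K a b c = K a c b)
    (x d : V → ℝ) (t : ℝ) :
    TT K (fun v => x v + t * d v) (fun v => x v + t * d v) (fun v => x v + t * d v) =
      TT K x x x + 3 * t * TT K d x x + 3 * t ^ 2 * TT K d d x + t ^ 3 * TT K d d d := by
  have L2 : ∀ y z : V → ℝ, TT K y (fun v => x v + t * d v) z =
      TT K y x z + t * TT K y d z := by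
    intro y z
    rw [TT_swap12 h12, TT_line1, TT_swap12 h12 x, TT_swap12 h12 d]
  have L3 : ∀ y z : V → ℝ, TT K y z (fun v => x v + t * d v) =
      TT K y z x + t * TT K y z d := by
    intro y z
    rw [TT_swap23 h23, L2, TT_swap23 h23 y x, TT_swap23 h23 y d]
  rw [TT_line1, L2, L3, L3, L2, L3, L3]
  have e1 : TT K x x d = TT K d x x := by
    rw [TT_swap23 h23, TT_swap12 h12]
  have e2 : TT K x d x = TT K d x x := TT_swap12 h12 _ _ _
  have e3 : TT K x d d = TT K d d x := by
    rw [TT_swap12 h12, TT_swap23 h23]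
  have e4 : TT K d x d = TT K d d x := TT_swap23 h23 _ _ _
  rw [e1, e2, e3, e4]; ring

end Tri

theorem cubic_cond {α β γ ε : ℝ} (hε : 0 < ε)
    (h : ∀ t : ℝ, |t| ≤ ε → 0 ≤ 3 * t * α + 3 * t ^ 2 * β + t ^ 3 * γ) :
    α = 0 ∧ 0 ≤ β := by
  have hβ : 0 ≤ β := by
    have h1 := h ε (by rw [abs_of_pos hε])
    have h2 := h (-ε) (by rw [abs_neg, abs_of_pos hε])
    have h3 : 0 ≤ 6 * ε ^ 2 * β := by nlinarith
    have h4 : 0 < 6 * ε ^ 2 := by positivity
    exact (mul_nonneg_iff_of_pos_left h4).1 h3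
  refine ⟨?_, hβ⟩
  by_contra hα
  have hα' : 0 < |α| := abs_pos.2 hα
  set δ : ℝ := min ε (min 1 (|α| / (β + |γ| + 1))) with hδ
  have hden : 0 < β + |γ| + 1 := by positivity
  have hδ0 : 0 < δ := by
    rw [hδ]; exact lt_min hε (lt_min one_pos (div_pos hα' hden))
  have hδ1 : δ ≤ 1 := le_trans (min_le_right _ _) (min_le_left _ _)
  have hδε : δ ≤ ε := min_le_left _ _
  have hδα : δ * (β + |γ| + 1) ≤ |α| := by
    have : δ ≤ |α| / (β + |γ| + 1) := le_trans (min_le_right _ _) (min_le_right _ _)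
    rwa [le_div_iff₀ hden] at this
  have h1 := h δ (by rw [abs_of_pos hδ0]; exact hδε)
  have h2 := h (-δ) (by rw [abs_neg, abs_of_pos hδ0]; exact hδε)
  have h1' : 0 ≤ 3 * α + 3 * δ * β + δ ^ 2 * γ := by
    have : 3 * δ * α + 3 * δ ^ 2 * β + δ ^ 3 * γ = δ * (3 * α + 3 * δ * β + δ ^ 2 * γ) := by ring
    rw [this] at h1
    exact (mul_nonneg_iff_of_pos_left hδ0).1 h1
  have h2' : 0 ≤ -3 * α + 3 * δ * β - δ ^ 2 * γ := by
    have : 3 * (-δ) * α + 3 * (-δ) ^ 2 * β + (-δ) ^ 3 * γ =
        δ * (-3 * α + 3 * δ * β - δ ^ 2 * γ) := by ring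
    rw [this] at h2
    exact (mul_nonneg_iff_of_pos_left hδ0).1 h2
  have hγ1 : δ ^ 2 * γ ≤ δ * |γ| := by
    have : δ ^ 2 * γ ≤ δ ^ 2 * |γ| := mul_le_mul_of_nonneg_left (le_abs_self _) (by positivity)
    have h3 : δ ^ 2 ≤ δ := by nlinarith
    exact this.trans (mul_le_mul_of_nonneg_right h3 (abs_nonneg _))
  have hγ2 : -(δ ^ 2 * γ) ≤ δ * |γ| := by
    have : δ ^ 2 * (-γ) ≤ δ ^ 2 * |γ| := mul_le_mul_of_nonneg_left (neg_le_abs _) (by positivity)
    have h3 : δ ^ 2 ≤ δ := by nlinarith
    have h4 := this.trans (mul_le_mul_of_nonneg_right h3 (abs_nonneg γ))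
    linarith [h4]
  have hγ0 : 0 ≤ δ * |γ| := by positivity
  rcases abs_cases α with ⟨ha, _⟩ | ⟨ha, _⟩
  · rw [ha] at hδα hα'
    nlinarith
  · rw [ha] at hδα hα'
    nlinarith

section Main
variable {V : Type} [Fintype V] (R : V → V → Prop)

theorem T_eq_TT (w : V → ℝ) : T R w = TT (H R) w w w := rfl

theorem L_sum (x w : V → ℝ) : TT (H R) x w w = ∑ a, x a * L R w a := by
  unfold TT L
  refine Finset.sum_congr rfl fun a _ => ?_
  rw [Finset.mul_sum]
  refine Finset.sum_congr rfl fun b _ => ?_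
  rw [Finset.mul_sum]
  refine Finset.sum_congr rfl fun c _ => by ring

theorem Q_sum (x y w : V → ℝ) : TT (H R) x y w = ∑ a, ∑ b, x a * y b * Qd R w a b := by
  unfold TT Qd
  refine Finset.sum_congr rfl fun a _ => Finset.sum_congr rfl fun b _ => ?_
  rw [Finset.mul_sum]
  refine Finset.sum_congr rfl fun c _ => by ring

/-- the direction `δ_u - δ_v` -/
noncomputable def dir (u v : V) : V → ℝ := fun a => (if a = u then 1 else 0) - if a = v then 1 else 0

theorem sum_dir (u v : V) (g : V → ℝ) : ∑ a, dir u v a * g a = g u - g v := by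
  unfold dir
  simp only [sub_mul, Finset.sum_sub_distrib, ite_mul, one_mul, zero_mul,
    Finset.sum_ite_eq', Finset.mem_univ, if_true]

theorem sum_dir2 (u v : V) (g : V → V → ℝ) :
    ∑ a, ∑ b, dir u v a * dir u v b * g a b = g u u + g v v - g u v - g v u := by
  have : ∀ a, ∑ b, dir u v a * dir u v b * g a b = dir u v a * (g a u - g a v) := by
    intro a
    rw [← sum_dir u v (g a), Finset.mul_sum]
    refine Finset.sum_congr rfl fun b _ => by ring
  simp only [this]
  rw [sum_dir]; ring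

theorem sum_dir1 (u v : V) : ∑ a, dir u v a = 0 := by
  have := sum_dir u v (fun _ => (1 : ℝ))
  simpa using this

theorem Qd_symm (w : V → ℝ) (u v : V) : Qd R w u v = Qd R w v u := by
  unfold Qd
  refine Finset.sum_congr rfl fun c _ => ?_
  rw [H_swap12]

theorem line_T (w : V → ℝ) (u v : V) (t : ℝ) :
    T R (fun a => w a + t * dir u v a) = T R w + (3 * t * (L R w u - L R w v) +
      3 * t ^ 2 * (Qd R w u u + Qd R w v v - 2 * Qd R w u v) +
      t ^ 3 * TT (H R) (dir u v) (dir u v) (dir u v)) := by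
  rw [T_eq_TT, TT_line (H_swap12 R) (H_swap23 R), L_sum R (dir u v) w, sum_dir,
    Q_sum R (dir u v) (dir u v) w, sum_dir2, ← T_eq_TT, Qd_symm R w v u]
  ring

theorem continuous_T : Continuous (fun w : V → ℝ => T R w) := by
  unfold T
  fun_prop

omit [Fintype V] in
theorem dir_abs_le (u v a : V) (w : V → ℝ) (hw : ∀ a, 0 ≤ w a) (t : ℝ) (h1 : |t| ≤ w u)
    (h2 : |t| ≤ w v) : 0 ≤ w a + t * dir u v a := by
  have ht := abs_le.1 (le_refl |t|)
  unfold dir
  by_cases hu : a = u
  · by_cases hv : a = v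
    · simp [hu, ← hv, hw]
    · subst hu
      rw [if_pos rfl, if_neg hv]
      nlinarith [ht.1]
  · by_cases hv : a = v
    · subst hv
      rw [if_neg hu, if_pos rfl]
      nlinarith [ht.2]
    · rw [if_neg hu, if_neg hv]
      simpa using hw a

theorem exists_opt (w : V → ℝ)
    (hw : ∀ v, 0 ≤ w v) (h1 : ∑ v, w v = 1) :
    ∃ (s : Finset V) (w' : s → ℝ), Opt (fun x y : s => R x y) w' ∧
      T (fun x y : s => R x y) w' ≤ T R w := by
  obtain ⟨w0, hw0, hmin⟩ := (isCompact_stdSimplex ℝ V).exists_isMinOn ⟨w, hw, h1⟩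
    (continuous_T R).continuousOn
  have hmin' : ∀ x ∈ stdSimplex ℝ V, T R w0 ≤ T R x := fun x hx => hmin hx
  obtain ⟨h0, hs⟩ := hw0
  set s : Finset V := Finset.univ.filter (fun v => w0 v ≠ 0) with hsdef
  have hpos : ∀ v : s, 0 < w0 v := fun v =>
    lt_of_le_of_ne (h0 v) (Ne.symm (Finset.mem_filter.1 v.2).2)
  have hsum : ∀ g : V → ℝ, ∑ a : s, w0 a * g a = ∑ a, w0 a * g a := by
    intro g
    rw [Finset.sum_coe_sort s (fun a => w0 a * g a)]
    refine Finset.sum_subset (Finset.subset_univ _) fun a _ ha => ?_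
    have : w0 a = 0 := by
      by_contra hne
      exact ha (by rw [hsdef]; simp [hne])
    rw [this, zero_mul]
  have hQ : ∀ u v : s, Qd (fun x y : s => R x y) (fun a : s => w0 a) u v = Qd R w0 u v := by
    intro u v
    exact hsum (fun c => H R u v c)
  have hL : ∀ u : s, L (fun x y : s => R x y) (fun a : s => w0 a) u = L R w0 u := by
    intro u
    have e1 : L (fun x y : s => R x y) (fun a : s => w0 a) u =
        ∑ b : s, w0 b * ∑ c : s, w0 c * H R u b c := by
      unfold L
      refine Finset.sum_congr rfl fun b _ => ?_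
      rw [Finset.mul_sum]
      refine Finset.sum_congr rfl fun c _ => ?_
      rw [← mul_assoc]; rfl
    have e2 : L R w0 u = ∑ b, w0 b * ∑ c, w0 c * H R u b c := by
      unfold L
      refine Finset.sum_congr rfl fun b _ => ?_
      rw [Finset.mul_sum]
      refine Finset.sum_congr rfl fun c _ => ?_
      rw [← mul_assoc]
    rw [e1, e2, ← hsum]
    refine Finset.sum_congr rfl fun b _ => ?_
    rw [hsum (fun c => H R u b c)]
  have hT : T (fun x y : s => R x y) (fun a : s => w0 a) = T R w0 := by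
    have e1 : T (fun x y : s => R x y) (fun a : s => w0 a) =
        ∑ a : s, w0 a * L (fun x y : s => R x y) (fun a : s => w0 a) a := by
      rw [T_eq_TT, L_sum]
    rw [e1, T_eq_TT, L_sum, ← hsum]
    refine Finset.sum_congr rfl fun b _ => ?_
    rw [hL]
  have hcond : ∀ u v : s, L R w0 u - L R w0 v = 0 ∧
      0 ≤ Qd R w0 u u + Qd R w0 v v - 2 * Qd R w0 u v := by
    intro u v
    have hε : 0 < min (w0 u) (w0 v) := lt_min (hpos u) (hpos v)
    refine cubic_cond (γ := TT (H R) (dir (u : V) v) (dir (u : V) v) (dir (u : V) v)) hε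
      fun t ht => ?_
    have hmem : (fun a => w0 a + t * dir (u : V) v a) ∈ stdSimplex ℝ V := by
      refine ⟨fun a => dir_abs_le _ _ _ _ h0 _ (ht.trans (min_le_left _ _))
        (ht.trans (min_le_right _ _)), ?_⟩
      rw [Finset.sum_add_distrib, ← Finset.mul_sum, sum_dir1, hs]; ring
    have := hmin' _ hmem
    rw [line_T] at this
    linarith
  refine ⟨s, fun a => w0 a, ⟨hpos, ?_, ?_, ?_⟩, ?_⟩
  · have := hsum (fun _ => (1 : ℝ))
    simpa [hs] using this
  · intro v
    rw [hL, hT]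
    have e : T R w0 = ∑ a : s, w0 a * L R w0 a := by
      rw [T_eq_TT, L_sum, ← hsum]
    have e2 : ∑ a : s, w0 a * L R w0 a = ∑ a : s, w0 a * L R w0 v := by
      refine Finset.sum_congr rfl fun a _ => ?_
      rw [sub_eq_zero.1 (hcond a v).1]
    rw [e, e2, hsum (fun _ => L R w0 v), ← Finset.sum_mul, hs, one_mul]
  · intro u v
    rw [hQ, hQ, hQ]
    exact (hcond u v).2
  · rw [hT]
    exact hmin' _ ⟨hw, h1⟩

end Main

end Pool.Agent.H122R2.FdF
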