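import Pool.Agent.H122R2.FdF.Defs

/-! Task H2 (helper394): every four vertices contain an edge of the Fon-der-Flaass 3-graph. -/

set_option autoImplicit false

namespace Pool.Agent.H122R2.FdF

theorem bool_four : ∀ ab ba ac ca ad da bc cb bd db cd dc : Bool,
    ((ab && ba) || (ac && ca) || (ad && da) || (bc && cb) || (bd && db) || (cd && dc) ||
    (ab && bc && cd && da && !(ac || ca || bd || db)) ||
    (ab && bd && dc && ca && !(ad || da || bc || cb)) ||
    (ac && cb && bd && da && !(ab || ba || cd || dc)) ||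
    (ac && cd && db && ba && !(ad || da || bc || cb)) ||
    (ad && db && bc && ca && !(ab || ba || cd || dc)) ||
    (ad && dc && cb && ba && !(ac || ca || bd || db)) ||
    (!ab && !ba && !ac && !ca) || (!ab && !ba && !ad && !da) || (!ac && !ca && !ad && !da) ||
     (!ab && !ba && !bc && !cb) || (!ab && !ba && !bd && !db) || (!bc && !cb && !bd && !db) ||
     (!ac && !ca && !bc && !cb) || (!ac && !ca && !cd && !dc) || (!bc && !cb && !cd && !dc) ||
     (!ad && !da && !bd && !db) || (!ad && !da && !cd && !dc) || (!bd && !db && !cd && !dc) ||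
     (ab && ac) || (ab && ad) || (ac && ad) || (ba && bc) || (ba && bd) || (bc && bd) ||
     (ca && cb) || (ca && cd) || (cb && cd) || (da && db) || (da && dc) || (db && dc)) = true := by
  decide +kernel

open Finset
open scoped Classical

theorem fdf_four {n : ℕ} (R : Fin n → Fin n → Prop) (hO : Oriented R) (hC : C4Free R)
    (S : Finset (Fin n)) (hS : S.card = 4) :
    ∃ s ⊆ S, s.card = 3 ∧
      ∃ x ∈ s, (∀ y ∈ s, y ≠ x → (¬ R x y ∧ ¬ R y x)) ∨ (∀ y ∈ s, y ≠ x → R x y) := by
  obtain ⟨a, b, c, d, hab, hac, had, hbc, hbd, hcd, rfl⟩ := Finset.card_eq_four.1 hS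
  -- finish from a vertex `x` and two other vertices `y`, `z`
  have fin1 : ∀ x y z : Fin n, x ≠ y → x ≠ z → y ≠ z → ({x, y, z} : Finset (Fin n)) ⊆ {a, b, c, d} →
      (((¬ R x y ∧ ¬ R y x) ∧ (¬ R x z ∧ ¬ R z x)) ∨ (R x y ∧ R x z)) →
      ∃ s ⊆ ({a, b, c, d} : Finset (Fin n)), s.card = 3 ∧
      ∃ x ∈ s, (∀ y ∈ s, y ≠ x → (¬ R x y ∧ ¬ R y x)) ∨ (∀ y ∈ s, y ≠ x → R x y) := by
    intro x y z hxy hxz hyz hsub h
    refine ⟨{x, y, z}, hsub, Finset.card_eq_three.2 ⟨x, y, z, hxy, hxz, hyz, rfl⟩, x, by simp, ?_⟩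
    rcases h with ⟨h1, h2⟩ | ⟨h1, h2⟩
    · left
      intro w hw hwx
      simp only [mem_insert, mem_singleton] at hw
      rcases hw with rfl | rfl | rfl
      · exact absurd rfl hwx
      · exact h1
      · exact h2
    · right
      intro w hw hwx
      simp only [mem_insert, mem_singleton] at hw
      rcases hw with rfl | rfl | rfl
      · exact absurd rfl hwx
      · exact h1
      · exact h2
  have sub : ∀ x y z : Fin n, (x = a ∨ x = b ∨ x = c ∨ x = d) → (y = a ∨ y = b ∨ y = c ∨ y = d) →
      (z = a ∨ z = b ∨ z = c ∨ z = d) → ({x, y, z} : Finset (Fin n)) ⊆ {a, b, c, d} := by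
    intro x y z hx hy hz w hw
    simp only [mem_insert, mem_singleton] at hw ⊢
    rcases hw with rfl | rfl | rfl
    · exact hx
    · exact hy
    · exact hz
  have key := bool_four (decide (R a b)) (decide (R b a)) (decide (R a c)) (decide (R c a))
    (decide (R a d)) (decide (R d a)) (decide (R b c)) (decide (R c b)) (decide (R b d))
    (decide (R d b)) (decide (R c d)) (decide (R d c))
  simp only [Bool.or_eq_true, Bool.and_eq_true, Bool.not_eq_true', Bool.or_eq_false_iff,
    decide_eq_true_eq, decide_eq_false_iff_not] at key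
  rcases key with ((((((((((((((((((((((((((((((((((( h | h) | h) | h) | h) | h) | h) | h) | h) | h) |
    h) | h) | h) | h) | h) | h) | h) | h) | h) | h) | h) | h) | h) | h) | h) | h) | h) | h) | h) |
    h) | h) | h) | h) | h) | h) | h)
  · exact absurd h.2 (hO _ _ h.1)
  · exact absurd h.2 (hO _ _ h.1)
  · exact absurd h.2 (hO _ _ h.1)
  · exact absurd h.2 (hO _ _ h.1)
  · exact absurd h.2 (hO _ _ h.1)
  · exact absurd h.2 (hO _ _ h.1)
  · have := hC a b c d; tauto
  · have := hC a b d c; tauto
  · have := hC a c b d; tauto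
  · have := hC a c d b; tauto
  · have := hC a d b c; tauto
  · have := hC a d c b; tauto
  · exact fin1 a b c hab hac hbc (sub _ _ _ (by simp) (by simp) (by simp)) (by tauto)
  · exact fin1 a b d hab had hbd (sub _ _ _ (by simp) (by simp) (by simp)) (by tauto)
  · exact fin1 a c d hac had hcd (sub _ _ _ (by simp) (by simp) (by simp)) (by tauto)
  · exact fin1 b a c hab.symm hbc hac (sub _ _ _ (by simp) (by simp) (by simp)) (by tauto)
  · exact fin1 b a d hab.symm hbd had (sub _ _ _ (by simp) (by simp) (by simp)) (by tauto)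
  · exact fin1 b c d hbc hbd hcd (sub _ _ _ (by simp) (by simp) (by simp)) (by tauto)
  · exact fin1 c a b hac.symm hbc.symm hab (sub _ _ _ (by simp) (by simp) (by simp)) (by tauto)
  · exact fin1 c a d hac.symm hcd had (sub _ _ _ (by simp) (by simp) (by simp)) (by tauto)
  · exact fin1 c b d hbc.symm hcd hbd (sub _ _ _ (by simp) (by simp) (by simp)) (by tauto)
  · exact fin1 d a b had.symm hbd.symm hab (sub _ _ _ (by simp) (by simp) (by simp)) (by tauto)
  · exact fin1 d a c had.symm hcd.symm hac (sub _ _ _ (by simp) (by simp) (by simp)) (by tauto)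
  · exact fin1 d b c hbd.symm hcd.symm hbc (sub _ _ _ (by simp) (by simp) (by simp)) (by tauto)
  · exact fin1 a b c hab hac hbc (sub _ _ _ (by simp) (by simp) (by simp)) (by tauto)
  · exact fin1 a b d hab had hbd (sub _ _ _ (by simp) (by simp) (by simp)) (by tauto)
  · exact fin1 a c d hac had hcd (sub _ _ _ (by simp) (by simp) (by simp)) (by tauto)
  · exact fin1 b a c hab.symm hbc hac (sub _ _ _ (by simp) (by simp) (by simp)) (by tauto)
  · exact fin1 b a d hab.symm hbd had (sub _ _ _ (by simp) (by simp) (by simp)) (by tauto)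
  · exact fin1 b c d hbc hbd hcd (sub _ _ _ (by simp) (by simp) (by simp)) (by tauto)
  · exact fin1 c a b hac.symm hbc.symm hab (sub _ _ _ (by simp) (by simp) (by simp)) (by tauto)
  · exact fin1 c a d hac.symm hcd had (sub _ _ _ (by simp) (by simp) (by simp)) (by tauto)
  · exact fin1 c b d hbc.symm hcd hbd (sub _ _ _ (by simp) (by simp) (by simp)) (by tauto)
  · exact fin1 d a b had.symm hbd.symm hab (sub _ _ _ (by simp) (by simp) (by simp)) (by tauto)
  · exact fin1 d a c had.symm hcd.symm hac (sub _ _ _ (by simp) (by simp) (by simp)) (by tauto)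
  · exact fin1 d b c hbd.symm hcd.symm hbc (sub _ _ _ (by simp) (by simp) (by simp)) (by tauto)

end Pool.Agent.H122R2.FdF
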